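import Pool.Agent.RAT.G.Defs
import Pool.Agent.Hhelper14.SAW.Count

/-!
RAT, geometry, MODULE Cn: elementary facts on the numbers of walks.

(1) `cn (n+1) <= 2 cn n` for `n >= 1`: a walk of `WF b (n+1)` is `x :: y :: z :: r`, its tail is in `WF b n`, and `x - y` is `L (y - z)` or
`R (y - z)` (`hex_nbr`): at most two walks with the same tail (`Finset.card_le_mul_card_image` with `List.tail`).
(2) `cn b n > 0`: the walk through the points `(-(i/2), i)`, `i = 0, ..., n` (second coordinate `i`, so no repetitions; `F0 = 2 * (-(i/2)) + i`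
is 0 or 1; neighbouring points differ by `(0,1)` or `(-1,1)`; `(-(i/2) - i) % 3` is 0 for even `i` and 2 for odd `i`), as the list
`((List.range (n+1)).map z).reverse` (`isWalk_lst` in `Hhelper14.SAW.Count` may be imported).
(3) `cn true n <= cn false n`.
-/

namespace Pool.Agent.RAT

open Pool.Agent.Hhelper14.SAW

private lemma tail_mem {b : Bool} {n : ℕ} {x : ℤ × ℤ} {Q : List (ℤ × ℤ)} (h : x :: Q ∈ WF b (n + 1)) : Q ∈ WF b n := by
  rw [mem_WF] at h ⊢
  obtain ⟨⟨h1, h2, h3, h4⟩, h5⟩ := h
  have h6 : Q.length = n + 1 := by simpa using h1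
  refine ⟨⟨h6, (List.nodup_cons.1 h2).2, h3.tail, ?_⟩, fun z hz => h5 z (List.mem_cons_of_mem _ hz)⟩
  match Q, h6 with
  | y :: Q, _ => rwa [List.getLast?_cons_cons] at h4

theorem cn_succ_le_of (b : Bool) (n : ℕ) (hn : 1 ≤ n) : cn b (n + 1) ≤ 2 * cn b n := by
  classical
  unfold cn
  refine Finset.card_le_mul_card_image_of_maps_to (f := List.tail) ?_ 2 ?_
  · intro P hP
    have h1 := (mem_WF.1 hP).1.1
    match P, h1 with
    | x :: Q, _ => exact tail_mem hP
  · intro Q hQ
    have h1 := (mem_WF.1 hQ).1.1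
    match Q, h1 with
    | [], h1 => simp at h1
    | [y], h1 => simp at h1; omega
    | y :: z :: r, h1 =>
      refine (Finset.card_le_card (t := {(y + L (y - z)) :: y :: z :: r, (y + R (y - z)) :: y :: z :: r}) ?_).trans
        Finset.card_le_two
      intro P hP
      rw [Finset.mem_filter] at hP
      obtain ⟨hP, ht⟩ := hP
      have h2 := (mem_WF.1 hP).1
      match P, h2, ht with
      | x :: Q, h2, ht =>
        rw [List.tail_cons] at ht
        subst ht
        obtain ⟨-, h3, h4, -⟩ := h2
        have h5 := List.isChain_cons_cons.1 h4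
        have h6 := List.isChain_cons_cons.1 h5.2
        have h7 : x ≠ z := by
          rintro rfl
          exact (List.nodup_cons.1 h3).1 (by simp)
        rw [Finset.mem_insert, Finset.mem_singleton]
        rcases hex_nbr h5.1 h6.1 h7 with h | h
        · left
          rw [← h]
          simp
        · right
          rw [← h]
          simp
      | [], h2, ht => simp at ht

private def zz (i : ℕ) : ℤ × ℤ := (-((i : ℤ) / 2), (i : ℤ))

private lemma fw_zz (n : ℕ) : Fw n zz := by
  refine ⟨by simp [zz, o], ?_, ?_⟩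
  · intro i _
    simp only [Adj, hon, U, zz, Prod.mk_sub_mk]
    push_cast
    refine ⟨?_, ?_, ?_⟩ <;> omega
  · intro i _ j _ h
    simp only [zz, Prod.mk.injEq] at h
    omega

theorem cn_pos_of (b : Bool) (n : ℕ) : 0 < cn b n := by
  unfold cn
  rw [Finset.card_pos]
  refine ⟨lst n zz, mem_WF.2 ⟨(isWalk_lst n zz).2 (fw_zz n), ?_⟩⟩
  intro z hz _
  unfold lst at hz
  rw [List.mem_reverse, List.mem_map] at hz
  obtain ⟨i, -, rfl⟩ := hz
  simp only [F0, zz]
  omega

theorem cn_mono (n : ℕ) : cn true n ≤ cn false n := by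
  unfold cn
  refine Finset.card_le_card fun P hP => ?_
  rw [mem_WF] at hP ⊢
  exact ⟨hP.1, fun _ _ h => absurd h (by decide)⟩

end Pool.Agent.RAT
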