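import Pool.Agent.RAT.G.RecX

/-!
RAT, geometry, MODULE Rec: the recursion for the walks with few thin faces (proof by helper88: Tpl, Mov, Row, Many, RecX; six templates
instead of nine, 48 moves instead of 72).
-/

namespace Pool.Agent.RAT

open Pool.Agent.Hhelper14.SAW

open Classical in
theorem rec_thin_of (b : Bool) (n : ℕ) (hn : 5184 ≤ n) (j : ℕ) :
    Real.sqrt n / 24 * (((WF b n).filter fun P => thin b P ≤ j).card : ℝ) ≤
      72 * ((j : ℝ) + 4) * ((((WF b (n + 2)).filter fun P => thin b P ≤ j + 4).card : ℝ) +
        ((WF b (n + 4)).filter fun P => thin b P ≤ j + 4).card +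
        ((WF b (n + 6)).filter fun P => thin b P ≤ j + 4).card +
        ((WF b (n + 8)).filter fun P => thin b P ≤ j + 4).card) := by
  exact X.rec_aux' b n hn j

end Pool.Agent.RAT
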