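import Pool.Agent.RAT.G.FlipB
import Pool.Agent.RAT.G.Rec
import Pool.Agent.RAT.G.Cn

/-!
RAT, interface of the geometry part (helper49). Everything for both domains (`b = false`: plane, `b = true`: half plane).
-/

namespace Pool.Agent.RAT

open Pool.Agent.Hhelper14.SAW

/-- Double counting of the flips thin -> fat. Use: `G u v = 1 / v` gives `∑ u/(v+1) = #{v ≥ 1}` at `n + 4`;
`G u v = u / (v (v + 1))` gives `∑ u (u-1)/((v+1)(v+2))` etc.; indicators give the step of the recursion for fat faces. -/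
theorem flip_sum (b : Bool) (n : ℕ) (G : ℕ → ℕ → ℝ) :
    ∑ P ∈ WF b n, (thin b P : ℝ) * G (thin b P - 1) (fat b P + 1) =
      ∑ P ∈ WF b (n + 4), (fat b P : ℝ) * G (thin b P) (fat b P) := flip_sum_of b n G

open Classical in
/-- Walks with at most `j` thin faces. -/
noncomputable def fewThin (b : Bool) (n j : ℕ) : ℕ := ((WF b n).filter fun P => thin b P ≤ j).card

/-- Recursion for the walks with few thin faces. -/
theorem rec_thin (b : Bool) (n : ℕ) (hn : 5184 ≤ n) (j : ℕ) :
    Real.sqrt n / 24 * (fewThin b n j : ℝ) ≤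
      72 * ((j : ℝ) + 4) * ((fewThin b (n + 2) (j + 4) : ℝ) + fewThin b (n + 4) (j + 4) +
        fewThin b (n + 6) (j + 4) + fewThin b (n + 8) (j + 4)) := rec_thin_of b n hn j

theorem cn_succ_le (b : Bool) (n : ℕ) (hn : 1 ≤ n) : cn b (n + 1) ≤ 2 * cn b n := cn_succ_le_of b n hn

theorem cn_pos (b : Bool) (n : ℕ) : 0 < cn b n := cn_pos_of b n

end Pool.Agent.RAT
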