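import Pool.Agent.RAT.G.Defs

/-!
RAT, geometry, MODULE Arc: the two ways round a face. `L`, `R` (Hhelper14.SAW) are the rotations by +-60 degrees of the
offsets; `c + u`, `u` a unit vector, are the six vertices of the face with centre `c` (`Ctr c`).

For two neighbouring vertices `x, y` of the face, `arc c x y` is the long way from `x` to `y` (six vertices).
(1) `arc_spec`: it is a chain without repetitions from `x` to `y`, has length 6, and its vertices are exactly the
vertices of the face. Write `x = c + u`, `y = c + v`, `u, v` unit vectors with `U (x - y)`: 6 * 2 cases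
(`U (x - c)`, `U (y - c)`, `U (x - y)` are disjunctions; or `v = L u` or `v = R u` by omega), everything else by
`simp`/`decide`; `Adj (c + o) (c + o')` needs `Ctr c` for `hon`.
(2) `arc_unique`: a chain without repetitions of six vertices of the face is the arc of its first and last vertex, which
are neighbours. (The face is a hexagon: each vertex has only two neighbours in the face; after the first step the chain
must go on in the same direction. Destructure `q = [x0,...,x5]`, reduce to offsets, use omega or `decide` on the 6 * 2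
possibilities for `x0`, `x1`, then `x2` is determined by `x2 <> x0`, and so on.)
-/

namespace Pool.Agent.RAT

open Pool.Agent.Hhelper14.SAW

/-- The long way round the face with centre `c` from `x` to its neighbour `y`. -/
def arc (c x y : ℤ × ℤ) : List (ℤ × ℤ) :=
  if y - c = L (x - c) then
    [x, c + R (x - c), c + R (R (x - c)), c + R (R (R (x - c))), c + R (R (R (R (x - c)))), y]
  else
    [x, c + L (x - c), c + L (L (x - c)), c + L (L (L (x - c))), c + L (L (L (L (x - c)))), y]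

/-- The six unit offsets, counterclockwise. -/
def hoff (i : Fin 6) : ℤ × ℤ :=
  match i with
  | 0 => (1, 0)
  | 1 => (0, 1)
  | 2 => (-1, 1)
  | 3 => (-1, 0)
  | 4 => (0, -1)
  | 5 => (1, -1)

lemma hoff_U : ∀ i, U (hoff i) := by decide

lemma hoff_inj : Function.Injective hoff := by
  have : ∀ i j, hoff i = hoff j → i = j := by decide
  exact fun i j h => this i j h

lemma exists_hoff {u : ℤ × ℤ} (h : U u) : ∃ i, u = hoff i := by
  obtain ⟨a, b⟩ := u
  simp only [U] at h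
  rcases h with h | h | h | h | h | h
  · exact ⟨0, Prod.ext h.1 h.2⟩
  · exact ⟨1, Prod.ext h.1 h.2⟩
  · exact ⟨2, Prod.ext h.1 h.2⟩
  · exact ⟨3, Prod.ext h.1 h.2⟩
  · exact ⟨4, Prod.ext h.1 h.2⟩
  · exact ⟨5, Prod.ext h.1 h.2⟩

lemma hoff_L : ∀ i, L (hoff i) = hoff (i + 1) := by decide

lemma hoff_R : ∀ i, R (hoff i) = hoff (i - 1) := by decide

lemma hoff_adj : ∀ i j, U (hoff i - hoff j) ↔ (j = i + 1 ∨ j = i - 1) := by decide

lemma hoff_pt {c x : ℤ × ℤ} (hx : fc x = c) (h : hon x) : ∃ i, x = c + hoff i := by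
  obtain ⟨i, hi⟩ := exists_hoff (fc_spec h).2
  refine ⟨i, ?_⟩
  rw [← hi, hx]
  exact (add_sub_cancel c x).symm

lemma hoff_fc {c : ℤ × ℤ} (hc : Ctr c) (i : Fin 6) : hon (c + hoff i) ∧ fc (c + hoff i) = c := by
  refine fc_of hc ?_
  rw [add_sub_cancel_left]
  exact hoff_U i

lemma hoff_Adj {c : ℤ × ℤ} (hc : Ctr c) (i j : Fin 6) :
    Adj (c + hoff i) (c + hoff j) ↔ (j = i + 1 ∨ j = i - 1) := by
  unfold Adj
  rw [add_sub_add_left_eq_sub, hoff_adj]
  exact ⟨fun h => h.2.2, fun h => ⟨(hoff_fc hc i).1, (hoff_fc hc j).1, h⟩⟩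

lemma arc_L (c : ℤ × ℤ) (i : Fin 6) : arc c (c + hoff i) (c + hoff (i + 1)) =
    [i, i - 1, i - 1 - 1, i - 1 - 1 - 1, i - 1 - 1 - 1 - 1, i + 1].map fun k => c + hoff k := by
  unfold arc
  simp only [add_sub_cancel_left, hoff_L, hoff_R, if_true, List.map_cons, List.map_nil]

lemma arc_R (c : ℤ × ℤ) (i : Fin 6) : arc c (c + hoff i) (c + hoff (i - 1)) =
    [i, i + 1, i + 1 + 1, i + 1 + 1 + 1, i + 1 + 1 + 1 + 1, i - 1].map fun k => c + hoff k := by
  have : ∀ i : Fin 6, hoff (i - 1) ≠ hoff (i + 1) := by decide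
  unfold arc
  simp only [add_sub_cancel_left, hoff_L, this, if_false, List.map_cons, List.map_nil]

lemma spec_map {c : ℤ × ℤ} (hc : Ctr c) {l : List (Fin 6)} (hl : l.length = 6)
    (h1 : l.IsChain fun a b => b = a + 1 ∨ b = a - 1) (h2 : l.Nodup) :
    HChain (l.map fun k => c + hoff k) ∧ (l.map fun k => c + hoff k).Nodup ∧
      (∀ z ∈ l.map fun k => c + hoff k, fc z = c) ∧ ∀ z, hon z → fc z = c → z ∈ l.map fun k => c + hoff k := by
  refine ⟨?_, ?_, ?_, ?_⟩
  · show List.IsChain Adj _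
    rw [List.isChain_map]
    exact h1.imp fun a b h => (hoff_Adj hc a b).2 h
  · exact h2.map fun a b h => hoff_inj (add_left_cancel h)
  · intro z hz
    obtain ⟨k, -, rfl⟩ := List.mem_map.1 hz
    exact (hoff_fc hc k).2
  · intro z hz hz'
    obtain ⟨k, rfl⟩ := hoff_pt hz' hz
    refine List.mem_map.2 ⟨k, ?_, rfl⟩
    have h3 : l.toFinset = Finset.univ := by
      apply Finset.eq_univ_of_card
      rw [List.toFinset_card_of_nodup h2, hl]
      rfl
    rw [← List.mem_toFinset, h3]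
    exact Finset.mem_univ k

theorem arc_spec {c x y : ℤ × ℤ} (hc : Ctr c) (hx : fc x = c) (hy : fc y = c) (h : Adj x y) :
    (arc c x y).length = 6 ∧ HChain (arc c x y) ∧ (arc c x y).Nodup ∧ (arc c x y).head? = some x ∧
      (arc c x y).getLast? = some y ∧ (∀ z ∈ arc c x y, fc z = c) ∧ ∀ z, hon z → fc z = c → z ∈ arc c x y := by
  obtain ⟨i, rfl⟩ := hoff_pt hx h.1
  obtain ⟨j, rfl⟩ := hoff_pt hy h.2.1
  rcases (hoff_Adj hc i j).1 h with rfl | rfl
  · rw [arc_L]
    have h1 : ∀ i : Fin 6, [i, i - 1, i - 1 - 1, i - 1 - 1 - 1, i - 1 - 1 - 1 - 1, i + 1].IsChain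
      (fun a b => b = a + 1 ∨ b = a - 1) := by decide
    have h2 : ∀ i : Fin 6, [i, i - 1, i - 1 - 1, i - 1 - 1 - 1, i - 1 - 1 - 1 - 1, i + 1].Nodup := by decide
    obtain ⟨s1, s2, s3, s4⟩ := spec_map hc rfl (h1 i) (h2 i)
    exact ⟨rfl, s1, s2, rfl, rfl, s3, s4⟩
  · rw [arc_R]
    have h1 : ∀ i : Fin 6, [i, i + 1, i + 1 + 1, i + 1 + 1 + 1, i + 1 + 1 + 1 + 1, i - 1].IsChain
      (fun a b => b = a + 1 ∨ b = a - 1) := by decide
    have h2 : ∀ i : Fin 6, [i, i + 1, i + 1 + 1, i + 1 + 1 + 1, i + 1 + 1 + 1 + 1, i - 1].Nodup := by decide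
    obtain ⟨s1, s2, s3, s4⟩ := spec_map hc rfl (h1 i) (h2 i)
    exact ⟨rfl, s1, s2, rfl, rfl, s3, s4⟩

lemma six_step : ∀ a b d : Fin 6, (d = b + 1 ∨ d = b - 1) → d ≠ a →
    (b = a + 1 → d = b + 1) ∧ (b = a - 1 → d = b - 1) := by
  decide

lemma six_close : ∀ a : Fin 6, a + 1 + 1 + 1 + 1 + 1 = a - 1 ∧ a - 1 - 1 - 1 - 1 - 1 = a + 1 := by
  decide

theorem arc_unique {c : ℤ × ℤ} {q : List (ℤ × ℤ)} (hc : Ctr c) (hl : q.length = 6) (hq : HChain q) (hn : q.Nodup)
    (hf : ∀ z ∈ q, fc z = c) : ∃ x y, q.head? = some x ∧ q.getLast? = some y ∧ Adj x y ∧ q = arc c x y := by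
  match q, hl with
  | [x0, x1, x2, x3, x4, x5], _ =>
    simp only [HChain, List.isChain_cons_cons, List.isChain_singleton, and_true] at hq
    obtain ⟨a1, a2, a3, a4, a5⟩ := hq
    obtain ⟨i0, rfl⟩ := hoff_pt (hf x0 (by simp)) a1.1
    obtain ⟨i1, rfl⟩ := hoff_pt (hf x1 (by simp)) a2.1
    obtain ⟨i2, rfl⟩ := hoff_pt (hf x2 (by simp)) a3.1
    obtain ⟨i3, rfl⟩ := hoff_pt (hf x3 (by simp)) a4.1
    obtain ⟨i4, rfl⟩ := hoff_pt (hf x4 (by simp)) a5.1
    obtain ⟨i5, rfl⟩ := hoff_pt (hf x5 (by simp)) a5.2.1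
    rw [hoff_Adj hc] at a1 a2 a3 a4 a5
    have hn' : [i0, i1, i2, i3, i4, i5].Nodup := List.Nodup.of_map (fun k => c + hoff k) hn
    simp only [List.nodup_cons, List.mem_cons, not_or] at hn'
    have s1 := six_step i0 i1 i2 a2 (Ne.symm hn'.1.2.1)
    have s2 := six_step i1 i2 i3 a3 (Ne.symm hn'.2.1.2.1)
    have s3 := six_step i2 i3 i4 a4 (Ne.symm hn'.2.2.1.2.1)
    have s4 := six_step i3 i4 i5 a5 (Ne.symm hn'.2.2.2.1.2.1)
    have hc' := six_close i0
    rcases a1 with a1 | a1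
    · have b2 := s1.1 a1
      have b3 := s2.1 b2
      have b4 := s3.1 b3
      have b5 := s4.1 b4
      subst a1 b2 b3 b4 b5
      rw [hc'.1]
      refine ⟨c + hoff i0, c + hoff (i0 - 1), rfl, rfl, (hoff_Adj hc _ _).2 (Or.inr rfl), ?_⟩
      rw [arc_R]; rfl
    · have b2 := s1.2 a1
      have b3 := s2.2 b2
      have b4 := s3.2 b3
      have b5 := s4.2 b4
      subst a1 b2 b3 b4 b5
      rw [hc'.2]
      refine ⟨c + hoff i0, c + hoff (i0 + 1), rfl, rfl, (hoff_Adj hc _ _).2 (Or.inl rfl), ?_⟩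
      rw [arc_L]; rfl

end Pool.Agent.RAT
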