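import Pool.Agent.Hhelper14.SAW.TnLow

/-!
RAT, geometry part: walks in the plane (`b = false`) and in the half plane (`b = true`), the hexagons `F(c)` which
partition the vertices, thin faces and fat faces.

Vertices are the points `z : ℤ × ℤ` with `hon z`; the centres of the faces `F` are the points `c` with
`c.1 % 3 = 1`, `c.2 % 3 = 0`; the six vertices of the face are `c + (1,0)`, `c + (0,1)`, `c + (-1,1)`, `c + (-1,0)`,
`c + (0,-1)`, `c + (1,-1)`; every vertex lies in exactly one face `F`. Lists: latest vertex first.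
-/

namespace Pool.Agent.RAT

open Pool.Agent.Hhelper14.SAW

/-- The domain: the whole lattice for `b = false`, the half plane `Re ≥ 0` for `b = true`. -/
def Dm (b : Bool) (z : ℤ × ℤ) : Prop := b = true → 0 ≤ F0 z

/-- Self-avoiding walks of length `n` from `o` in the domain, latest vertex first. -/
def W (b : Bool) (n : ℕ) : Set (List (ℤ × ℤ)) := {P | IsWalk n P ∧ ∀ z ∈ P, Dm b z}

lemma W_finite (b : Bool) (n : ℕ) : (W b n).Finite := (walk_finite n).subset fun _ h => h.1

/-- The same as a finite set. -/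
noncomputable def WF (b : Bool) (n : ℕ) : Finset (List (ℤ × ℤ)) := (W_finite b n).toFinset

lemma mem_WF {b : Bool} {n : ℕ} {P : List (ℤ × ℤ)} : P ∈ WF b n ↔ IsWalk n P ∧ ∀ z ∈ P, Dm b z := by
  unfold WF W
  rw [Set.Finite.mem_toFinset, Set.mem_ofPred_eq]

/-- The number of walks. -/
noncomputable def cn (b : Bool) (n : ℕ) : ℕ := (WF b n).card

lemma cn_false (n : ℕ) : cn false n = an n := by
  unfold cn an WF
  rw [← Set.ncard_eq_toFinset_card _ (W_finite false n)]
  congr 1
  ext P
  simp only [W, Dm, Set.mem_ofPred_eq, and_iff_left_iff_imp]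
  intro _ z _ h
  exact absurd h (by decide)

/-- Centres of the faces `F`. -/
def Ctr (c : ℤ × ℤ) : Prop := c.1 % 3 = 1 ∧ c.2 % 3 = 0

/-- The centre of the face `F` of a vertex. -/
def fc (z : ℤ × ℤ) : ℤ × ℤ :=
  if z.2 % 3 = 0 then (if z.1 % 3 = 0 then (z.1 + 1, z.2) else (z.1 - 1, z.2))
  else if z.2 % 3 = 1 then (if z.1 % 3 = 1 then (z.1, z.2 - 1) else (z.1 + 1, z.2 - 1))
  else (if z.1 % 3 = 1 then (z.1, z.2 + 1) else (z.1 - 1, z.2 + 1))

lemma fc_spec {z : ℤ × ℤ} (h : hon z) : Ctr (fc z) ∧ U (z - fc z) := by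
  obtain ⟨a, b⟩ := z
  simp only [hon] at h
  unfold Ctr fc U
  simp only [Prod.fst_sub, Prod.snd_sub]
  split_ifs <;> simp only <;> omega

lemma fc_of {c z : ℤ × ℤ} (hc : Ctr c) (h : U (z - c)) : hon z ∧ fc z = c := by
  obtain ⟨a, b⟩ := z
  obtain ⟨x, y⟩ := c
  simp only [Ctr] at hc
  simp only [U, Prod.fst_sub, Prod.snd_sub] at h
  constructor
  · simp only [hon]; omega
  · unfold fc
    simp only
    split_ifs <;> simp only [Prod.mk.injEq] <;> omega

/-- The face lies inside the domain. -/
def InF (b : Bool) (c : ℤ × ℤ) : Prop := b = true → 2 ≤ F0 c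

/-- The vertices of `P` in the face with centre `c` form one contiguous piece with `k + 1` vertices. -/
def Piece (k : ℕ) (c : ℤ × ℤ) (P : List (ℤ × ℤ)) : Prop :=
  ∃ p q r, P = p ++ q ++ r ∧ q.length = k + 1 ∧ (∀ z ∈ q, fc z = c) ∧ (∀ z ∈ p, fc z ≠ c) ∧ ∀ z ∈ r, fc z ≠ c

open Classical in
/-- Faces inside the domain met in exactly one piece with `k` edges. -/
noncomputable def faces (k : ℕ) (b : Bool) (P : List (ℤ × ℤ)) : Finset (ℤ × ℤ) :=
  (P.map fc).toFinset.filter fun c => InF b c ∧ Piece k c P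

lemma mem_faces {k : ℕ} {b : Bool} {P : List (ℤ × ℤ)} {c : ℤ × ℤ} :
    c ∈ faces k b P ↔ InF b c ∧ Piece k c P := by
  classical
  unfold faces
  rw [Finset.mem_filter, List.mem_toFinset, and_iff_right_iff_imp]
  rintro ⟨-, p, q, r, rfl, h, hq, -, -⟩
  match q, h with
  | x :: q, h =>
    rw [List.mem_map]
    exact ⟨x, by simp, hq x (by simp)⟩

/-- The number of thin faces: exactly one edge of the face is in the walk, its other four vertices are not. -/
noncomputable def thin (b : Bool) (P : List (ℤ × ℤ)) : ℕ := (faces 1 b P).card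

/-- The number of fat faces: the walk runs through all the six vertices of the face in one piece. -/
noncomputable def fat (b : Bool) (P : List (ℤ × ℤ)) : ℕ := (faces 5 b P).card

lemma faces_card_le {k : ℕ} {b : Bool} {P : List (ℤ × ℤ)} : (faces k b P).card ≤ P.length := by
  classical
  unfold faces
  refine (Finset.card_filter_le _ _).trans ?_
  refine (List.toFinset_card_le _).trans ?_
  rw [List.length_map]

lemma thin_le {b : Bool} {n : ℕ} {P : List (ℤ × ℤ)} (h : P ∈ WF b n) : thin b P ≤ n + 1 := by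
  have := faces_card_le (k := 1) (b := b) (P := P)
  rw [(mem_WF.1 h).1.1] at this
  exact this

lemma fat_le {b : Bool} {n : ℕ} {P : List (ℤ × ℤ)} (h : P ∈ WF b n) : fat b P ≤ n + 1 := by
  have := faces_card_le (k := 5) (b := b) (P := P)
  rw [(mem_WF.1 h).1.1] at this
  exact this

/-- All the vertices of a walk are vertices of the lattice. -/
lemma hon_of_walk {n : ℕ} {P : List (ℤ × ℤ)} (h : IsWalk n P) : ∀ z ∈ P, hon z := by
  obtain ⟨-, -, h3, h4⟩ := h
  intro z hz
  by_cases hl : P.getLast? = some z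
  · rw [h4, Option.some.injEq] at hl
    rw [← hl]; decide
  · obtain ⟨p, r, rfl⟩ := List.append_of_mem hz
    match r with
    | [] => simp at hl
    | y :: r =>
      have := List.isChain_append.1 h3
      exact (List.isChain_cons_cons.1 this.2.1).1.1

end Pool.Agent.RAT
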