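import Pool.Agent.RAT.G.Repl
import Pool.Agent.RAT.G.Arc

/-!
RAT, geometry, MODULE FlipA: the flips thin -> fat and back, at a fixed face `c` inside the domain.

Definitions (total functions, for a list `P` with exactly one block of vertices in the face `c`): `p` = the longest
prefix of `P` without vertices of the face (`takeWhile`), `q` = the next longest block inside the face, `r` = the rest
(if `Piece k c P` with witnesses `p, q, r`, these are the same lists: `List.takeWhile_append` etc.; the decomposition is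
unique). `toFat c P = p ++ arc c (first of q) (last of q) ++ r`, `toThin c P = p ++ [first of q, last of q] ++ r`.

Thin face, `P = p ++ [x, y] ++ r` in `WF b n`, `x, y` in the face, nothing else of `P` in the face: `Adj x y` (chain),
`P' = p ++ arc c x y ++ r` is a walk by `replace_walk` (all the vertices of `arc` are in the face, so not in `p`, `r`),
its length is `+4`, `getLast?` unchanged, its new vertices are in the domain because the face is inside the domain
(`InF b c`: `2 <= F0 c`, and `F0 (c + u) >= F0 c - 2`); `Piece 5 c P'` with the same `p`, `r`; `toThin c P' = P`.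
Fat face: `P' = p ++ q ++ r`, `q` six vertices of the face, `q = arc c x y` by `arc_unique`; `P = p ++ [x, y] ++ r` is a
walk by `replace_walk`, `toFat c P = P'`.
Numbers: `faces k b P'` and `faces k b P` differ only in the face `c` (`piece_congr` with `q, q'` = the two blocks, for
the faces `c' <> c`), `c` is in `faces 1 b P`, not in `faces 5 b P` (one block only: two decompositions have the same
length), and the other way round for `P'`. So `thin P' = thin P - 1`, `fat P' = fat P + 1`.
-/

namespace Pool.Agent.RAT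

open Pool.Agent.Hhelper14.SAW

namespace Flip

/-- The longest prefix without vertices of the face. -/
def pre (c : ℤ × ℤ) (P : List (ℤ × ℤ)) : List (ℤ × ℤ) := P.takeWhile fun z => decide (fc z ≠ c)

/-- The next block inside the face. -/
def mid (c : ℤ × ℤ) (P : List (ℤ × ℤ)) : List (ℤ × ℤ) :=
  (P.dropWhile fun z => decide (fc z ≠ c)).takeWhile fun z => decide (fc z = c)

/-- The rest. -/
def post (c : ℤ × ℤ) (P : List (ℤ × ℤ)) : List (ℤ × ℤ) :=
  (P.dropWhile fun z => decide (fc z ≠ c)).dropWhile fun z => decide (fc z = c)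

lemma blocks {c : ℤ × ℤ} {p q r : List (ℤ × ℤ)} (hq : q ≠ []) (h1 : ∀ z ∈ q, fc z = c)
    (h2 : ∀ z ∈ p, fc z ≠ c) (h3 : ∀ z ∈ r, fc z ≠ c) :
    pre c (p ++ q ++ r) = p ∧ mid c (p ++ q ++ r) = q ∧ post c (p ++ q ++ r) = r := by
  obtain ⟨x, q', rfl⟩ := List.exists_cons_of_ne_nil hq
  have hx : fc x = c := h1 x (by simp)
  have e1 : (p ++ x :: q' ++ r).takeWhile (fun z => decide (fc z ≠ c)) = p := by
    rw [List.append_assoc, List.takeWhile_append_of_pos (by simpa using h2)]
    simp [hx]
  have e2 : (p ++ x :: q' ++ r).dropWhile (fun z => decide (fc z ≠ c)) = x :: q' ++ r := by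
    rw [List.append_assoc, List.dropWhile_append_of_pos (by simpa using h2)]
    simp [hx]
  have e3 : r.takeWhile (fun z => decide (fc z = c)) = [] := by
    match r with
    | [] => rfl
    | y :: r => simp [h3 y (by simp)]
  have e4 : r.dropWhile (fun z => decide (fc z = c)) = r := by
    match r with
    | [] => rfl
    | y :: r => simp [h3 y (by simp)]
  refine ⟨e1, ?_, ?_⟩
  · unfold mid
    rw [e2, List.takeWhile_append_of_pos (by simpa using h1), e3, List.append_nil]
  · unfold post
    rw [e2, List.dropWhile_append_of_pos (by simpa using h1), e4]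

/-- Replace the block in the face by the long way round. -/
def toFat (P : List (ℤ × ℤ)) (c : ℤ × ℤ) : List (ℤ × ℤ) :=
  match (mid c P).head?, (mid c P).getLast? with
  | some x, some y => pre c P ++ arc c x y ++ post c P
  | _, _ => P

/-- Replace the block in the face by its end points. -/
def toThin (P : List (ℤ × ℤ)) (c : ℤ × ℤ) : List (ℤ × ℤ) :=
  match (mid c P).head?, (mid c P).getLast? with
  | some x, some y => pre c P ++ [x, y] ++ post c P
  | _, _ => P

lemma toFat_eq {c x y : ℤ × ℤ} {p q r : List (ℤ × ℤ)} (hx : q.head? = some x) (hy : q.getLast? = some y)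
    (h1 : ∀ z ∈ q, fc z = c) (h2 : ∀ z ∈ p, fc z ≠ c) (h3 : ∀ z ∈ r, fc z ≠ c) :
    toFat (p ++ q ++ r) c = p ++ arc c x y ++ r := by
  have hq : q ≠ [] := by rintro rfl; simp at hx
  obtain ⟨e1, e2, e3⟩ := blocks hq h1 h2 h3
  unfold toFat
  rw [e1, e2, e3, hx, hy]

lemma toThin_eq {c x y : ℤ × ℤ} {p q r : List (ℤ × ℤ)} (hx : q.head? = some x) (hy : q.getLast? = some y)
    (h1 : ∀ z ∈ q, fc z = c) (h2 : ∀ z ∈ p, fc z ≠ c) (h3 : ∀ z ∈ r, fc z ≠ c) :
    toThin (p ++ q ++ r) c = p ++ [x, y] ++ r := by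
  have hq : q ≠ [] := by rintro rfl; simp at hx
  obtain ⟨e1, e2, e3⟩ := blocks hq h1 h2 h3
  unfold toThin
  rw [e1, e2, e3, hx, hy]

lemma piece_len {k l : ℕ} {c : ℤ × ℤ} {P : List (ℤ × ℤ)} (h : Piece k c P) (h' : Piece l c P) : k = l := by
  obtain ⟨p, q, r, e, h1, h2, h3, h4⟩ := h
  obtain ⟨p', q', r', e', h1', h2', h3', h4'⟩ := h'
  have hq : q ≠ [] := by rintro rfl; simp at h1
  have hq' : q' ≠ [] := by rintro rfl; simp at h1'
  have a := (blocks hq h2 h3 h4).2.1
  have a' := (blocks hq' h2' h3' h4').2.1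
  rw [← e] at a
  rw [← e'] at a'
  rw [a] at a'
  rw [a'] at h1
  omega

lemma mid_dom {b : Bool} {c z : ℤ × ℤ} (hi : InF b c) (hz : hon z) (h : fc z = c) : Dm b z := by
  intro hb
  have h1 := hi hb
  obtain ⟨-, h2⟩ := fc_spec hz
  rw [h] at h2
  obtain ⟨a, d⟩ := z
  obtain ⟨x, y⟩ := c
  simp only [U, Prod.mk_sub_mk, F0] at *
  omega

lemma ne_of_adj {x y : ℤ × ℤ} (h : Adj x y) : x ≠ y := by
  rintro rfl
  obtain ⟨-, -, h⟩ := h
  rw [sub_self] at h
  revert h
  decide

/-- Comparison of the two walks. -/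
lemma compare {b : Bool} {c : ℤ × ℤ} {p q q' r : List (ℤ × ℤ)} {k l : ℕ} (hkl : k ≠ l)
    (hq : q.length = k + 1) (hq' : q'.length = l + 1)
    (h : ∀ z ∈ q, fc z = c) (h' : ∀ z ∈ q', fc z = c) (h2 : ∀ z ∈ p, fc z ≠ c) (h3 : ∀ z ∈ r, fc z ≠ c)
    (hi : InF b c) :
    (faces k b (p ++ q' ++ r)).card = (faces k b (p ++ q ++ r)).card - 1 ∧
      (faces l b (p ++ q' ++ r)).card = (faces l b (p ++ q ++ r)).card + 1 := by
  classical
  have hq0 : q ≠ [] := by rintro rfl; simp at hq
  have hq0' : q' ≠ [] := by rintro rfl; simp at hq'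
  have pk : Piece k c (p ++ q ++ r) := ⟨p, q, r, rfl, hq, h, h2, h3⟩
  have pl : Piece l c (p ++ q' ++ r) := ⟨p, q', r, rfl, hq', h', h2, h3⟩
  have nk : ¬ Piece k c (p ++ q' ++ r) := fun hh => hkl (piece_len hh pl)
  have nl : ¬ Piece l c (p ++ q ++ r) := fun hh => hkl (piece_len pk hh)
  have cg : ∀ j c', c' ≠ c → (Piece j c' (p ++ q ++ r) ↔ Piece j c' (p ++ q' ++ r)) := by
    intro j c' hc'
    refine piece_congr hq0 hq0' (fun z hz e => hc' ?_) fun z hz e => hc' ?_
    · rw [← e, h z hz]
    · rw [← e, h' z hz]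
  constructor
  · have e : faces k b (p ++ q' ++ r) = (faces k b (p ++ q ++ r)).erase c := by
      ext c'
      rw [Finset.mem_erase, mem_faces, mem_faces]
      by_cases hc' : c' = c
      · subst hc'
        exact ⟨fun hh => absurd hh.2 nk, fun hh => absurd rfl hh.1⟩
      · rw [cg k c' hc']
        simp [hc']
    rw [e, Finset.card_erase_of_mem (mem_faces.2 ⟨hi, pk⟩)]
  · have e : faces l b (p ++ q' ++ r) = insert c (faces l b (p ++ q ++ r)) := by
      ext c'
      rw [Finset.mem_insert, mem_faces, mem_faces]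
      by_cases hc' : c' = c
      · subst hc'
        exact ⟨fun _ => Or.inl rfl, fun _ => ⟨hi, pl⟩⟩
      · rw [cg l c' hc']
        simp [hc']
    rw [e, Finset.card_insert_of_notMem fun hh => nl (mem_faces.1 hh).2]

end Flip

open Flip

theorem flip_ex (b : Bool) (n : ℕ) : ∃ f g : List (ℤ × ℤ) → (ℤ × ℤ) → List (ℤ × ℤ),
    (∀ P ∈ WF b n, ∀ c ∈ faces 1 b P, f P c ∈ WF b (n + 4) ∧ c ∈ faces 5 b (f P c) ∧ g (f P c) c = P ∧
      thin b (f P c) = thin b P - 1 ∧ fat b (f P c) = fat b P + 1) ∧
    (∀ P ∈ WF b (n + 4), ∀ c ∈ faces 5 b P, g P c ∈ WF b n ∧ c ∈ faces 1 b (g P c) ∧ f (g P c) c = P) := by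
  refine ⟨toFat, toThin, ?_, ?_⟩
  · intro P hP c hc
    obtain ⟨hi, p, q, r, rfl, hq, h1, h2, h3⟩ := mem_faces.1 hc
    obtain ⟨hw, hd⟩ := mem_WF.1 hP
    match q, hq with
    | [x, y], _ =>
    obtain ⟨hl, hn, hch, hlast⟩ := hw
    have hxy : Adj x y := by
      have a := (List.isChain_append.1 ((List.isChain_append.1 hch).1)).2.1
      exact (List.isChain_cons_cons.1 a).1
    have hx : fc x = c := h1 x (by simp)
    have hy : fc y = c := h1 y (by simp)
    have hC : Ctr c := hx ▸ (fc_spec hxy.1).1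
    obtain ⟨a1, a2, a3, a4, a5, a6, a7⟩ := arc_spec hC hx hy hxy
    have a0 : arc c x y ≠ [] := by intro h; rw [h] at a1; simp at a1
    have ef : toFat (p ++ [x, y] ++ r) c = p ++ arc c x y ++ r := toFat_eq (by simp) (by simp) h1 h2 h3
    obtain ⟨w1, w2, w3, w4⟩ := replace_walk (q := [x, y]) (q' := arc c x y) (p := p) (r := r) (by simp) a0
      (by rw [a4]; simp) (by rw [a5]; simp) hch hn a2 a3
      fun z hz => ⟨fun hz' => h2 z hz' (a6 z hz), fun hz' => h3 z hz' (a6 z hz)⟩
    have hW : IsWalk (n + 4) (p ++ arc c x y ++ r) := by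
      refine ⟨?_, w2, w1, w4.trans hlast⟩
      simp only [List.length_append, List.length_cons, List.length_nil] at hl ⊢
      rw [a1]
      omega
    have hon' := hon_of_walk hW
    rw [ef]
    obtain ⟨n1, n2⟩ := compare (b := b) (c := c) (p := p) (q := [x, y]) (q' := arc c x y) (r := r) (k := 1)
      (l := 5) (by decide) (by simp) a1 h1 a6 h2 h3 hi
    refine ⟨mem_WF.2 ⟨hW, ?_⟩, mem_faces.2 ⟨hi, p, _, r, rfl, a1, a6, h2, h3⟩,
      toThin_eq a4 a5 a6 h2 h3, n1, n2⟩
    intro z hz
    rw [List.mem_append, List.mem_append] at hz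
    rcases hz with (hz | hz) | hz
    · exact hd z (by simp [hz])
    · exact mid_dom hi (hon' z (by simp [hz])) (a6 z hz)
    · exact hd z (by simp [hz])
  · intro P hP c hc
    obtain ⟨hi, p, q, r, rfl, hq, h1, h2, h3⟩ := mem_faces.1 hc
    obtain ⟨hw, hd⟩ := mem_WF.1 hP
    have hon' := hon_of_walk hw
    obtain ⟨hl, hn, hch, hlast⟩ := hw
    have hq0 : q ≠ [] := by rintro rfl; simp at hq
    obtain ⟨x0, hx0⟩ := List.exists_mem_of_ne_nil q hq0
    have hC : Ctr c := (h1 x0 hx0) ▸ (fc_spec (hon' x0 (by simp [hx0]))).1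
    have hcq : HChain q := (List.isChain_append.1 ((List.isChain_append.1 hch).1)).2.1
    have hnq : q.Nodup := (List.nodup_append.1 ((List.nodup_append.1 hn).1)).2.1
    obtain ⟨x, y, e1, e2, hxy, e3⟩ := arc_unique hC hq hcq hnq h1
    have hxm : x ∈ q := List.mem_of_mem_head? e1
    have hym : y ∈ q := List.mem_of_mem_getLast? e2
    have h1' : ∀ z ∈ [x, y], fc z = c := by
      intro z hz
      simp only [List.mem_cons, List.not_mem_nil, or_false] at hz
      rcases hz with rfl | rfl
      · exact h1 _ hxm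
      · exact h1 _ hym
    have ef : toThin (p ++ q ++ r) c = p ++ [x, y] ++ r := toThin_eq e1 e2 h1 h2 h3
    obtain ⟨w1, w2, w3, w4⟩ := replace_walk (q := q) (q' := [x, y]) (p := p) (r := r) hq0 (by simp)
      (by rw [e1]; simp) (by rw [e2]; simp) hch hn (by
        refine List.isChain_cons_cons.2 ⟨hxy, by simp⟩)
      (by simpa using ne_of_adj hxy)
      fun z hz => ⟨fun hz' => h2 z hz' (h1' z hz), fun hz' => h3 z hz' (h1' z hz)⟩
    have hW : IsWalk n (p ++ [x, y] ++ r) := by
      refine ⟨?_, w2, w1, w4.trans hlast⟩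
      simp only [List.length_append, List.length_cons, List.length_nil] at hl ⊢
      rw [hq] at hl
      omega
    rw [ef]
    refine ⟨mem_WF.2 ⟨hW, ?_⟩, mem_faces.2 ⟨hi, p, _, r, rfl, by simp, h1', h2, h3⟩, ?_⟩
    · intro z hz
      rw [List.mem_append, List.mem_append] at hz
      rcases hz with (hz | hz) | hz
      · exact hd z (by simp [hz])
      · simp only [List.mem_cons, List.not_mem_nil, or_false] at hz
        rcases hz with rfl | rfl
        · exact hd _ (by simp [hxm])
        · exact hd _ (by simp [hym])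
      · exact hd z (by simp [hz])
    · rw [toFat_eq (x := x) (y := y) (by simp) (by simp) h1' h2 h3, ← e3]

end Pool.Agent.RAT
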