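import Pool.Agent.RAT.G.FlipA

/-!
RAT, geometry, MODULE FlipB: double counting, from `flip_ex`.

`∑ P ∈ WF b n, thin P * G (thin P - 1) (fat P + 1) = ∑ over pairs (P, c), c ∈ faces 1 b P, of G (thin P - 1) (fat P + 1)`
`= ∑ over pairs (P', c), c ∈ faces 5 b P', of G (thin P') (fat P') = ∑ P' ∈ WF b (n+4), fat P' * G (thin P') (fat P')`:
`Finset.sum_const`, `Finset.sum_sigma'`, `Finset.sum_bij'` (or `Finset.sum_nbij'`) with the maps
`(P, c) -> (f P c, c)` and `(P', c) -> (g P' c, c)`.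
-/

namespace Pool.Agent.RAT

open Pool.Agent.Hhelper14.SAW

theorem flip_sum_of (b : Bool) (n : ℕ) (G : ℕ → ℕ → ℝ) :
    ∑ P ∈ WF b n, (thin b P : ℝ) * G (thin b P - 1) (fat b P + 1) =
      ∑ P ∈ WF b (n + 4), (fat b P : ℝ) * G (thin b P) (fat b P) := by
  obtain ⟨f, g, hf, hg⟩ := flip_ex b n
  have h1 : ∑ P ∈ WF b n, (thin b P : ℝ) * G (thin b P - 1) (fat b P + 1) =
      ∑ P ∈ WF b n, ∑ _c ∈ faces 1 b P, G (thin b P - 1) (fat b P + 1) := by
    refine Finset.sum_congr rfl fun P _ => ?_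
    rw [Finset.sum_const, nsmul_eq_mul]
    rfl
  have h2 : ∑ P ∈ WF b (n + 4), (fat b P : ℝ) * G (thin b P) (fat b P) =
      ∑ P ∈ WF b (n + 4), ∑ _c ∈ faces 5 b P, G (thin b P) (fat b P) := by
    refine Finset.sum_congr rfl fun P _ => ?_
    rw [Finset.sum_const, nsmul_eq_mul]
    rfl
  rw [h1, h2, Finset.sum_sigma', Finset.sum_sigma']
  refine Finset.sum_bij' (fun p _ => ⟨f p.1 p.2, p.2⟩) (fun p _ => ⟨g p.1 p.2, p.2⟩) ?_ ?_ ?_ ?_ ?_
  · rintro ⟨P, c⟩ h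
    rw [Finset.mem_sigma] at h ⊢
    have := hf P h.1 c h.2
    exact ⟨this.1, this.2.1⟩
  · rintro ⟨P, c⟩ h
    rw [Finset.mem_sigma] at h ⊢
    have := hg P h.1 c h.2
    exact ⟨this.1, this.2.1⟩
  · rintro ⟨P, c⟩ h
    rw [Finset.mem_sigma] at h
    have := (hf P h.1 c h.2).2.2.1
    simp only [this]
  · rintro ⟨P, c⟩ h
    rw [Finset.mem_sigma] at h
    have := (hg P h.1 c h.2).2.2
    simp only [this]
  · rintro ⟨P, c⟩ h
    rw [Finset.mem_sigma] at h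
    have := (hf P h.1 c h.2).2.2.2
    simp only [this.1, this.2]

end Pool.Agent.RAT
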