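import Pool.Agent.RAT.G.Tmpl

/-!
RAT, geometry, MODULE LocA: the local analysis at the extreme face `c` of a row. Checked by brute force for all walks of
length <= 15 (Python), in all four symmetric positions.

`Q` is a chain without repetitions, `c` a centre, `u0..u5 = (1,0), (0,1), (-1,1), (-1,0), (0,-1), (1,-1)`; the face `c`
is visited, the faces `c + (3,0)` and `c + (0,3)` are not, and neither the first nor the last vertex of `Q` lies in the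
faces `c`, `c + (-3,3)`.

NEIGHBOURS: a vertex `z` of `Q` which is not its first or last one has `Q = p ++ [x, z, y] ++ r` with `Adj x z`,
`Adj z y`, `x <> y` (nodup). The three neighbours of `c + u_i` are `c + u_(i-1)`, `c + u_(i+1)` and an outer one:
`c + u0`: `(2,0)`; `c + u1`: `(0,2)`; `c + u2`: `(-2,2)`; `c + u3`: `(-2,0)`; `c + u4`: `(0,-2)`; `c + u5`: `(2,-2)`
(offsets). The points `(2,0), (2,1)` are in the face `(3,0)`, the points `(0,2), (1,2), (-1,3)` in the face `(0,3)`: not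
visited. Write `E(x,y)` for: `x, y` are consecutive in `Q` (in either order). If one of the three neighbours of a
(visited, not first, not last) vertex `z` is not in `Q` then `E(z, .)` holds for the other two.
(a) `u0` or `u1` visited: then `E(u0,u1)` (outer neighbours `(2,0)`, `(0,2)` are not visited) and `u5`, `u2` are visited.
    Template 0.
(b) `u0, u1` not visited. `u2` visited => `E(u2,u3)`, `E(u2,(-2,2))`. `u5` visited => `E(u5,u4)`.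
  (b1) `u2` visited (so `u3` too). If `E(u3,u4)`: if `E(u4,u5)` template 6 (`u2 u3 u4 u5`), otherwise `u5` is not visited:
     template 4 (`u2 u3 u4`). If not `E(u3,u4)`: if `u4` is not visited then `u5` is not visited: template 1 (`u2 u3`).
     If `u4` is visited: its neighbours in `Q` are `u5` and `(0,-2)`. Now `(-2,2)` is visited, `E(u2,(-2,2))`. If
     `(-2,3)` is not visited: template 7. If `(-2,3)` is visited: it lies in the face `(-3,3)`, so it is not an end of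
     `Q`; its outer neighbour `(-1,3)` is not visited, so `E((-2,3),(-2,2))`: template 8 (`u2, (-2,2), (-2,3)` contiguous).
  (b2) `u2` not visited. `u3` visited => `E(u3,u4)`; if `E(u4,u5)` template 5, otherwise `u5` is not visited (`u5` visited
     => `E(u5,u4)`), template 2. `u3` not visited: `u4` visited => `E(u4,u5)`: template 3; `u4` not visited: then `u5` is
     not visited (`E(u5,u4)`), and nothing of the face is visited, contradiction.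
In each case the new vertices of the template (elements of `t.2` not in `t.1`) are not visited.
For three or four consecutive vertices: `E(x,y)`, `E(y,z)`, `x <> z` give `Q = p ++ [x,y,z] ++ r` or the reversed one.
It may be easier to work with indices: `idx z` the position in `Q`, `E(x,y)` iff the positions differ by one; a list
equality `Q = p ++ sh c q ++ r` follows from `Q[i+j]? = some (c + q[j])` for `j < q.length`.
-/

namespace Pool.Agent.RAT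

open Pool.Agent.Hhelper14.SAW

/-! ### positions -/

/-- the position of a vertex in the list, `-1` if it is not visited -/
private def LocA_pos (Q : List (ℤ × ℤ)) (x : ℤ × ℤ) : ℤ := if x ∈ Q then (Q.idxOf x : ℤ) else -1

private lemma LocA_mem {Q : List (ℤ × ℤ)} {x : ℤ × ℤ} : 0 ≤ LocA_pos Q x ↔ x ∈ Q := by
  unfold LocA_pos
  split_ifs with h
  · simp [h]
  · simp [h]

private lemma LocA_not {Q : List (ℤ × ℤ)} {x : ℤ × ℤ} : LocA_pos Q x < 0 ↔ x ∉ Q := by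
  rw [← LocA_mem]
  omega

private lemma LocA_get {Q : List (ℤ × ℤ)} {x : ℤ × ℤ} {n : ℕ} (h : LocA_pos Q x = n) :
    Q[n]? = some x := by
  have h1 : x ∈ Q := by
    rw [← LocA_mem]
    omega
  unfold LocA_pos at h
  rw [if_pos h1] at h
  have h2 : Q.idxOf x = n := by exact_mod_cast h
  rw [← h2]
  exact List.getElem?_idxOf h1

private lemma LocA_of_get {Q : List (ℤ × ℤ)} (hnd : Q.Nodup) {x : ℤ × ℤ} {n : ℕ}
    (h : Q[n]? = some x) : LocA_pos Q x = n := by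
  have h1 : x ∈ Q := List.mem_of_getElem? h
  unfold LocA_pos
  rw [if_pos h1]
  obtain ⟨h2, h3⟩ := List.getElem?_eq_some_iff.1 h
  rw [← h3, hnd.idxOf_getElem]

private lemma LocA_inj {Q : List (ℤ × ℤ)} {x y : ℤ × ℤ} (h : 0 ≤ LocA_pos Q x)
    (h' : LocA_pos Q x = LocA_pos Q y) : x = y := by
  obtain ⟨n, hn⟩ := Int.eq_ofNat_of_zero_le h
  have h1 := LocA_get hn
  have h2 := LocA_get (h'.symm.trans hn)
  rw [h1] at h2
  exact Option.some.inj h2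

/-- a visited vertex which is not an end has two neighbours in the list -/
private lemma LocA_nb {Q : List (ℤ × ℤ)} (hch : HChain Q) (hnd : Q.Nodup) {x : ℤ × ℤ}
    (hh : Q.head? ≠ some x) (hl : Q.getLast? ≠ some x) (h : 0 ≤ LocA_pos Q x) :
    1 ≤ LocA_pos Q x ∧ (∃ a, Adj a x ∧ LocA_pos Q a = LocA_pos Q x - 1) ∧
      ∃ b, Adj x b ∧ LocA_pos Q b = LocA_pos Q x + 1 := by
  obtain ⟨n, hn⟩ := Int.eq_ofNat_of_zero_le h
  have h1 := LocA_get hn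
  obtain ⟨h2, h3⟩ := List.getElem?_eq_some_iff.1 h1
  have hn0 : n ≠ 0 := by
    rintro rfl
    apply hh
    rw [List.head?_eq_getElem?]
    exact h1
  have hn1 : n + 1 < Q.length := by
    by_contra hcon
    apply hl
    rw [List.getLast?_eq_getElem?]
    have h4 : Q.length - 1 = n := by omega
    rw [h4]
    exact h1
  have hc := List.isChain_iff_getElem.1 hch
  refine ⟨by omega, ?_, ?_⟩
  · obtain ⟨m, rfl⟩ := Nat.exists_eq_succ_of_ne_zero hn0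
    have h5 := hc m (by omega)
    refine ⟨Q[m], ?_, ?_⟩
    · have h6 : Q[m + 1] = x := h3
      rw [h6] at h5
      exact h5
    · rw [hn, LocA_of_get hnd (n := m) (List.getElem?_eq_getElem (by omega))]
      push_cast
      omega
  · have h5 := hc n hn1
    refine ⟨Q[n + 1], ?_, ?_⟩
    · rw [h3] at h5
      exact h5
    · rw [hn, LocA_of_get hnd (n := n + 1) (List.getElem?_eq_getElem hn1)]
      push_cast
      rfl

private lemma LocA_infix {Q : List (ℤ × ℤ)} : ∀ (q : List (ℤ × ℤ)) (n : ℕ),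
    (∀ j (hj : j < q.length), Q[n + j]? = some q[j]) →
      Q = Q.take n ++ q ++ Q.drop (n + q.length) := by
  intro q
  induction q with
  | nil =>
    intro n _
    simp
  | cons x q ih =>
    intro n h
    have h0 : Q[n]? = some x := h 0 (by simp)
    have h1 := ih (n + 1) (fun j hj => by
      have h2 := h (j + 1) (by simpa using hj)
      rw [List.getElem_cons_succ] at h2
      rw [← h2]
      congr 1
      omega)
    have h3 : Q.take (n + 1) = Q.take n ++ [x] := by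
      rw [List.take_add_one, h0]
      rfl
    rw [h3] at h1
    have h4 : n + 1 + q.length = n + (x :: q).length := by
      rw [List.length_cons]
      omega
    rw [h4] at h1
    rw [List.append_assoc, List.cons_append]
    rw [List.append_assoc, List.append_assoc, List.singleton_append] at h1
    exact h1

private lemma LocA_inf2 {Q : List (ℤ × ℤ)} {x y : ℤ × ℤ} (h : 0 ≤ LocA_pos Q x)
    (h1 : LocA_pos Q y = LocA_pos Q x + 1) : ∃ p r, Q = p ++ [x, y] ++ r := by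
  obtain ⟨n, hn⟩ := Int.eq_ofNat_of_zero_le h
  refine ⟨_, _, LocA_infix [x, y] n fun j hj => ?_⟩
  simp only [List.length_cons, List.length_nil] at hj
  interval_cases j
  · exact LocA_get hn
  · exact LocA_get (by show LocA_pos Q y = _; rw [h1, hn]; push_cast; rfl)

private lemma LocA_inf3 {Q : List (ℤ × ℤ)} {x y z : ℤ × ℤ} (h : 0 ≤ LocA_pos Q x)
    (h1 : LocA_pos Q y = LocA_pos Q x + 1) (h2 : LocA_pos Q z = LocA_pos Q x + 2) :
    ∃ p r, Q = p ++ [x, y, z] ++ r := by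
  obtain ⟨n, hn⟩ := Int.eq_ofNat_of_zero_le h
  refine ⟨_, _, LocA_infix [x, y, z] n fun j hj => ?_⟩
  simp only [List.length_cons, List.length_nil] at hj
  interval_cases j
  · exact LocA_get hn
  · exact LocA_get (by show LocA_pos Q y = _; rw [h1, hn]; push_cast; rfl)
  · exact LocA_get (by show LocA_pos Q z = _; rw [h2, hn]; push_cast; rfl)

private lemma LocA_inf4 {Q : List (ℤ × ℤ)} {x y z w : ℤ × ℤ} (h : 0 ≤ LocA_pos Q x)
    (h1 : LocA_pos Q y = LocA_pos Q x + 1) (h2 : LocA_pos Q z = LocA_pos Q x + 2)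
    (h3 : LocA_pos Q w = LocA_pos Q x + 3) :
    ∃ p r, Q = p ++ [x, y, z, w] ++ r := by
  obtain ⟨n, hn⟩ := Int.eq_ofNat_of_zero_le h
  refine ⟨_, _, LocA_infix [x, y, z, w] n fun j hj => ?_⟩
  simp only [List.length_cons, List.length_nil] at hj
  interval_cases j
  · exact LocA_get hn
  · exact LocA_get (by show LocA_pos Q y = _; rw [h1, hn]; push_cast; rfl)
  · exact LocA_get (by show LocA_pos Q z = _; rw [h2, hn]; push_cast; rfl)
  · exact LocA_get (by show LocA_pos Q w = _; rw [h3, hn]; push_cast; rfl)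

private lemma LocA_ori2 {Q : List (ℤ × ℤ)} {c s t : ℤ × ℤ} (h : 0 ≤ LocA_pos Q (c + s))
    (h' : 0 ≤ LocA_pos Q (c + t))
    (h1 : LocA_pos Q (c + t) = LocA_pos Q (c + s) + 1 ∨ LocA_pos Q (c + t) = LocA_pos Q (c + s) - 1) :
    ∃ o : Bool, ∃ p r, Q = p ++ ori o (sh c [s, t]) ++ r := by
  rcases h1 with h1 | h1
  · exact ⟨false, LocA_inf2 h h1⟩
  · exact ⟨true, LocA_inf2 (x := c + t) (y := c + s) h' (by omega)⟩

private lemma LocA_ori3 {Q : List (ℤ × ℤ)} {c s t u : ℤ × ℤ} (h : 0 ≤ LocA_pos Q (c + s))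
    (h' : 0 ≤ LocA_pos Q (c + u))
    (h1 : (LocA_pos Q (c + t) = LocA_pos Q (c + s) + 1 ∧ LocA_pos Q (c + u) = LocA_pos Q (c + s) + 2) ∨
      (LocA_pos Q (c + t) = LocA_pos Q (c + s) - 1 ∧ LocA_pos Q (c + u) = LocA_pos Q (c + s) - 2)) :
    ∃ o : Bool, ∃ p r, Q = p ++ ori o (sh c [s, t, u]) ++ r := by
  rcases h1 with ⟨h1, h2⟩ | ⟨h1, h2⟩
  · exact ⟨false, LocA_inf3 h h1 h2⟩
  · exact ⟨true, LocA_inf3 (x := c + u) (y := c + t) (z := c + s) h' (by omega) (by omega)⟩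

private lemma LocA_ori4 {Q : List (ℤ × ℤ)} {c s t u v : ℤ × ℤ} (h : 0 ≤ LocA_pos Q (c + s))
    (h' : 0 ≤ LocA_pos Q (c + v))
    (h1 : (LocA_pos Q (c + t) = LocA_pos Q (c + s) + 1 ∧ LocA_pos Q (c + u) = LocA_pos Q (c + s) + 2 ∧
      LocA_pos Q (c + v) = LocA_pos Q (c + s) + 3) ∨
      (LocA_pos Q (c + t) = LocA_pos Q (c + s) - 1 ∧ LocA_pos Q (c + u) = LocA_pos Q (c + s) - 2 ∧
      LocA_pos Q (c + v) = LocA_pos Q (c + s) - 3)) :
    ∃ o : Bool, ∃ p r, Q = p ++ ori o (sh c [s, t, u, v]) ++ r := by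
  rcases h1 with ⟨h1, h2, h3⟩ | ⟨h1, h2, h3⟩
  · exact ⟨false, LocA_inf4 h h1 h2 h3⟩
  · exact ⟨true, LocA_inf4 (x := c + v) (y := c + u) (z := c + t) (w := c + s) h' (by omega)
      (by omega) (by omega)⟩

/-! ### neighbours -/

private lemma LocA_fc {c : ℤ × ℤ} (hc : Ctr c) (o d : ℤ × ℤ) (h1 : d.1 % 3 = 0) (h2 : d.2 % 3 = 0)
    (h3 : U (o - d)) : fc (c + o) = c + d := by
  refine (fc_of ?_ ?_).2
  · simp only [Ctr] at hc
    simp only [Ctr, Prod.fst_add, Prod.snd_add]; omega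
  · rwa [add_sub_add_left_eq_sub]

private lemma LocA_adj1 {c o b : ℤ × ℤ} (hc : Ctr c) (ho : (o.1 - o.2) % 3 = 1) (h : U (c + o - b))
    (hb : hon b) : b = c + (o.1 + 1, o.2) ∨ b = c + (o.1 - 1, o.2 + 1) ∨ b = c + (o.1, o.2 - 1) := by
  obtain ⟨b1, b2⟩ := b
  obtain ⟨c1, c2⟩ := c
  obtain ⟨o1, o2⟩ := o
  simp only [Ctr] at hc
  simp only at ho
  simp only [hon] at hb
  simp only [U, Prod.fst_sub, Prod.snd_sub, Prod.fst_add, Prod.snd_add] at h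
  simp only [Prod.mk_add_mk, Prod.mk.injEq]
  omega

private lemma LocA_adj2 {c o b : ℤ × ℤ} (hc : Ctr c) (ho : (o.1 - o.2) % 3 = 2) (h : U (c + o - b))
    (hb : hon b) : b = c + (o.1, o.2 + 1) ∨ b = c + (o.1 - 1, o.2) ∨ b = c + (o.1 + 1, o.2 - 1) := by
  obtain ⟨b1, b2⟩ := b
  obtain ⟨c1, c2⟩ := c
  obtain ⟨o1, o2⟩ := o
  simp only [Ctr] at hc
  simp only at ho
  simp only [hon] at hb
  simp only [U, Prod.fst_sub, Prod.snd_sub, Prod.fst_add, Prod.snd_add] at h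
  simp only [Prod.mk_add_mk, Prod.mk.injEq]
  omega

private lemma LocA_Nb {Q : List (ℤ × ℤ)} {c o n1 n2 n3 : ℤ × ℤ} (hch : HChain Q) (hnd : Q.Nodup)
    (hh : Q.head? ≠ some (c + o)) (hl : Q.getLast? ≠ some (c + o))
    (hn : ∀ b, U (c + o - b) → hon b → b = c + n1 ∨ b = c + n2 ∨ b = c + n3)
    (h : 0 ≤ LocA_pos Q (c + o)) : 1 ≤ LocA_pos Q (c + o) ∧
      (LocA_pos Q (c + n1) = LocA_pos Q (c + o) - 1 ∨ LocA_pos Q (c + n2) = LocA_pos Q (c + o) - 1 ∨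
        LocA_pos Q (c + n3) = LocA_pos Q (c + o) - 1) ∧
      (LocA_pos Q (c + n1) = LocA_pos Q (c + o) + 1 ∨ LocA_pos Q (c + n2) = LocA_pos Q (c + o) + 1 ∨
        LocA_pos Q (c + n3) = LocA_pos Q (c + o) + 1) := by
  obtain ⟨h1, ⟨a, ha, ha'⟩, ⟨b, hb, hb'⟩⟩ := LocA_nb hch hnd hh hl h
  refine ⟨h1, ?_, ?_⟩
  · rcases hn a ha.symm.2.2 ha.1 with rfl | rfl | rfl
    · exact Or.inl ha'
    · exact Or.inr (Or.inl ha')
    · exact Or.inr (Or.inr ha')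
  · rcases hn b hb.2.2 hb.2.1 with rfl | rfl | rfl
    · exact Or.inl hb'
    · exact Or.inr (Or.inl hb')
    · exact Or.inr (Or.inr hb')

private lemma LocA_N1 {Q : List (ℤ × ℤ)} {c : ℤ × ℤ} (hc : Ctr c) (hch : HChain Q) (hnd : Q.Nodup)
    (o n1 n2 n3 : ℤ × ℤ) (ho : (o.1 - o.2) % 3 = 1) (e1 : n1 = (o.1 + 1, o.2))
    (e2 : n2 = (o.1 - 1, o.2 + 1)) (e3 : n3 = (o.1, o.2 - 1))
    (hh : Q.head? ≠ some (c + o)) (hl : Q.getLast? ≠ some (c + o))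
    (h : 0 ≤ LocA_pos Q (c + o)) : 1 ≤ LocA_pos Q (c + o) ∧
      (LocA_pos Q (c + n1) = LocA_pos Q (c + o) - 1 ∨ LocA_pos Q (c + n2) = LocA_pos Q (c + o) - 1 ∨
        LocA_pos Q (c + n3) = LocA_pos Q (c + o) - 1) ∧
      (LocA_pos Q (c + n1) = LocA_pos Q (c + o) + 1 ∨ LocA_pos Q (c + n2) = LocA_pos Q (c + o) + 1 ∨
        LocA_pos Q (c + n3) = LocA_pos Q (c + o) + 1) := by
  subst e1 e2 e3
  exact LocA_Nb hch hnd hh hl (fun b h1 h2 => LocA_adj1 hc ho h1 h2) h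

private lemma LocA_N2 {Q : List (ℤ × ℤ)} {c : ℤ × ℤ} (hc : Ctr c) (hch : HChain Q) (hnd : Q.Nodup)
    (o n1 n2 n3 : ℤ × ℤ) (ho : (o.1 - o.2) % 3 = 2) (e1 : n1 = (o.1, o.2 + 1))
    (e2 : n2 = (o.1 - 1, o.2)) (e3 : n3 = (o.1 + 1, o.2 - 1))
    (hh : Q.head? ≠ some (c + o)) (hl : Q.getLast? ≠ some (c + o))
    (h : 0 ≤ LocA_pos Q (c + o)) : 1 ≤ LocA_pos Q (c + o) ∧
      (LocA_pos Q (c + n1) = LocA_pos Q (c + o) - 1 ∨ LocA_pos Q (c + n2) = LocA_pos Q (c + o) - 1 ∨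
        LocA_pos Q (c + n3) = LocA_pos Q (c + o) - 1) ∧
      (LocA_pos Q (c + n1) = LocA_pos Q (c + o) + 1 ∨ LocA_pos Q (c + n2) = LocA_pos Q (c + o) + 1 ∨
        LocA_pos Q (c + n3) = LocA_pos Q (c + o) + 1) := by
  subst e1 e2 e3
  exact LocA_Nb hch hnd hh hl (fun b h1 h2 => LocA_adj2 hc ho h1 h2) h

/-! ### the case analysis for the positions -/

private lemma LocA_two1 {p n1 n2 n3 : ℤ} (h1 : n1 < 0) (H : 0 ≤ p → 1 ≤ p ∧
    (n1 = p - 1 ∨ n2 = p - 1 ∨ n3 = p - 1) ∧ (n1 = p + 1 ∨ n2 = p + 1 ∨ n3 = p + 1)) (h : 0 ≤ p) :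
    1 ≤ p ∧ ((n2 = p - 1 ∧ n3 = p + 1) ∨ (n2 = p + 1 ∧ n3 = p - 1)) := by
  obtain ⟨h2, h3, h4⟩ := H h
  clear H
  omega

/-- the vertex `u5` is next to `u4`, if `u0` is not visited -/
private lemma LocA_p5 {p0 p4 p5 f5 : ℤ} (h0 : p0 < 0) (N5 : 0 ≤ p5 → 1 ≤ p5 ∧
    (p0 = p5 - 1 ∨ p4 = p5 - 1 ∨ f5 = p5 - 1) ∧ (p0 = p5 + 1 ∨ p4 = p5 + 1 ∨ f5 = p5 + 1))
    (h : 0 ≤ p5) : 1 ≤ p5 ∧ (p5 = p4 + 1 ∨ p5 = p4 - 1) := by
  obtain ⟨h1, h2⟩ := LocA_two1 h0 N5 h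
  clear N5
  refine ⟨h1, ?_⟩
  rcases h2 with ⟨h2, _⟩ | ⟨h2, _⟩
  · left; omega
  · right; omega

private lemma LocA_core {p0 p1 p2 p3 p4 p5 a b f0 f1 f3 f4 f5 y g : ℤ}
    (hf0 : f0 < 0) (hf1 : f1 < 0) (hg : g < 0)
    (N0 : 0 ≤ p0 → 1 ≤ p0 ∧ (f0 = p0 - 1 ∨ p1 = p0 - 1 ∨ p5 = p0 - 1) ∧
      (f0 = p0 + 1 ∨ p1 = p0 + 1 ∨ p5 = p0 + 1))
    (N1 : 0 ≤ p1 → 1 ≤ p1 ∧ (f1 = p1 - 1 ∨ p2 = p1 - 1 ∨ p0 = p1 - 1) ∧
      (f1 = p1 + 1 ∨ p2 = p1 + 1 ∨ p0 = p1 + 1))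
    (N2 : 0 ≤ p2 → 1 ≤ p2 ∧ (p1 = p2 - 1 ∨ a = p2 - 1 ∨ p3 = p2 - 1) ∧
      (p1 = p2 + 1 ∨ a = p2 + 1 ∨ p3 = p2 + 1))
    (N3 : 0 ≤ p3 → 1 ≤ p3 ∧ (p2 = p3 - 1 ∨ f3 = p3 - 1 ∨ p4 = p3 - 1) ∧
      (p2 = p3 + 1 ∨ f3 = p3 + 1 ∨ p4 = p3 + 1))
    (N4 : 0 ≤ p4 → 1 ≤ p4 ∧ (p5 = p4 - 1 ∨ p3 = p4 - 1 ∨ f4 = p4 - 1) ∧
      (p5 = p4 + 1 ∨ p3 = p4 + 1 ∨ f4 = p4 + 1))
    (N5 : 0 ≤ p5 → 1 ≤ p5 ∧ (p0 = p5 - 1 ∨ p4 = p5 - 1 ∨ f5 = p5 - 1) ∧
      (p0 = p5 + 1 ∨ p4 = p5 + 1 ∨ f5 = p5 + 1))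
    (Nb : 0 ≤ b → 1 ≤ b ∧ (g = b - 1 ∨ y = b - 1 ∨ a = b - 1) ∧ (g = b + 1 ∨ y = b + 1 ∨ a = b + 1))
    (i24 : 0 ≤ p2 → p2 ≠ p4) (i35 : 0 ≤ p3 → p3 ≠ p5) (i2b : 0 ≤ p2 → p2 ≠ b)
    (hv : 0 ≤ p0 ∨ 0 ≤ p1 ∨ 0 ≤ p2 ∨ 0 ≤ p3 ∨ 0 ≤ p4 ∨ 0 ≤ p5) :
    (0 ≤ p0 ∧ 0 ≤ p1 ∧ (p1 = p0 + 1 ∨ p1 = p0 - 1) ∧ 0 ≤ p2 ∧ 0 ≤ p5) ∨
    (p0 < 0 ∧ p1 < 0 ∧
      ((0 ≤ p2 ∧ 0 ≤ p3 ∧ (p3 = p2 + 1 ∨ p3 = p2 - 1) ∧ p4 < 0 ∧ p5 < 0) ∨
       (0 ≤ p3 ∧ 0 ≤ p4 ∧ (p4 = p3 + 1 ∨ p4 = p3 - 1) ∧ p2 < 0 ∧ p5 < 0) ∨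
       (0 ≤ p4 ∧ 0 ≤ p5 ∧ (p5 = p4 + 1 ∨ p5 = p4 - 1) ∧ p2 < 0 ∧ p3 < 0) ∨
       (0 ≤ p2 ∧ 0 ≤ p4 ∧ ((p3 = p2 + 1 ∧ p4 = p2 + 2) ∨ (p3 = p2 - 1 ∧ p4 = p2 - 2)) ∧ p5 < 0) ∨
       (0 ≤ p3 ∧ 0 ≤ p5 ∧ ((p4 = p3 + 1 ∧ p5 = p3 + 2) ∨ (p4 = p3 - 1 ∧ p5 = p3 - 2)) ∧ p2 < 0) ∨
       (0 ≤ p2 ∧ 0 ≤ p5 ∧ ((p3 = p2 + 1 ∧ p4 = p2 + 2 ∧ p5 = p2 + 3) ∨
         (p3 = p2 - 1 ∧ p4 = p2 - 2 ∧ p5 = p2 - 3))) ∨
       (0 ≤ p2 ∧ 0 ≤ a ∧ (a = p2 + 1 ∨ a = p2 - 1) ∧ b < 0 ∧ 0 ≤ p3) ∨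
       (0 ≤ p2 ∧ 0 ≤ b ∧ ((a = p2 + 1 ∧ b = p2 + 2) ∨ (a = p2 - 1 ∧ b = p2 - 2)) ∧ 0 ≤ p3))) := by
  by_cases h0 : 0 ≤ p0
  · left
    obtain ⟨k0, h15⟩ := LocA_two1 hf0 N0 h0
    have h1 : 0 ≤ p1 := by
      clear N0 N1 N2 N3 N4 N5 Nb i24 i35 i2b hv
      rcases h15 with ⟨h, _⟩ | ⟨h, _⟩ <;> omega
    obtain ⟨k1, h20⟩ := LocA_two1 hf1 N1 h1
    clear N0 N1 N2 N3 N4 N5 Nb i24 i35 i2b hv
    rcases h15 with ⟨e1, e5⟩ | ⟨e1, e5⟩ <;> rcases h20 with ⟨e2, e0⟩ | ⟨e2, e0⟩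
    · omega
    · exact ⟨h0, h1, Or.inr (by omega), by omega, by omega⟩
    · exact ⟨h0, h1, Or.inl (by omega), by omega, by omega⟩
    · omega
  by_cases h1 : 0 ≤ p1
  · exfalso
    obtain ⟨k1, h20⟩ := LocA_two1 hf1 N1 h1
    clear N0 N1 N2 N3 N4 N5 Nb i24 i35 i2b hv
    rcases h20 with ⟨e2, e0⟩ | ⟨e2, e0⟩ <;> omega
  have h0' : p0 < 0 := not_le.1 h0
  have h1' : p1 < 0 := not_le.1 h1
  right
  refine ⟨h0', h1', ?_⟩
  by_cases h2 : 0 ≤ p2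
  · obtain ⟨k2, ha3⟩ := LocA_two1 h1' N2 h2
    have j24 := i24 h2
    have j2b := i2b h2
    have h3 : 0 ≤ p3 := by
      clear N0 N1 N2 N3 N4 N5 Nb i24 i35 i2b hv
      rcases ha3 with ⟨_, h⟩ | ⟨_, h⟩ <;> omega
    have ha : 0 ≤ a := by
      clear N0 N1 N2 N3 N4 N5 Nb i24 i35 i2b hv
      rcases ha3 with ⟨h, _⟩ | ⟨h, _⟩ <;> omega
    have j35 := i35 h3
    by_cases h4 : 0 ≤ p4
    · by_cases h34 : p4 = p3 + 1 ∨ p4 = p3 - 1
      · by_cases h5 : 0 ≤ p5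
        · obtain ⟨k5, h45⟩ := LocA_p5 h0' N5 h5
          right; right; right; right; right; left
          clear N0 N1 N2 N3 N4 N5 Nb i24 i35 i2b hv
          refine ⟨h2, h5, ?_⟩
          rcases ha3 with ⟨_, e3⟩ | ⟨_, e3⟩ <;> rcases h34 with e4 | e4 <;>
            rcases h45 with e5 | e5
          · exact Or.inl ⟨by omega, by omega, by omega⟩
          · omega
          · omega
          · omega
          · omega
          · omega
          · omega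
          · exact Or.inr ⟨by omega, by omega, by omega⟩
        · right; right; right; left
          clear N0 N1 N2 N3 N4 N5 Nb i24 i35 i2b hv
          refine ⟨h2, h4, ?_, not_le.1 h5⟩
          rcases ha3 with ⟨_, e3⟩ | ⟨_, e3⟩ <;> rcases h34 with e4 | e4
          · exact Or.inl ⟨by omega, by omega⟩
          · omega
          · omega
          · exact Or.inr ⟨by omega, by omega⟩
      · by_cases hb : 0 ≤ b
        · obtain ⟨kb, hya⟩ := LocA_two1 hg Nb hb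
          right; right; right; right; right; right; right
          clear N0 N1 N2 N3 N4 N5 Nb i24 i35 i2b hv h34
          refine ⟨h2, hb, ?_, h3⟩
          rcases ha3 with ⟨e3, _⟩ | ⟨e3, _⟩ <;> rcases hya with ⟨_, e4⟩ | ⟨_, e4⟩
          · exact Or.inr ⟨by omega, by omega⟩
          · omega
          · omega
          · exact Or.inl ⟨by omega, by omega⟩
        · right; right; right; right; right; right; left
          clear N0 N1 N2 N3 N4 N5 Nb i24 i35 i2b hv h34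
          refine ⟨h2, ha, ?_, not_le.1 hb, h3⟩
          rcases ha3 with ⟨e3, _⟩ | ⟨e3, _⟩
          · exact Or.inr e3
          · exact Or.inl e3
    · have h5 : p5 < 0 := by
        by_contra hcon
        obtain ⟨k5, h45⟩ := LocA_p5 h0' N5 (not_lt.1 hcon)
        clear N0 N1 N2 N3 N4 N5 Nb i24 i35 i2b hv ha3
        rcases h45 with e | e <;> omega
      left
      clear N0 N1 N2 N3 N4 N5 Nb i24 i35 i2b hv
      refine ⟨h2, h3, ?_, not_le.1 h4, h5⟩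
      rcases ha3 with ⟨_, e3⟩ | ⟨_, e3⟩
      · exact Or.inl e3
      · exact Or.inr e3
  · have h2' : p2 < 0 := not_le.1 h2
    by_cases h3 : 0 ≤ p3
    · obtain ⟨k3, hf4⟩ := LocA_two1 h2' N3 h3
      have j35 := i35 h3
      have h4 : 0 ≤ p4 := by
        clear N0 N1 N2 N3 N4 N5 Nb i24 i35 i2b hv
        rcases hf4 with ⟨_, h⟩ | ⟨_, h⟩ <;> omega
      by_cases h5 : 0 ≤ p5
      · obtain ⟨k5, h45⟩ := LocA_p5 h0' N5 h5
        right; right; right; right; left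
        clear N0 N1 N2 N3 N4 N5 Nb i24 i35 i2b hv
        refine ⟨h3, h5, ?_, h2'⟩
        rcases hf4 with ⟨_, e3⟩ | ⟨_, e3⟩ <;> rcases h45 with e4 | e4
        · exact Or.inl ⟨by omega, by omega⟩
        · omega
        · omega
        · exact Or.inr ⟨by omega, by omega⟩
      · right; left
        clear N0 N1 N2 N3 N4 N5 Nb i24 i35 i2b hv
        refine ⟨h3, h4, ?_, h2', not_le.1 h5⟩
        rcases hf4 with ⟨_, e3⟩ | ⟨_, e3⟩
        · exact Or.inl e3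
        · exact Or.inr e3
    · have h3' : p3 < 0 := not_le.1 h3
      by_cases h4 : 0 ≤ p4
      · have n4 : 1 ≤ p4 ∧ ((p5 = p4 - 1 ∧ f4 = p4 + 1) ∨ (p5 = p4 + 1 ∧ f4 = p4 - 1)) := by
          obtain ⟨m1, m2, m3⟩ := N4 h4
          clear N0 N1 N2 N3 N4 N5 Nb i24 i35 i2b hv
          omega
        obtain ⟨k4, h5⟩ := n4
        right; right; left
        clear N0 N1 N2 N3 N4 N5 Nb i24 i35 i2b hv
        rcases h5 with ⟨e, _⟩ | ⟨e, _⟩
        · exact ⟨h4, by omega, Or.inr e, h2', h3'⟩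
        · exact ⟨h4, by omega, Or.inl e, h2', h3'⟩
      · exfalso
        have h5 : 0 ≤ p5 := by
          clear N0 N1 N2 N3 N4 N5 Nb i24 i35 i2b
          omega
        obtain ⟨k5, h45⟩ := LocA_p5 h0' N5 h5
        clear N0 N1 N2 N3 N4 N5 Nb i24 i35 i2b hv
        rcases h45 with e | e <;> omega

theorem loc_find {Q : List (ℤ × ℤ)} {c : ℤ × ℤ} (hch : HChain Q) (hnd : Q.Nodup) (hc : Ctr c)
    (hv : ∃ z ∈ Q, fc z = c) (h0 : ∀ z ∈ Q, fc z ≠ c + (3, 0)) (h1 : ∀ z ∈ Q, fc z ≠ c + (0, 3))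
    (hh : ∀ z, Q.head? = some z → fc z ≠ c ∧ fc z ≠ c + (-3, 3))
    (hl : ∀ z, Q.getLast? = some z → fc z ≠ c ∧ fc z ≠ c + (-3, 3)) :
    ((c + (-1, 1) ∈ Q ∧ c + (1, -1) ∈ Q) ∨ c + (-1, 0) ∈ Q ∨ c + (0, -1) ∈ Q) ∧
      ∃ t ∈ Tm, (∃ o : Bool, ∃ p r, Q = p ++ ori o (sh c t.1) ++ r) ∧ ∀ o ∈ t.2, o ∉ t.1 → c + o ∉ Q := by
  -- the faces of the vertices
  have face : ∀ o : ℤ × ℤ, U o → fc (c + o) = c := fun o ho => by
    have h := LocA_fc hc o (0, 0) (by decide) (by decide) (by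
      have : o - (0, 0) = o := by
        ext <;> simp
      rwa [this])
    rw [h]
    ext <;> simp
  have face3 : ∀ o : ℤ × ℤ, U (o - (-3, 3)) → fc (c + o) = c + (-3, 3) :=
    fun o ho => LocA_fc hc o (-3, 3) (by decide) (by decide) ho
  have hh' : ∀ o : ℤ × ℤ, U o ∨ U (o - (-3, 3)) → Q.head? ≠ some (c + o) := by
    intro o ho h
    rcases ho with ho | ho
    · exact (hh _ h).1 (face o ho)
    · exact (hh _ h).2 (face3 o ho)
  have hl' : ∀ o : ℤ × ℤ, U o ∨ U (o - (-3, 3)) → Q.getLast? ≠ some (c + o) := by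
    intro o ho h
    rcases ho with ho | ho
    · exact (hl _ h).1 (face o ho)
    · exact (hl _ h).2 (face3 o ho)
  -- the vertices which are not visited
  have v3 : ∀ o : ℤ × ℤ, U (o - (3, 0)) → LocA_pos Q (c + o) < 0 := fun o ho =>
    LocA_not.2 fun h => h0 _ h (LocA_fc hc o (3, 0) (by decide) (by decide) ho)
  have v03 : ∀ o : ℤ × ℤ, U (o - (0, 3)) → LocA_pos Q (c + o) < 0 := fun o ho =>
    LocA_not.2 fun h => h1 _ h (LocA_fc hc o (0, 3) (by decide) (by decide) ho)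
  have w20 : LocA_pos Q (c + (2, 0)) < 0 := v3 _ (by decide)
  have w21 : LocA_pos Q (c + (2, 1)) < 0 := v3 _ (by decide)
  have w12 : LocA_pos Q (c + (1, 2)) < 0 := v03 _ (by decide)
  have w02 : LocA_pos Q (c + (0, 2)) < 0 := v03 _ (by decide)
  have w13 : LocA_pos Q (c + (-1, 3)) < 0 := v03 _ (by decide)
  -- one of the vertices of the face is visited
  have hvis : 0 ≤ LocA_pos Q (c + (1, 0)) ∨ 0 ≤ LocA_pos Q (c + (0, 1)) ∨
      0 ≤ LocA_pos Q (c + (-1, 1)) ∨ 0 ≤ LocA_pos Q (c + (-1, 0)) ∨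
      0 ≤ LocA_pos Q (c + (0, -1)) ∨ 0 ≤ LocA_pos Q (c + (1, -1)) := by
    obtain ⟨z, hz, hfz⟩ := hv
    have hzn := LocA_nb hch hnd (x := z) (fun h => (hh _ h).1 hfz) (fun h => (hl _ h).1 hfz)
      (LocA_mem.2 hz)
    obtain ⟨-, ⟨x, hx, -⟩, -⟩ := hzn
    have hU := (fc_spec hx.2.1).2
    rw [hfz] at hU
    have hzc : z = c + (z - c) := by rw [add_sub_cancel]
    rw [← LocA_mem, hzc] at hz
    generalize z - c = o at hU hz
    obtain ⟨o1, o2⟩ := o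
    simp only [U] at hU
    rcases hU with ⟨rfl, rfl⟩ | ⟨rfl, rfl⟩ | ⟨rfl, rfl⟩ | ⟨rfl, rfl⟩ | ⟨rfl, rfl⟩ | ⟨rfl, rfl⟩
    · exact Or.inl hz
    · exact Or.inr (Or.inl hz)
    · exact Or.inr (Or.inr (Or.inl hz))
    · exact Or.inr (Or.inr (Or.inr (Or.inl hz)))
    · exact Or.inr (Or.inr (Or.inr (Or.inr (Or.inl hz))))
    · exact Or.inr (Or.inr (Or.inr (Or.inr (Or.inr hz))))
  -- different vertices have different positions
  have inj : ∀ o o' : ℤ × ℤ, o ≠ o' → 0 ≤ LocA_pos Q (c + o) →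
      LocA_pos Q (c + o) ≠ LocA_pos Q (c + o') := by
    intro o o' hne h h'
    exact hne (add_left_cancel (LocA_inj h h'))
  have key := LocA_core (f3 := LocA_pos Q (c + (-2, 0))) (f4 := LocA_pos Q (c + (0, -2)))
    (f5 := LocA_pos Q (c + (2, -2))) (y := LocA_pos Q (c + (-3, 4))) w20 w02 w13
    (LocA_N1 hc hch hnd (1, 0) (2, 0) (0, 1) (1, -1) (by decide) (by decide) (by decide) (by decide)
      (hh' _ (Or.inl (by decide))) (hl' _ (Or.inl (by decide))))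
    (LocA_N2 hc hch hnd (0, 1) (0, 2) (-1, 1) (1, 0) (by decide) (by decide) (by decide) (by decide)
      (hh' _ (Or.inl (by decide))) (hl' _ (Or.inl (by decide))))
    (LocA_N1 hc hch hnd (-1, 1) (0, 1) (-2, 2) (-1, 0) (by decide) (by decide) (by decide)
      (by decide) (hh' _ (Or.inl (by decide))) (hl' _ (Or.inl (by decide))))
    (LocA_N2 hc hch hnd (-1, 0) (-1, 1) (-2, 0) (0, -1) (by decide) (by decide) (by decide)
      (by decide) (hh' _ (Or.inl (by decide))) (hl' _ (Or.inl (by decide))))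
    (LocA_N1 hc hch hnd (0, -1) (1, -1) (-1, 0) (0, -2) (by decide) (by decide) (by decide)
      (by decide) (hh' _ (Or.inl (by decide))) (hl' _ (Or.inl (by decide))))
    (LocA_N2 hc hch hnd (1, -1) (1, 0) (0, -1) (2, -2) (by decide) (by decide) (by decide)
      (by decide) (hh' _ (Or.inl (by decide))) (hl' _ (Or.inl (by decide))))
    (LocA_N1 hc hch hnd (-2, 3) (-1, 3) (-3, 4) (-2, 2) (by decide) (by decide) (by decide)
      (by decide) (hh' _ (Or.inr (by decide))) (hl' _ (Or.inr (by decide))))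
    (inj _ _ (by decide)) (inj _ _ (by decide)) (inj _ _ (by decide)) hvis
  -- the new vertices
  have new : ∀ q q' : List (ℤ × ℤ), (∀ o ∈ q', o ∈ q ∨ LocA_pos Q (c + o) < 0) →
      ∀ o ∈ q', o ∉ q → c + o ∉ Q := fun q q' h o ho ho' => LocA_not.1 ((h o ho).resolve_left ho')
  rcases key with ⟨k0, k1, k01, k2, k5⟩ | ⟨k0, k1, key⟩
  · refine ⟨Or.inl ⟨LocA_mem.1 k2, LocA_mem.1 k5⟩, ([(1,0),(0,1)], [(1,0),(2,0),(2,1),(1,2),(0,2),(0,1)]),
      by decide, LocA_ori2 k0 k1 k01, new _ _ ?_⟩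
    repeat (refine List.forall_mem_cons.2 ⟨by first | (left; decide) | (right; assumption), ?_⟩)
    simp
  rcases key with ⟨k2, k3, k23, k4, k5⟩ | ⟨k3, k4, k34, k2, k5⟩ | ⟨k4, k5, k45, k2, k3⟩ |
    ⟨k2, k4, k24, k5⟩ | ⟨k3, k5, k35, k2⟩ | ⟨k2, k5, k25⟩ | ⟨k2, ka, k2a, kb, k3⟩ | ⟨k2, kb, k2b, k3⟩
  · refine ⟨Or.inr (Or.inl (LocA_mem.1 k3)), ([(-1,1),(-1,0)],
      [(-1,1),(0,1),(0,2),(1,2),(2,1),(2,0),(1,0),(1,-1),(0,-1),(-1,0)]),
      by decide, LocA_ori2 k2 k3 k23, new _ _ ?_⟩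
    repeat (refine List.forall_mem_cons.2 ⟨by first | (left; decide) | (right; assumption), ?_⟩)
    simp
  · refine ⟨Or.inr (Or.inl (LocA_mem.1 k3)), ([(-1,0),(0,-1)],
      [(-1,0),(-1,1),(0,1),(0,2),(1,2),(2,1),(2,0),(1,0),(1,-1),(0,-1)]),
      by decide, LocA_ori2 k3 k4 k34, new _ _ ?_⟩
    repeat (refine List.forall_mem_cons.2 ⟨by first | (left; decide) | (right; assumption), ?_⟩)
    simp
  · refine ⟨Or.inr (Or.inr (LocA_mem.1 k4)), ([(0,-1),(1,-1)],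
      [(0,-1),(-1,0),(-1,1),(0,1),(0,2),(1,2),(2,1),(2,0),(1,0),(1,-1)]),
      by decide, LocA_ori2 k4 k5 k45, new _ _ ?_⟩
    repeat (refine List.forall_mem_cons.2 ⟨by first | (left; decide) | (right; assumption), ?_⟩)
    simp
  · refine ⟨Or.inr (Or.inr (LocA_mem.1 k4)), ([(-1,1),(-1,0),(0,-1)],
      [(-1,1),(0,1),(0,2),(1,2),(2,1),(2,0),(1,0),(1,-1),(0,-1)]),
      by decide, LocA_ori3 k2 k4 k24, new _ _ ?_⟩
    repeat (refine List.forall_mem_cons.2 ⟨by first | (left; decide) | (right; assumption), ?_⟩)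
    simp
  · refine ⟨Or.inr (Or.inl (LocA_mem.1 k3)), ([(-1,0),(0,-1),(1,-1)],
      [(-1,0),(-1,1),(0,1),(0,2),(1,2),(2,1),(2,0),(1,0),(1,-1)]),
      by decide, LocA_ori3 k3 k5 k35, new _ _ ?_⟩
    repeat (refine List.forall_mem_cons.2 ⟨by first | (left; decide) | (right; assumption), ?_⟩)
    simp
  · have k3 : 0 ≤ LocA_pos Q (c + (-1, 0)) := by
      rcases k25 with ⟨h, -⟩ | ⟨h, -, h'⟩
      · omega
      · omega
    refine ⟨Or.inr (Or.inl (LocA_mem.1 k3)), ([(-1,1),(-1,0),(0,-1),(1,-1)],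
      [(-1,1),(0,1),(0,2),(1,2),(2,1),(2,0),(1,0),(1,-1)]),
      by decide, LocA_ori4 k2 k5 k25, new _ _ ?_⟩
    repeat (refine List.forall_mem_cons.2 ⟨by first | (left; decide) | (right; assumption), ?_⟩)
    simp
  · refine ⟨Or.inr (Or.inl (LocA_mem.1 k3)), ([(-1,1),(-2,2)],
      [(-1,1),(0,1),(0,2),(-1,3),(-2,3),(-2,2)]),
      by decide, LocA_ori2 k2 ka k2a, new _ _ ?_⟩
    repeat (refine List.forall_mem_cons.2 ⟨by first | (left; decide) | (right; assumption), ?_⟩)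
    simp
  · refine ⟨Or.inr (Or.inl (LocA_mem.1 k3)), ([(-1,1),(-2,2),(-2,3)],
      [(-1,1),(0,1),(0,2),(-1,3),(-2,3)]),
      by decide, LocA_ori3 k2 kb k2b, new _ _ ?_⟩
    repeat (refine List.forall_mem_cons.2 ⟨by first | (left; decide) | (right; assumption), ?_⟩)
    simp

end Pool.Agent.RAT
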