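import Pool.Agent.RAT.G.Defs

/-!
RAT, geometry, MODULE Repl (independent of the templates): replacement of a piece of a walk.

(1) `replace_walk`: `P = p ++ q ++ r` a chain without repetitions, `q'` a chain without repetitions with the same first
and last element as `q`, no element of `q'` in `p` or `r`; then `p ++ q' ++ r` is again a chain without repetitions,
with the same first and last element. Proof: `List.isChain_append` (the junction conditions involve only `getLast?` of
`p`, `head?` and `getLast?` of the middle, `head?` of `r`; middle lists are not empty), `List.nodup_append`.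

(2) `piece_congr`: if neither `q` nor `q'` (both not empty) has a vertex in the face `c`, then the face `c` is met in one
piece with `k` edges by `p ++ q ++ r` iff by `p ++ q' ++ r`. Proof: it is enough to show, for `q ≠ []` without vertices
of the face, that `Piece k c (p ++ q ++ r)` iff (`Piece k c p` and no vertex of `r` in the face) or (`Piece k c r` and no
vertex of `p` in the face), since the right side does not mention `q`. From right to left: append. From left to right:
`p ++ q ++ r = p1 ++ q1 ++ r1` with `q1` nonempty and inside the face; `List.append_eq_append_iff`: if a vertex of `q1`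
came from `p` and another one from `r`, then all of `q` would lie in `q1`, impossible; so `q1` is a sublist block of `p`
or of `r`. (An index version may be easier: `Piece k c P` iff there is `i` with `i + k < P.length` and for all `j`
with `P[j]? = some z`: `fc z = c ↔ i ≤ j ∧ j ≤ i + k`; prove this equivalence first.)

(3) `faces_sub` follows from (2): a face of `p ++ q' ++ r` which is not the face of a vertex of `q ++ q'` is a face of
`p ++ q ++ r`.
-/

namespace Pool.Agent.RAT

open Pool.Agent.Hhelper14.SAW

theorem replace_walk {p q q' r : List (ℤ × ℤ)} (hq : q ≠ []) (hq' : q' ≠ []) (hh : q'.head? = q.head?)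
    (hl : q'.getLast? = q.getLast?) (hc : HChain (p ++ q ++ r)) (hn : (p ++ q ++ r).Nodup) (hc' : HChain q')
    (hn' : q'.Nodup) (hd : ∀ z ∈ q', z ∉ p ∧ z ∉ r) :
    HChain (p ++ q' ++ r) ∧ (p ++ q' ++ r).Nodup ∧ (p ++ q' ++ r).head? = (p ++ q ++ r).head? ∧
      (p ++ q' ++ r).getLast? = (p ++ q ++ r).getLast? := by
  have e1 : ∀ l : List (ℤ × ℤ), l ≠ [] → (p ++ l).getLast? = l.getLast? := by
    intro l hl'
    rw [List.getLast?_append]
    cases h : l.getLast? with
    | none => exact absurd (List.getLast?_eq_none_iff.1 h) hl'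
    | some x => rfl
  refine ⟨?_, ?_, ?_, ?_⟩
  · unfold HChain at hc hc' ⊢
    rw [List.isChain_append, List.isChain_append] at hc ⊢
    obtain ⟨⟨h1, h2, h3⟩, h4, h5⟩ := hc
    refine ⟨⟨h1, hc', ?_⟩, h4, ?_⟩
    · rw [hh]; exact h3
    · rw [e1 q' hq', hl, ← e1 q hq]; exact h5
  · rw [List.nodup_append, List.nodup_append] at hn ⊢
    obtain ⟨⟨h1, -, h3⟩, h4, h5⟩ := hn
    refine ⟨⟨h1, hn', ?_⟩, h4, ?_⟩
    · intro a ha b hb hab
      subst hab
      exact (hd a hb).1 ha
    · intro a ha b hb hab
      subst hab
      rw [List.mem_append] at ha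
      rcases ha with ha | ha
      · exact h5 a (List.mem_append.2 (Or.inl ha)) a hb rfl
      · exact (hd a ha).2 hb
  · rw [List.append_assoc, List.append_assoc, List.head?_append, List.head?_append, List.head?_append,
      List.head?_append, hh]
  · rw [List.getLast?_append (l := p ++ q'), List.getLast?_append (l := p ++ q), e1 q' hq', e1 q hq, hl]

theorem piece_mid {k : ℕ} {c : ℤ × ℤ} {p q r : List (ℤ × ℤ)} (hq : q ≠ []) (h : ∀ z ∈ q, fc z ≠ c) :
    Piece k c (p ++ q ++ r) ↔
      (Piece k c p ∧ ∀ z ∈ r, fc z ≠ c) ∨ (Piece k c r ∧ ∀ z ∈ p, fc z ≠ c) := by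
  constructor
  · rintro ⟨p1, q1, r1, he, hl, h1, h2, h3⟩
    have hq1 : q1 ≠ [] := by rintro rfl; simp at hl
    rw [List.append_assoc, List.append_assoc, List.append_eq_append_iff] at he
    rcases he with ⟨a, rfl, he⟩ | ⟨a, rfl, he⟩
    · right
      rw [List.append_eq_append_iff] at he
      rcases he with ⟨a', rfl, rfl⟩ | ⟨a', rfl, he⟩
      · refine ⟨⟨a', q1, r1, by rw [List.append_assoc], hl, h1, fun z hz => h2 z (by simp [hz]), h3⟩,
          fun z hz => h2 z (by simp [hz])⟩
      · match a', q1, hq1 with
        | [], q1, _ =>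
          rw [List.nil_append] at he
          refine ⟨⟨[], q1, r1, by rw [List.nil_append, he], hl, h1, by simp, h3⟩, fun z hz => h2 z (by simp [hz])⟩
        | x :: a', y :: q1, _ =>
          rw [List.cons_append, List.cons_append, List.cons.injEq] at he
          exact absurd (h1 y (by simp)) (h y (by rw [he.1]; simp))
    · rw [List.append_eq_append_iff] at he
      left
      rcases he with ⟨a', rfl, rfl⟩ | ⟨a', rfl, he⟩
      · refine ⟨⟨p1, q1, a', by simp, hl, h1, h2, fun z hz => h3 z (by simp [hz])⟩,
          fun z hz => h3 z (by simp [hz])⟩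
      · match a', q, hq with
        | [], q, _ =>
          rw [List.nil_append] at he
          refine ⟨⟨p1, a ++ [], [], by simp, hl, h1, h2, by simp⟩, fun z hz => h3 z (by rw [← he]; simp [hz])⟩
        | x :: a', y :: q, _ =>
          rw [List.cons_append, List.cons_append, List.cons.injEq] at he
          exact absurd (h1 x (by simp)) (h x (by rw [← he.1]; simp))
  · rintro (⟨⟨p1, q1, r1, rfl, hl, h1, h2, h3⟩, hr⟩ | ⟨⟨p1, q1, r1, rfl, hl, h1, h2, h3⟩, hp⟩)
    · refine ⟨p1, q1, r1 ++ q ++ r, by simp, hl, h1, h2, ?_⟩
      intro z hz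
      rw [List.mem_append, List.mem_append] at hz
      rcases hz with (hz | hz) | hz
      · exact h3 z hz
      · exact h z hz
      · exact hr z hz
    · refine ⟨p ++ q ++ p1, q1, r1, by simp, hl, h1, ?_, h3⟩
      intro z hz
      rw [List.mem_append, List.mem_append] at hz
      rcases hz with (hz | hz) | hz
      · exact hp z hz
      · exact h z hz
      · exact h2 z hz

theorem piece_congr {k : ℕ} {c : ℤ × ℤ} {p q q' r : List (ℤ × ℤ)} (hq : q ≠ []) (hq' : q' ≠ [])
    (h : ∀ z ∈ q, fc z ≠ c) (h' : ∀ z ∈ q', fc z ≠ c) :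
    Piece k c (p ++ q ++ r) ↔ Piece k c (p ++ q' ++ r) := by
  rw [piece_mid hq h, piece_mid hq' h']

theorem faces_sub {k : ℕ} {b : Bool} {p q q' r : List (ℤ × ℤ)} (hq : q ≠ []) (hq' : q' ≠ []) :
    faces k b (p ++ q' ++ r) ⊆ faces k b (p ++ q ++ r) ∪ ((q ++ q').map fc).toFinset := by
  classical
  intro c hc
  rw [mem_faces] at hc
  rw [Finset.mem_union, mem_faces, List.mem_toFinset]
  by_cases hm : c ∈ (q ++ q').map fc
  · exact Or.inr hm
  · left
    refine ⟨hc.1, ?_⟩
    rw [List.mem_map] at hm
    push Not at hm
    exact (piece_congr hq hq' (fun z hz => hm z (by simp [hz])) (fun z hz => hm z (by simp [hz]))).2 hc.2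

end Pool.Agent.RAT
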