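import Pool.Agent.RAT.G.LocA
import Pool.Agent.RAT.G.Repl

/-!
RAT, geometry, MODULE LocB: the surgery at the extreme face, from `loc_find` and `replace_walk`.

Take `t, o, p, r` from `loc_find`, `q = ori o (sh c t.1)`, `q' = ori o (sh c t.2)`, `Q' = p ++ q' ++ r`.
`HChain q'`, `q'.Nodup`: `tm_chain2`, `adj_sh`, `tm_nodup` (reversed lists: `List.isChain_reverse` + `Adj.symm`,
`List.nodup_reverse`), `head?`/`getLast?`: `tm_head`; `q, q' <> []`: `tm_ne`. Elements of `q'`: `c + o'`, `o'` in `t.2`;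
if `o'` is in `t.1` then `c + o'` is in the block `q` of `Q`, so not in `p`, `r` (nodup); otherwise `c + o'` is not in `Q`.
`Piece 1 (c + (0,3)) Q'`: `tm_thin` splits `t.2` into vertices outside the face, two inside, vertices outside
(`fc (c + o') = c + (0,3)` iff `U (o' - (0,3))`: `fc_of`, `fc_spec`; for `o'` in `t.2` the point `c + o'` is `hon` by
`nw_face`/`adj_sh`), `p`, `r` have no vertex in this face by `h1`; reversed orientation: reverse the three parts.
Length: `tm_len`. New vertices: `tm_Nw`.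
-/

namespace Pool.Agent.RAT

open Pool.Agent.Hhelper14.SAW

private lemma LocB_hon {c : ℤ × ℤ} (hc : Ctr c) : ∀ t ∈ Tm, ∀ o ∈ t.2, hon (c + o) := by
  have h : ∀ t ∈ Tm, ∀ o ∈ t.2, (o.1 - o.2) % 3 ≠ 0 := by decide
  intro t ht o ho
  have h1 := h t ht o ho
  simp only [Ctr] at hc
  simp only [hon, Prod.fst_add, Prod.snd_add]
  omega

private lemma LocB_mem {o : Bool} {c z : ℤ × ℤ} {q : List (ℤ × ℤ)} :
    z ∈ ori o (sh c q) ↔ ∃ v ∈ q, c + v = z := by
  cases o <;> simp [ori, sh]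

private lemma LocB_ne {o : Bool} {c : ℤ × ℤ} {q : List (ℤ × ℤ)} (h : q ≠ []) : ori o (sh c q) ≠ [] := by
  cases o <;> simpa [ori, sh] using h

private lemma LocB_len {o : Bool} {c : ℤ × ℤ} {q : List (ℤ × ℤ)} : (ori o (sh c q)).length = q.length := by
  cases o <;> simp [ori, sh]

private lemma LocB_nodup {o : Bool} {c : ℤ × ℤ} {q : List (ℤ × ℤ)} (h : q.Nodup) : (ori o (sh c q)).Nodup := by
  have h1 : (sh c q).Nodup := h.map (add_right_injective c)
  cases o
  · exact h1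
  · exact List.nodup_reverse.2 h1

private lemma LocB_chain {o : Bool} {c : ℤ × ℤ} (hc : Ctr c) {q : List (ℤ × ℤ)} (h : q.IsChain OAdj) :
    HChain (ori o (sh c q)) := by
  have h1 : HChain (sh c q) := by
    unfold HChain sh
    rw [List.isChain_map]
    exact h.imp fun x y hxy => adj_sh hc hxy
  cases o
  · exact h1
  · show (sh c q).reverse.IsChain Adj
    rw [List.isChain_reverse]
    exact List.IsChain.imp (fun x y hxy => hxy.symm) h1

private lemma LocB_head {o : Bool} {c : ℤ × ℤ} {q q' : List (ℤ × ℤ)} (h1 : q'.head? = q.head?)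
    (h2 : q'.getLast? = q.getLast?) :
    (ori o (sh c q')).head? = (ori o (sh c q)).head? ∧
      (ori o (sh c q')).getLast? = (ori o (sh c q)).getLast? := by
  have a1 : (sh c q').head? = (sh c q).head? := by
    unfold sh
    rw [List.head?_map, List.head?_map, h1]
  have a2 : (sh c q').getLast? = (sh c q).getLast? := by
    unfold sh
    rw [List.getLast?_map, List.getLast?_map, h2]
  cases o
  · exact ⟨a1, a2⟩
  · constructor
    · show (sh c q').reverse.head? = (sh c q).reverse.head?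
      rw [List.head?_reverse, List.head?_reverse, a2]
    · show (sh c q').reverse.getLast? = (sh c q).reverse.getLast?
      rw [List.getLast?_reverse, List.getLast?_reverse, a1]

/-- the thin face in the new piece -/
private lemma LocB_thin {c : ℤ × ℤ} (hc : Ctr c) {t : List (ℤ × ℤ) × List (ℤ × ℤ)} (ht : t ∈ Tm) (o : Bool) :
    ∃ a b d, ori o (sh c t.2) = a ++ b ++ d ∧ b.length = 2 ∧ (∀ z ∈ b, fc z = c + (0, 3)) ∧
      (∀ z ∈ a, fc z ≠ c + (0, 3)) ∧ ∀ z ∈ d, fc z ≠ c + (0, 3) := by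
  obtain ⟨i, -, h1, h2, h3, h4⟩ := tm_thin t ht
  have hC : Ctr (c + (0, 3)) := by
    simp only [Ctr] at hc ⊢
    simp only [Prod.fst_add, Prod.snd_add]
    omega
  have hsub : ∀ v : ℤ × ℤ, c + v - (c + (0, 3)) = v - (0, 3) := fun v => add_sub_add_left_eq_sub _ _ _
  have key : ∃ a b d, sh c t.2 = a ++ b ++ d ∧ b.length = 2 ∧ (∀ z ∈ b, fc z = c + (0, 3)) ∧
      (∀ z ∈ a, fc z ≠ c + (0, 3)) ∧ ∀ z ∈ d, fc z ≠ c + (0, 3) := by
    refine ⟨sh c (t.2.take i), sh c ((t.2.drop i).take 2), sh c ((t.2.drop i).drop 2), ?_, ?_, ?_, ?_, ?_⟩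
    · unfold sh
      rw [← List.map_append, ← List.map_append, List.append_assoc, List.take_append_drop,
        List.take_append_drop]
    · unfold sh
      rw [List.length_map, List.length_take]
      omega
    · intro z hz
      obtain ⟨v, hv, rfl⟩ := List.mem_map.1 hz
      refine (fc_of hC ?_).2
      rw [hsub]
      exact h3 v hv
    · intro z hz
      obtain ⟨v, hv, rfl⟩ := List.mem_map.1 hz
      intro hf
      have h5 := (fc_spec (LocB_hon hc t ht v (List.mem_of_mem_take hv))).2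
      rw [hf, hsub] at h5
      exact h2 v hv h5
    · intro z hz
      obtain ⟨v, hv, rfl⟩ := List.mem_map.1 hz
      intro hf
      have h5 := (fc_spec (LocB_hon hc t ht v (List.mem_of_mem_drop (List.mem_of_mem_drop hv)))).2
      rw [hf, hsub] at h5
      exact h4 v hv h5
  obtain ⟨a, b, d, e, hb, k1, k2, k3⟩ := key
  cases o
  · exact ⟨a, b, d, e, hb, k1, k2, k3⟩
  · refine ⟨d.reverse, b.reverse, a.reverse, ?_, by rw [List.length_reverse, hb], ?_, ?_, ?_⟩
    · show (sh c t.2).reverse = _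
      rw [e]
      simp
    · intro z hz
      exact k1 z (List.mem_reverse.1 hz)
    · intro z hz
      exact k3 z (List.mem_reverse.1 hz)
    · intro z hz
      exact k2 z (List.mem_reverse.1 hz)

theorem loc {Q : List (ℤ × ℤ)} {c : ℤ × ℤ} (hch : HChain Q) (hnd : Q.Nodup) (hc : Ctr c)
    (hv : ∃ z ∈ Q, fc z = c) (h0 : ∀ z ∈ Q, fc z ≠ c + (3, 0)) (h1 : ∀ z ∈ Q, fc z ≠ c + (0, 3))
    (hh : ∀ z, Q.head? = some z → fc z ≠ c ∧ fc z ≠ c + (-3, 3))
    (hl : ∀ z, Q.getLast? = some z → fc z ≠ c ∧ fc z ≠ c + (-3, 3)) :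
    ((c + (-1, 1) ∈ Q ∧ c + (1, -1) ∈ Q) ∨ c + (-1, 0) ∈ Q ∨ c + (0, -1) ∈ Q) ∧
      ∃ t ∈ Tm, ∃ o : Bool, ∃ Q', Rpl c t o Q Q' ∧ HChain Q' ∧ Q'.Nodup ∧ Q'.head? = Q.head? ∧
        Q'.getLast? = Q.getLast? ∧ Piece 1 (c + (0, 3)) Q' ∧ (∀ z ∈ Q', z ∈ Q ∨ ∃ v ∈ Nw, z = c + v) ∧
        (Q'.length = Q.length + 2 ∨ Q'.length = Q.length + 4 ∨ Q'.length = Q.length + 6 ∨
          Q'.length = Q.length + 8) := by
  obtain ⟨hA, t, ht, ⟨o, p, r, rfl⟩, hnew⟩ := loc_find hch hnd hc hv h0 h1 hh hl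
  refine ⟨hA, t, ht, o, p ++ ori o (sh c t.2) ++ r, ⟨p, r, rfl, rfl⟩, ?_⟩
  have hn2 := hnd
  rw [List.append_assoc, List.nodup_append] at hn2
  obtain ⟨-, hn3, hn4⟩ := hn2
  rw [List.nodup_append] at hn3
  obtain ⟨-, -, hn5⟩ := hn3
  have hd : ∀ z ∈ ori o (sh c t.2), z ∉ p ∧ z ∉ r := by
    intro z hz
    obtain ⟨v, hv, rfl⟩ := LocB_mem.1 hz
    by_cases hv1 : v ∈ t.1
    · have hq : c + v ∈ ori o (sh c t.1) := LocB_mem.2 ⟨v, hv1, rfl⟩
      exact ⟨fun h => hn4 _ h _ (List.mem_append_left _ hq) rfl, fun h => hn5 _ hq _ h rfl⟩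
    · have h2 := hnew v hv hv1
      exact ⟨fun h => h2 (by simp [h]), fun h => h2 (by simp [h])⟩
  obtain ⟨hhd, hlt⟩ := LocB_head (o := o) (c := c) (tm_head t ht).1 (tm_head t ht).2
  obtain ⟨r1, r2, r3, r4⟩ := replace_walk (LocB_ne (o := o) (c := c) (tm_ne t ht).1)
    (LocB_ne (o := o) (c := c) (tm_ne t ht).2) hhd hlt hch hnd (LocB_chain hc (tm_chain2 t ht))
    (LocB_nodup (tm_nodup t ht)) hd
  refine ⟨r1, r2, r3, r4, ?_, ?_, ?_⟩
  · obtain ⟨a, b, d, e, hb, k1, k2, k3⟩ := LocB_thin hc ht o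
    refine ⟨p ++ a, b, d ++ r, ?_, hb, k1, ?_, ?_⟩
    · rw [e]
      simp only [List.append_assoc]
    · intro z hz
      rcases List.mem_append.1 hz with h | h
      · exact h1 z (by simp [h])
      · exact k2 z h
    · intro z hz
      rcases List.mem_append.1 hz with h | h
      · exact k3 z h
      · exact h1 z (by simp [h])
  · intro z hz
    rcases List.mem_append.1 hz with h | h
    · rcases List.mem_append.1 h with h | h
      · exact Or.inl (by simp [h])
      · obtain ⟨v, hv, rfl⟩ := LocB_mem.1 h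
        exact Or.inr ⟨v, tm_Nw t ht v hv, rfl⟩
    · exact Or.inl (by simp [h])
  · have h2 := tm_len t ht
    simp only [List.length_append, LocB_len]
    omega

end Pool.Agent.RAT
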