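import Pool.Agent.RAT.G.Row

/-!
Project RAT (MP_8c6f77_pr), geometry: every walk of length `n` has at least `√n / 24` places.
-/

namespace Pool.Agent.RAT.X

open Pool.Agent.Hhelper14.SAW
open Pool.Agent.RAT.G

lemma step_side {g : ℤ × ℤ → ℤ} {y : ℤ} : ∀ {P : List (ℤ × ℤ)},
    List.IsChain (fun x y => g x ≤ g y + 1 ∧ g y ≤ g x + 1) P → (∀ z ∈ P, g z ≠ y) →
    (∀ z ∈ P, g z < y) ∨ ∀ z ∈ P, y < g z
  | [], _, _ => Or.inl (by simp)
  | [x], _, h => by
    rcases lt_or_gt_of_ne (h x (by simp)) with h1 | h1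
    · left; intro z hz; rw [List.mem_singleton] at hz; rw [hz]; exact h1
    · right; intro z hz; rw [List.mem_singleton] at hz; rw [hz]; exact h1
  | x :: x' :: l, hC, h => by
    obtain ⟨h1, h2⟩ := List.isChain_cons_cons.1 hC
    have hx := h x (by simp)
    rcases step_side h2 (fun z hz => h z (by simp only [List.mem_cons] at hz ⊢; tauto)) with h3 | h3
    · left
      intro z hz
      rcases List.mem_cons.1 hz with rfl | hz
      · have := h3 x' (by simp)
        omega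
      · exact h3 z hz
    · right
      intro z hz
      rcases List.mem_cons.1 hz with rfl | hz
      · have := h3 x' (by simp)
        omega
      · exact h3 z hz

lemma mem_between {g : ℤ × ℤ → ℤ} {P : List (ℤ × ℤ)}
    (hC : List.IsChain (fun x y => g x ≤ g y + 1 ∧ g y ≤ g x + 1) P) {u v : ℤ × ℤ} (hu : u ∈ P) (hv : v ∈ P) {y : ℤ}
    (h1 : g u ≤ y) (h2 : y ≤ g v) : ∃ z ∈ P, g z = y := by
  by_contra hc
  push Not at hc
  rcases step_side hC hc with h | h
  · have := h v hv; omega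
  · have := h u hu; omega

/-- Many pairs of neighbouring values. -/
lemma many_pairs {g : ℤ × ℤ → ℤ} {P : List (ℤ × ℤ)} (h0 : P ≠ [])
    (hC : List.IsChain (fun x y => g x ≤ g y + 1 ∧ g y ≤ g x + 1) P) :
    ∃ K : Finset ℤ, (P.map g).toFinset.card ≤ 2 * K.card + 6 ∧ ∀ k ∈ K, (∃ z ∈ P, g z = 2 * k) ∧
      (∃ z ∈ P, g z = 2 * k + 1) ∧ (∀ z, P.head? = some z → g z ≠ 2 * k ∧ g z ≠ 2 * k + 1) ∧
      ∀ z, P.getLast? = some z → g z ≠ 2 * k ∧ g z ≠ 2 * k + 1 := by
  obtain ⟨u, hu, hmin⟩ := Finset.exists_min_image P.toFinset g (by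
    obtain ⟨x, hx⟩ := List.exists_mem_of_ne_nil P h0
    exact ⟨x, by simpa using hx⟩)
  obtain ⟨v, hv, hmax⟩ := Finset.exists_max_image P.toFinset g (by
    obtain ⟨x, hx⟩ := List.exists_mem_of_ne_nil P h0
    exact ⟨x, by simpa using hx⟩)
  rw [List.mem_toFinset] at hu hv
  obtain ⟨a, ha⟩ : ∃ a, P.head? = some a := by
    cases h : P.head? with
    | none => exact absurd (List.head?_eq_none_iff.1 h) h0
    | some a => exact ⟨a, rfl⟩
  obtain ⟨c, hc⟩ : ∃ c, P.getLast? = some c := by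
    cases h : P.getLast? with
    | none => exact absurd (List.getLast?_eq_none_iff.1 h) h0
    | some c => exact ⟨c, rfl⟩
  have huv : g u ≤ g v := hmin v (by simpa using hv)
  refine ⟨(Finset.Icc ((g u + 1) / 2) ((g v - 1) / 2)) \ {g a / 2, g c / 2}, ?_, ?_⟩
  · have e : (P.map g).toFinset ⊆ Finset.Icc (g u) (g v) := by
      intro y hy
      rw [List.mem_toFinset] at hy
      obtain ⟨z, hz, rfl⟩ := List.mem_map.1 hy
      rw [Finset.mem_Icc]
      exact ⟨hmin z (by simpa using hz), hmax z (by simpa using hz)⟩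
    have e1 := Finset.card_le_card e
    rw [Int.card_Icc] at e1
    have e2 := Finset.le_card_sdiff ({g a / 2, g c / 2} : Finset ℤ) (Finset.Icc ((g u + 1) / 2) ((g v - 1) / 2))
    rw [Int.card_Icc] at e2
    have e3 : ({g a / 2, g c / 2} : Finset ℤ).card ≤ 2 := Finset.card_le_two
    omega
  · intro k hk
    rw [Finset.mem_sdiff, Finset.mem_Icc, Finset.mem_insert, Finset.mem_singleton] at hk
    obtain ⟨⟨k1, k2⟩, k3⟩ := hk
    refine ⟨mem_between hC hu hv (by omega) (by omega), mem_between hC hu hv (by omega) (by omega), ?_, ?_⟩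
    · intro z hz
      rw [ha, Option.some.injEq] at hz
      subst hz
      constructor <;> intro h <;> apply k3 <;> left <;> omega
    · intro z hz
      rw [hc, Option.some.injEq] at hz
      subst hz
      constructor <;> intro h <;> apply k3 <;> right <;> omega

lemma exists_top {g h : ℤ × ℤ → ℤ} {P : List (ℤ × ℤ)} {y : ℤ} (hy : ∃ z ∈ P, g z = y) :
    ∃ x, (∃ z ∈ P, h z = x ∧ g z = y) ∧ ∀ z ∈ P, g z = y → h z ≤ x := by
  classical
  obtain ⟨z0, hz0, hz1⟩ := hy
  obtain ⟨u, hu, hmax⟩ := Finset.exists_max_image (P.toFinset.filter fun z => g z = y) h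
    ⟨z0, by rw [Finset.mem_filter]; exact ⟨by simpa using hz0, hz1⟩⟩
  rw [Finset.mem_filter, List.mem_toFinset] at hu
  refine ⟨h u, ⟨u, hu.1, rfl, hu.2⟩, ?_⟩
  intro z hz hz'
  exact hmax z (by rw [Finset.mem_filter, List.mem_toFinset]; exact ⟨hz, hz'⟩)

lemma ro_chain {P : List (ℤ × ℤ)} (hC : HChain P) :
    List.IsChain (fun x y => ro x ≤ ro y + 1 ∧ ro y ≤ ro x + 1) P :=
  hC.imp fun _ _ h => ro_adj h

lemma co_adj {x y : ℤ × ℤ} (h : Adj x y) : co x ≤ co y + 1 ∧ co y ≤ co x + 1 := by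
  have := ro_adj (adj_sw h)
  rwa [ro_sw, ro_sw] at this

lemma co_chain {P : List (ℤ × ℤ)} (hC : HChain P) :
    List.IsChain (fun x y => co x ≤ co y + 1 ∧ co y ≤ co x + 1) P :=
  hC.imp fun _ _ h => co_adj h

/-- Choice of the faces. -/
lemma choose_faces {p : ℤ × ℤ → Prop} {K : Finset ℤ} {key : ℤ × ℤ → ℤ} (h : ∀ k ∈ K, ∃ f, p f ∧ key f = k) :
    ∃ S : Finset (ℤ × ℤ), S.card = K.card ∧ ∀ f ∈ S, p f := by
  classical
  choose! F hF using h
  refine ⟨K.image F, Finset.card_image_of_injOn ?_, ?_⟩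
  · intro k hk l hl e
    have := congrArg key e
    rwa [(hF k hk).2, (hF l hl).2] at this
  · intro f hf
    obtain ⟨k, hk, rfl⟩ := Finset.mem_image.1 hf
    exact (hF k hk).1

variable {b : Bool} {P : List (ℤ × ℤ)}

lemma rows_many (h0 : P ≠ []) (hN : P.Nodup) (hC : HChain P) (hH : ∀ z ∈ P, hon z) (hD : ∀ z ∈ P, Dm b z) :
    ∃ S : Finset (ℤ × ℤ), (P.map ro).toFinset.card ≤ 2 * S.card + 6 ∧ ∀ f ∈ S, ∃ t ∈ mv, GP b P f t := by
  obtain ⟨K, hK, hk⟩ := many_pairs h0 (ro_chain hC)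
  obtain ⟨S, hS, hS2⟩ := choose_faces (p := fun f => ∃ t ∈ mv, GP b P f t) (K := K) (key := fun f => f.2 / 6) (by
    intro k hk'
    obtain ⟨v0, v1, hh, hl⟩ := hk k hk'
    obtain ⟨x0, a0, b0⟩ := exists_top (h := co) v0
    obtain ⟨x1, a1, b1⟩ := exists_top (h := co) v1
    by_cases hx : x1 < x0
    · refine ⟨_, rowI hN hC hH hD a0 b0 (fun z hz h => lt_of_le_of_lt (b1 z hz h) hx) hh hl, ?_⟩
      simp only
      omega
    · refine ⟨_, rowII hN hC hH hD a1 b1 (fun z hz h => (b0 z hz h).trans (not_lt.1 hx)) hh hl, ?_⟩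
      simp only [sg]
      omega)
  exact ⟨S, by rw [hS]; exact hK, hS2⟩

lemma cols_many (h0 : P ≠ []) (hN : P.Nodup) (hC : HChain P) (hH : ∀ z ∈ P, hon z) (hD : ∀ z ∈ P, Dm b z) :
    ∃ S : Finset (ℤ × ℤ), (P.map co).toFinset.card ≤ 2 * (S.card + (P.map ro).toFinset.card) + 6 ∧
      ∀ f ∈ S, ∃ t ∈ mv, GP b P f t := by
  classical
  obtain ⟨K, hK, hk⟩ := many_pairs h0 (co_chain hC)
  obtain ⟨S, hS, hS2⟩ := choose_faces (p := fun f => ∃ t ∈ mv, GP b P f t)
    (K := K \ ((P.map ro).toFinset.image fun x => (-x - 2) / 4)) (key := fun f => (f.1 - 1) / 6) (by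
    intro k hk'
    rw [Finset.mem_sdiff] at hk'
    obtain ⟨v0, v1, hh, hl⟩ := hk k hk'.1
    obtain ⟨x0, a0, b0⟩ := exists_top (h := ro) v0
    obtain ⟨x1, a1, b1⟩ := exists_top (h := ro) v1
    by_cases hx : x1 < x0
    · refine ⟨_, colI hN hC hH hD a0 b0 (fun z hz h => lt_of_le_of_lt (b1 z hz h) hx) hh hl, ?_⟩
      simp only [sw]
      omega
    · refine ⟨_, colII hN hC hH hD ?_ a1 b1 (fun z hz h => (b0 z hz h).trans (not_lt.1 hx)) hh hl, ?_⟩
      · intro hb
        by_contra hcon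
        apply hk'.2
        rw [Finset.mem_image]
        obtain ⟨z, hz, e1, e2⟩ := a1
        refine ⟨x1, by rw [List.mem_toFinset]; exact List.mem_map.2 ⟨z, hz, e1⟩, ?_⟩
        have h5 := hD z hz hb
        have h6 := hH z hz
        obtain ⟨c, d⟩ := z
        simp only [ro, co, F0, hon] at e1 e2 h5 h6
        omega
      · simp only [sw, sg]
        omega)
  refine ⟨S, ?_, hS2⟩
  have e1 := Finset.le_card_sdiff ((P.map ro).toFinset.image fun x => (-x - 2) / 4) K
  have e2 : ((P.map ro).toFinset.image fun x => (-x - 2) / 4).card ≤ (P.map ro).toFinset.card := Finset.card_image_le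
  omega

lemma box_card (hN : P.Nodup) (hH : ∀ z ∈ P, hon z) :
    P.length ≤ 6 * ((P.map co).toFinset.card * (P.map ro).toFinset.card) := by
  classical
  rw [← List.toFinset_card_of_nodup hN, ← Finset.card_product]
  refine Finset.card_le_mul_card_image_of_maps_to (f := fun z => (co z, ro z)) ?_ 6 ?_
  · intro z hz
    rw [List.mem_toFinset] at hz
    rw [Finset.mem_product, List.mem_toFinset, List.mem_toFinset]
    exact ⟨List.mem_map_of_mem hz, List.mem_map_of_mem hz⟩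
  · rintro ⟨x, y⟩ -
    have : P.toFinset.filter (fun z => (co z, ro z) = (x, y)) ⊆
        {(3 * x + 2, 3 * y), (3 * x + 1, 3 * y + 1), (3 * x, 3 * y + 1), (3 * x, 3 * y), (3 * x + 1, 3 * y - 1),
          (3 * x + 2, 3 * y - 1)} := by
      rintro ⟨a, c⟩ hz
      rw [Finset.mem_filter, List.mem_toFinset] at hz
      obtain ⟨h1, h2⟩ := hz
      have h3 := hH _ h1
      simp only [co, ro, hon, Prod.mk.injEq] at h2 h3
      simp only [Finset.mem_insert, Finset.mem_singleton, Prod.mk.injEq]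
      obtain ⟨h2, h4⟩ := h2
      have h5 : a % 3 = 0 ∨ a % 3 = 1 ∨ a % 3 = 2 := by omega
      have h6 : c % 3 = 0 ∨ c % 3 = 1 ∨ c % 3 = 2 := by omega
      rcases h5 with h5 | h5 | h5 <;> rcases h6 with h6 | h6 | h6 <;> omega
    exact (Finset.card_le_card this).trans Finset.card_le_six

/-- Many places. -/
theorem many_places (b : Bool) {n : ℕ} (hn : 5184 ≤ n) {P : List (ℤ × ℤ)} (hP : P ∈ WF b n) :
    ∃ S : Finset (ℤ × ℤ), Real.sqrt n / 24 ≤ S.card ∧ ∀ f ∈ S, ∃ t ∈ mv, GP b P f t := by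
  obtain ⟨hw, hD⟩ := mem_WF.1 hP
  have hH := hon_of_walk hw
  obtain ⟨h1, hN, hC, h4⟩ := hw
  have h0 : P ≠ [] := by rintro rfl; simp at h1
  obtain ⟨S, hS, hS2⟩ := rows_many (b := b) h0 hN hC hH hD
  obtain ⟨T, hT, hT2⟩ := cols_many (b := b) h0 hN hC hH hD
  have hbox := box_card hN hH
  rw [h1] at hbox
  set R := (P.map ro).toFinset.card
  set C := (P.map co).toFinset.card
  have hs : (72 : ℝ) ≤ Real.sqrt n := by
    rw [show (72 : ℝ) = Real.sqrt 5184 by
      rw [show (5184 : ℝ) = 72 ^ 2 by norm_num, Real.sqrt_sq (by norm_num)]]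
    exact Real.sqrt_le_sqrt (by exact_mod_cast hn)
  have hsq : Real.sqrt n * Real.sqrt n = n := Real.mul_self_sqrt (Nat.cast_nonneg n)
  have hS' : (R : ℝ) ≤ 2 * S.card + 6 := by exact_mod_cast hS
  have hT' : (C : ℝ) ≤ 2 * (T.card + R) + 6 := by exact_mod_cast hT
  have hbox' : (n : ℝ) + 1 ≤ 6 * (C * R) := by exact_mod_cast hbox
  by_cases hR : Real.sqrt n / 12 + 6 ≤ R
  · exact ⟨S, by linarith, hS2⟩
  · refine ⟨T, ?_, hT2⟩
    push Not at hR
    have hR2 : (R : ℝ) ≤ Real.sqrt n / 6 := by linarith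
    have hC2 : Real.sqrt n ≤ C := by
      by_contra hcon
      push Not at hcon
      have hR0 : (0 : ℝ) ≤ R := Nat.cast_nonneg _
      have hC0 : (0 : ℝ) ≤ C := Nat.cast_nonneg _
      have : (C : ℝ) * R ≤ Real.sqrt n * (Real.sqrt n / 6) := mul_le_mul hcon.le hR2 hR0 (by positivity)
      nlinarith
    linarith

end Pool.Agent.RAT.X
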