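import Pool.Agent.Hhelper14.SAW.Refl

/-!
Project RAT (MP_8c6f77_pr), geometry: local replacements in self-avoiding walks of the honeycomb lattice.
Faces of the sublattice: centre (1+3x, 3y), vertices = the six neighbours of the centre; the vertex (a,b) lies in the face with
x = a/3, y = (b+1)/3.
-/

namespace Pool.Agent.RAT.G

open Pool.Agent.Hhelper14.SAW

/-- Translate of a list of offsets. -/
def sh (f : ℤ × ℤ) (q : List (ℤ × ℤ)) : List (ℤ × ℤ) := q.map (fun x => f + x)

/-- A replacement: `q` is replaced by `q'` (offsets relative to the centre of a face). -/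
abbrev Mv := List (ℤ × ℤ) × List (ℤ × ℤ)

lemma chain_swap {α : Type*} {R : α → α → Prop} {p q q' r : List α} (hq : q ≠ []) (hq' : q' ≠ [])
    (h1 : q.head? = q'.head?) (h2 : q.getLast? = q'.getLast?) (h : List.IsChain R (p ++ q ++ r))
    (h' : List.IsChain R q') : List.IsChain R (p ++ q' ++ r) := by
  rw [List.isChain_append, List.isChain_append] at h ⊢
  obtain ⟨⟨a1, a2, a3⟩, a4, a5⟩ := h
  refine ⟨⟨a1, h', ?_⟩, a4, ?_⟩
  · rw [← h1]; exact a3
  · intro x hx
    apply a5 x
    have e1 : (p ++ q').getLast? = q'.getLast? := by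
      rw [List.getLast?_append]
      cases hh : q'.getLast? with
      | none => exact absurd (List.getLast?_eq_none_iff.1 hh) hq'
      | some z => rfl
    have e2 : (p ++ q).getLast? = q.getLast? := by
      rw [List.getLast?_append]
      cases hh : q.getLast? with
      | none => exact absurd (List.getLast?_eq_none_iff.1 hh) hq
      | some z => rfl
    rw [e2, h2, ← e1]; exact hx

/-! ### Consecutive vertices -/

/-- `a, v, b` are consecutive in `P` (from position `i`). -/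
def At3 (P : List (ℤ × ℤ)) (a v b : ℤ × ℤ) : Prop :=
  ∃ i : ℕ, P[i]? = some a ∧ P[i + 1]? = some v ∧ P[i + 2]? = some b

/-- `a, v` are consecutive in `P`. -/
def At2 (P : List (ℤ × ℤ)) (a v : ℤ × ℤ) : Prop := ∃ i : ℕ, P[i]? = some a ∧ P[i + 1]? = some v

lemma At2.split {P : List (ℤ × ℤ)} {a v : ℤ × ℤ} (h : At2 P a v) : ∃ p r, P = p ++ [a, v] ++ r := by
  obtain ⟨i, h1, h2⟩ := h
  obtain ⟨g1, e1⟩ := List.getElem?_eq_some_iff.1 h1
  obtain ⟨g2, e2⟩ := List.getElem?_eq_some_iff.1 h2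
  refine ⟨P.take i, P.drop (i + 2), ?_⟩
  have h3 : P.drop i = a :: v :: P.drop (i + 2) := by
    rw [List.drop_eq_getElem_cons g1, List.drop_eq_getElem_cons g2, e1, e2]
  calc P = P.take i ++ P.drop i := (List.take_append_drop i P).symm
    _ = _ := by rw [h3]; simp

lemma At3.split {P : List (ℤ × ℤ)} {a v b : ℤ × ℤ} (h : At3 P a v b) : ∃ p r, P = p ++ [a, v, b] ++ r := by
  obtain ⟨i, h1, h2, h3⟩ := h
  obtain ⟨g1, e1⟩ := List.getElem?_eq_some_iff.1 h1
  obtain ⟨g2, e2⟩ := List.getElem?_eq_some_iff.1 h2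
  obtain ⟨g3, e3⟩ := List.getElem?_eq_some_iff.1 h3
  refine ⟨P.take i, P.drop (i + 3), ?_⟩
  have h4 : P.drop i = a :: v :: b :: P.drop (i + 3) := by
    rw [List.drop_eq_getElem_cons g1, List.drop_eq_getElem_cons g2, List.drop_eq_getElem_cons g3, e1, e2, e3]
  calc P = P.take i ++ P.drop i := (List.take_append_drop i P).symm
    _ = _ := by rw [h4]; simp

lemma idx_inj {P : List (ℤ × ℤ)} (hN : P.Nodup) {i j : ℕ} {a : ℤ × ℤ} (h1 : P[i]? = some a)
    (h2 : P[j]? = some a) : i = j := by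
  obtain ⟨g1, e1⟩ := List.getElem?_eq_some_iff.1 h1
  obtain ⟨g2, e2⟩ := List.getElem?_eq_some_iff.1 h2
  exact (List.Nodup.getElem_inj_iff hN).1 (e1.trans e2.symm)

lemma mem_of_idx {P : List (ℤ × ℤ)} {i : ℕ} {a : ℤ × ℤ} (h1 : P[i]? = some a) : a ∈ P :=
  List.mem_iff_getElem?.2 ⟨i, h1⟩

lemma adj_of_idx {P : List (ℤ × ℤ)} (hC : HChain P) {i : ℕ} {a b : ℤ × ℤ} (h1 : P[i]? = some a)
    (h2 : P[i + 1]? = some b) : Adj a b := by
  obtain ⟨g1, e1⟩ := List.getElem?_eq_some_iff.1 h1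
  obtain ⟨g2, e2⟩ := List.getElem?_eq_some_iff.1 h2
  have := List.isChain_iff_getElem.1 hC i g2
  rwa [e1, e2] at this

/-- An inner vertex has two neighbours in the walk. -/
lemma exists_at3 {P : List (ℤ × ℤ)} {v : ℤ × ℤ} (hv : v ∈ P) (hh : P.head? ≠ some v)
    (hl : P.getLast? ≠ some v) : ∃ a b, At3 P a v b := by
  obtain ⟨j, hj⟩ := List.mem_iff_getElem?.1 hv
  obtain ⟨g, e⟩ := List.getElem?_eq_some_iff.1 hj
  cases j with
  | zero =>
    exfalso; apply hh
    rw [List.head?_eq_getElem?]; exact hj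
  | succ i =>
    have g2 : i + 2 < P.length := by
      by_contra hc
      apply hl
      rw [List.getLast?_eq_getElem?]
      have : P.length - 1 = i + 1 := by omega
      rw [this]; exact hj
    exact ⟨P[i], P[i + 2], i, List.getElem?_eq_getElem _, hj, List.getElem?_eq_getElem _⟩

/-- Unordered versions. -/
def C3 (P : List (ℤ × ℤ)) (a v b : ℤ × ℤ) : Prop := At3 P a v b ∨ At3 P b v a
/-- Used edge. -/
def C2 (P : List (ℤ × ℤ)) (a v : ℤ × ℤ) : Prop := At2 P a v ∨ At2 P v a

lemma C3.left {P : List (ℤ × ℤ)} {a v b : ℤ × ℤ} (h : C3 P a v b) : C2 P a v := by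
  rcases h with ⟨i, h1, h2, h3⟩ | ⟨i, h1, h2, h3⟩
  · exact Or.inl ⟨i, h1, h2⟩
  · exact Or.inr ⟨i + 1, h2, h3⟩

lemma C3.right {P : List (ℤ × ℤ)} {a v b : ℤ × ℤ} (h : C3 P a v b) : C2 P v b := by
  rcases h with ⟨i, h1, h2, h3⟩ | ⟨i, h1, h2, h3⟩
  · exact Or.inl ⟨i + 1, h2, h3⟩
  · exact Or.inr ⟨i, h1, h2⟩

lemma C3.mem_left {P : List (ℤ × ℤ)} {a v b : ℤ × ℤ} (h : C3 P a v b) : a ∈ P := by
  rcases h with ⟨i, h1, h2, h3⟩ | ⟨i, h1, h2, h3⟩
  · exact mem_of_idx h1
  · exact mem_of_idx h3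

lemma C3.mem_right {P : List (ℤ × ℤ)} {a v b : ℤ × ℤ} (h : C3 P a v b) : b ∈ P := by
  rcases h with ⟨i, h1, h2, h3⟩ | ⟨i, h1, h2, h3⟩
  · exact mem_of_idx h3
  · exact mem_of_idx h1

lemma C2.symm {P : List (ℤ × ℤ)} {a v : ℤ × ℤ} (h : C2 P a v) : C2 P v a := Or.symm h

lemma C3.symm {P : List (ℤ × ℤ)} {a v b : ℤ × ℤ} (h : C3 P a v b) : C3 P b v a := Or.symm h

lemma C3.unique {P : List (ℤ × ℤ)} (hN : P.Nodup) {a v b w : ℤ × ℤ} (h : C3 P a v b) (h2 : C2 P v w) :
    w = a ∨ w = b := by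
  rcases h with ⟨i, h1, h2', h3⟩ | ⟨i, h1, h2', h3⟩ <;> rcases h2 with ⟨j, g1, g2⟩ | ⟨j, g1, g2⟩
  · have := idx_inj hN g1 h2'
    subst this
    right
    have := g2.symm.trans h3
    simpa using this
  · have := idx_inj hN g2 h2'
    have e : j = i := by omega
    subst e
    left
    have := g1.symm.trans h1
    simpa using this
  · have := idx_inj hN g1 h2'
    subst this
    left
    have := g2.symm.trans h3
    simpa using this
  · have := idx_inj hN g2 h2'
    have e : j = i := by omega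
    subst e
    right
    have := g1.symm.trans h1
    simpa using this

/-- Two of the three neighbours. -/
lemma two {P : List (ℤ × ℤ)} (hN : P.Nodup) (hC : HChain P) {v n1 n2 n3 : ℤ × ℤ} (hv : v ∈ P)
    (hh : P.head? ≠ some v) (hl : P.getLast? ≠ some v)
    (hn : ∀ w, Adj w v → w = n1 ∨ w = n2 ∨ w = n3) (hn' : ∀ w, Adj v w → w = n1 ∨ w = n2 ∨ w = n3) :
    C3 P n1 v n2 ∨ C3 P n1 v n3 ∨ C3 P n2 v n3 := by
  obtain ⟨a, b, i, h1, h2, h3⟩ := exists_at3 hv hh hl
  have hab : a ≠ b := by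
    rintro rfl
    have := idx_inj hN h1 h3
    omega
  have ha := hn a (adj_of_idx hC h1 h2)
  have hb := hn' b (adj_of_idx hC h2 h3)
  rcases ha with rfl | rfl | rfl <;> rcases hb with rfl | rfl | rfl
  · exact absurd rfl hab
  · exact Or.inl (Or.inl ⟨i, h1, h2, h3⟩)
  · exact Or.inr (Or.inl (Or.inl ⟨i, h1, h2, h3⟩))
  · exact Or.inl (Or.inr ⟨i, h1, h2, h3⟩)
  · exact absurd rfl hab
  · exact Or.inr (Or.inr (Or.inl ⟨i, h1, h2, h3⟩))
  · exact Or.inr (Or.inl (Or.inr ⟨i, h1, h2, h3⟩))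
  · exact Or.inr (Or.inr (Or.inr ⟨i, h1, h2, h3⟩))
  · exact absurd rfl hab

/-! ### The templates -/

/-- Oriented templates, relative to the centre of the face made thin. -/
def tp0 : List Mv :=
  [([(1, -3), (0, -2)], [(1, -3), (2, -3), (2, -2), (1, -1), (0, -1), (0, -2)]),
   ([(-1, -2), (-2, -1)], [(-1, -2), (0, -2), (0, -1), (-1, 0), (-2, 0), (-2, -1)]),
   ([(-1, -2), (-2, -1), (-2, 0)], [(-1, -2), (0, -2), (0, -1), (-1, 0), (-2, 0)]),
   ([(-1, -3), (0, -4)],
     [(-1, -3), (-1, -2), (0, -2), (0, -1), (1, -1), (2, -2), (2, -3), (1, -3), (1, -4), (0, -4)]),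
   ([(0, -4), (1, -4)],
     [(0, -4), (-1, -3), (-1, -2), (0, -2), (0, -1), (1, -1), (2, -2), (2, -3), (1, -3), (1, -4)]),
   ([(-1, -3), (0, -4), (1, -4)],
     [(-1, -3), (-1, -2), (0, -2), (0, -1), (1, -1), (2, -2), (2, -3), (1, -3), (1, -4)])]

/-- Both orientations. -/
def tp : List Mv := tp0 ++ tp0.map (fun t => (t.1.reverse, t.2.reverse))

lemma nbA {a b : ℤ} (h : (a - b) % 3 = 0) (w : ℤ × ℤ) (hw : Adj w (a, b) ∨ Adj (a, b) w) :
    w = (a, b + 1) ∨ w = (a - 1, b) ∨ w = (a + 1, b - 1) := by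
  obtain ⟨c, d⟩ := w
  simp only [Adj, hon, U, Prod.mk_sub_mk, Prod.mk.injEq] at *
  omega

lemma nbB {a b : ℤ} (h : (a - b) % 3 = 2) (w : ℤ × ℤ) (hw : Adj w (a, b) ∨ Adj (a, b) w) :
    w = (a, b - 1) ∨ w = (a + 1, b) ∨ w = (a - 1, b + 1) := by
  obtain ⟨c, d⟩ := w
  simp only [Adj, hon, U, Prod.mk_sub_mk, Prod.mk.injEq] at *
  omega

lemma sh_two (f a b : ℤ × ℤ) : sh f [a, b] = [f + a, f + b] := rfl
lemma sh_three (f a b c : ℤ × ℤ) : sh f [a, b, c] = [f + a, f + b, f + c] := rfl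

lemma use2 {P : List (ℤ × ℤ)} {f a b a' b' : ℤ × ℤ} {L : List (ℤ × ℤ)} (h : C2 P a' b') (ha : a' = f + a) (hb : b' = f + b)
    (h1 : ([a, b], L) ∈ tp) (h2 : ([b, a], L.reverse) ∈ tp) (hL : ∀ z ∈ L, z ∉ [a, b] → f + z ∉ P) :
    ∃ t ∈ tp, (∃ p r, P = p ++ sh f t.1 ++ r) ∧ ∀ z ∈ t.2, z ∉ t.1 → f + z ∉ P := by
  subst ha hb
  rcases h with h | h
  · exact ⟨_, h1, h.split, hL⟩
  · refine ⟨_, h2, h.split, ?_⟩
    intro z hz hz'
    refine hL z (List.mem_reverse.1 hz) ?_
    intro hc; apply hz'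
    simp only [List.mem_cons, List.not_mem_nil, or_false] at hc ⊢
    tauto

lemma use3 {P : List (ℤ × ℤ)} {f a b c a' b' c' : ℤ × ℤ} {L : List (ℤ × ℤ)} (h : C3 P a' b' c') (ha : a' = f + a)
    (hb : b' = f + b) (hc : c' = f + c)
    (h1 : ([a, b, c], L) ∈ tp) (h2 : ([c, b, a], L.reverse) ∈ tp) (hL : ∀ z ∈ L, z ∉ [a, b, c] → f + z ∉ P) :
    ∃ t ∈ tp, (∃ p r, P = p ++ sh f t.1 ++ r) ∧ ∀ z ∈ t.2, z ∉ t.1 → f + z ∉ P := by
  subst ha hb hc
  rcases h with h | h
  · exact ⟨_, h1, h.split, hL⟩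
  · refine ⟨_, h2, h.split, ?_⟩
    intro z hz hz'
    refine hL z (List.mem_reverse.1 hz) ?_
    intro hc; apply hz'
    simp only [List.mem_cons, List.not_mem_nil, or_false] at hc ⊢
    tauto

/-- The local lemma: if a face is visited, its neighbours in the directions `e_0` and `e_1` are not, and the walk has no end
point in the two rows, then one of the templates can be applied. -/
lemma loc {P : List (ℤ × ℤ)} (hN : P.Nodup) (hC : HChain P) {x y : ℤ}
    (hv : ∃ z ∈ P, z.1 / 3 = x ∧ (z.2 + 1) / 3 = y)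
    (h0 : ∀ z ∈ P, ¬ (z.1 / 3 = x + 1 ∧ (z.2 + 1) / 3 = y))
    (h1 : ∀ z ∈ P, ¬ (z.1 / 3 = x ∧ (z.2 + 1) / 3 = y + 1))
    (hh : ∀ z, P.head? = some z → (z.2 + 1) / 3 ≠ y ∧ (z.2 + 1) / 3 ≠ y + 1)
    (hl : ∀ z, P.getLast? = some z → (z.2 + 1) / 3 ≠ y ∧ (z.2 + 1) / 3 ≠ y + 1) :
    ∃ t ∈ tp, (∃ p r, P = p ++ sh (1 + 3 * x, 3 * y + 3) t.1 ++ r) ∧
      ∀ z ∈ t.2, z ∉ t.1 → (1 + 3 * x, 3 * y + 3) + z ∉ P := by
  -- vertices
  have nb : ∀ v n1 n2 n3 : ℤ × ℤ, v ∈ P → ((v.2 + 1) / 3 = y ∨ (v.2 + 1) / 3 = y + 1) →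
      (∀ w, Adj w v → w = n1 ∨ w = n2 ∨ w = n3) → (∀ w, Adj v w → w = n1 ∨ w = n2 ∨ w = n3) →
      C3 P n1 v n2 ∨ C3 P n1 v n3 ∨ C3 P n2 v n3 := by
    intro v n1 n2 n3 hv hy hn hn'
    refine two hN hC hv ?_ ?_ hn hn'
    · intro h; rcases hy with hy | hy
      · exact (hh v h).1 hy
      · exact (hh v h).2 hy
    · intro h; rcases hy with hy | hy
      · exact (hl v h).1 hy
      · exact (hl v h).2 hy
  have n03 : ((3 * x + 3, 3 * y) : ℤ × ℤ) ∉ P := fun h => h0 _ h (by constructor <;> simp only <;> omega)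
  have n02 : ((3 * x + 3, 3 * y + 1) : ℤ × ℤ) ∉ P := fun h => h0 _ h (by constructor <;> simp only <;> omega)
  have n15 : ((3 * x + 2, 3 * y + 2) : ℤ × ℤ) ∉ P := fun h => h1 _ h (by constructor <;> simp only <;> omega)
  have n14 : ((3 * x + 1, 3 * y + 2) : ℤ × ℤ) ∉ P := fun h => h1 _ h (by constructor <;> simp only <;> omega)
  have n13 : ((3 * x, 3 * y + 3) : ℤ × ℤ) ∉ P := fun h => h1 _ h (by constructor <;> simp only <;> omega)
  have hf : ∀ a b : ℤ, ((1 + 3 * x, 3 * y + 3) : ℤ × ℤ) + (a, b) = (1 + 3 * x + a, 3 * y + 3 + b) := fun a b => rfl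
  -- neighbours
  have N0 : ((3 * x + 2, 3 * y) : ℤ × ℤ) ∈ P →
      C3 P (3 * x + 2, 3 * y - 1) (3 * x + 2, 3 * y) (3 * x + 1, 3 * y + 1) := by
    intro h
    have hn : ∀ w, Adj w (3 * x + 2, 3 * y) ∨ Adj (3 * x + 2, 3 * y) w →
        w = (3 * x + 2, 3 * y - 1) ∨ w = (3 * x + 1, 3 * y + 1) ∨ w = (3 * x + 3, 3 * y) := by
      intro w hw
      have := nbB (by omega) w hw
      obtain ⟨c, d⟩ := w
      simp only [Prod.mk.injEq] at this ⊢
      omega
    rcases nb _ _ _ _ h (by left; simp only; omega) (fun w hw => hn w (Or.inl hw)) (fun w hw => hn w (Or.inr hw)) with g | g | g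
    · exact g
    · exact absurd g.mem_right n03
    · exact absurd g.mem_right n03
  have N1 : ((3 * x + 1, 3 * y + 1) : ℤ × ℤ) ∈ P →
      C3 P (3 * x + 2, 3 * y) (3 * x + 1, 3 * y + 1) (3 * x, 3 * y + 1) := by
    intro h
    have hn : ∀ w, Adj w (3 * x + 1, 3 * y + 1) ∨ Adj (3 * x + 1, 3 * y + 1) w →
        w = (3 * x + 2, 3 * y) ∨ w = (3 * x, 3 * y + 1) ∨ w = (3 * x + 1, 3 * y + 2) := by
      intro w hw
      have := nbA (by omega) w hw
      obtain ⟨c, d⟩ := w
      simp only [Prod.mk.injEq] at this ⊢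
      omega
    rcases nb _ _ _ _ h (by left; simp only; omega) (fun w hw => hn w (Or.inl hw)) (fun w hw => hn w (Or.inr hw)) with g | g | g
    · exact g
    · exact absurd g.mem_right n14
    · exact absurd g.mem_right n14
  by_cases m1 : ((3 * x + 1, 3 * y + 1) : ℤ × ℤ) ∈ P
  · refine use2 (N1 m1).left (f := (1 + 3 * x, 3 * y + 3)) (a := (1, -3)) (b := (0, -2)) ?_ ?_
      (L := [(1, -3), (2, -3), (2, -2), (1, -1), (0, -1), (0, -2)]) (by decide) (by decide) ?_
    · rw [hf]; ext <;> simp only <;> omega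
    · rw [hf]; ext <;> simp only <;> omega
    · intro z hz hz'
      simp only [List.mem_cons, List.not_mem_nil, or_false] at hz
      rcases hz with rfl | rfl | rfl | rfl | rfl | rfl
      · exact absurd (by decide) hz'
      · rw [hf]; convert n03 using 2; ext <;> simp only <;> omega
      · rw [hf]; convert n02 using 2; ext <;> simp only <;> omega
      · rw [hf]; convert n15 using 2; ext <;> simp only <;> omega
      · rw [hf]; convert n14 using 2; ext <;> simp only <;> omega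
      · exact absurd (by decide) hz'
  have m0 : ((3 * x + 2, 3 * y) : ℤ × ℤ) ∉ P := fun h => m1 (N0 h).mem_right
  have N2 : ((3 * x, 3 * y + 1) : ℤ × ℤ) ∈ P →
      C3 P (3 * x, 3 * y) (3 * x, 3 * y + 1) (3 * x - 1, 3 * y + 2) := by
    intro h
    have hn : ∀ w, Adj w (3 * x, 3 * y + 1) ∨ Adj (3 * x, 3 * y + 1) w →
        w = (3 * x, 3 * y) ∨ w = (3 * x - 1, 3 * y + 2) ∨ w = (3 * x + 1, 3 * y + 1) := by
      intro w hw
      have := nbB (by omega) w hw
      obtain ⟨c, d⟩ := w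
      simp only [Prod.mk.injEq] at this ⊢
      omega
    rcases nb _ _ _ _ h (by left; simp only; omega) (fun w hw => hn w (Or.inl hw)) (fun w hw => hn w (Or.inr hw)) with g | g | g
    · exact g
    · exact absurd g.mem_right m1
    · exact absurd g.mem_right m1
  by_cases m2 : ((3 * x, 3 * y + 1) : ℤ × ℤ) ∈ P
  · have M2 := N2 m2
    have hE0 : ((3 * x - 1, 3 * y + 3) : ℤ × ℤ) ∈ P →
        C3 P (3 * x - 1, 3 * y + 2) (3 * x - 1, 3 * y + 3) (3 * x - 2, 3 * y + 4) := by
      intro h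
      have hn : ∀ w, Adj w (3 * x - 1, 3 * y + 3) ∨ Adj (3 * x - 1, 3 * y + 3) w →
          w = (3 * x - 1, 3 * y + 2) ∨ w = (3 * x - 2, 3 * y + 4) ∨ w = (3 * x, 3 * y + 3) := by
        intro w hw
        have := nbB (by omega) w hw
        obtain ⟨c, d⟩ := w
        simp only [Prod.mk.injEq] at this ⊢
        omega
      rcases nb _ _ _ _ h (by right; simp only; omega) (fun w hw => hn w (Or.inl hw)) (fun w hw => hn w (Or.inr hw)) with g | g | g
      · exact g
      · exact absurd g.mem_right n13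
      · exact absurd g.mem_right n13
    by_cases m3 : ((3 * x - 1, 3 * y + 3) : ℤ × ℤ) ∈ P
    · -- `+2`
      have hn : ∀ w, Adj w (3 * x - 1, 3 * y + 2) ∨ Adj (3 * x - 1, 3 * y + 2) w →
          w = (3 * x, 3 * y + 1) ∨ w = (3 * x - 1, 3 * y + 3) ∨ w = (3 * x - 2, 3 * y + 2) := by
        intro w hw
        have := nbA (by omega) w hw
        obtain ⟨c, d⟩ := w
        simp only [Prod.mk.injEq] at this ⊢
        omega
      have K1 : C2 P (3 * x - 1, 3 * y + 2) (3 * x, 3 * y + 1) := M2.right.symm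
      have K2 : C2 P (3 * x - 1, 3 * y + 2) (3 * x - 1, 3 * y + 3) := (hE0 m3).left
      have K : C3 P (3 * x, 3 * y + 1) (3 * x - 1, 3 * y + 2) (3 * x - 1, 3 * y + 3) := by
        rcases nb _ _ _ _ M2.mem_right (by right; simp only; omega) (fun w hw => hn w (Or.inl hw))
          (fun w hw => hn w (Or.inr hw)) with g | g | g
        · exact g
        · exfalso
          rcases g.unique hN K2 with e | e <;> simp only [Prod.mk.injEq] at e <;> omega
        · exfalso
          rcases g.unique hN K1 with e | e <;> simp only [Prod.mk.injEq] at e <;> omega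
      refine use3 K (f := (1 + 3 * x, 3 * y + 3)) (a := (-1, -2)) (b := (-2, -1)) (c := (-2, 0)) ?_ ?_ ?_
        (L := [(-1, -2), (0, -2), (0, -1), (-1, 0), (-2, 0)]) (by decide) (by decide) ?_
      · rw [hf]; ext <;> simp only <;> omega
      · rw [hf]; ext <;> simp only <;> omega
      · rw [hf]; ext <;> simp only <;> omega
      · intro z hz hz'
        simp only [List.mem_cons, List.not_mem_nil, or_false] at hz
        rcases hz with rfl | rfl | rfl | rfl | rfl
        · exact absurd (by decide) hz'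
        · rw [hf]; convert m1 using 2; ext <;> simp only <;> omega
        · rw [hf]; convert n14 using 2; ext <;> simp only <;> omega
        · rw [hf]; convert n13 using 2; ext <;> simp only <;> omega
        · exact absurd (by decide) hz'
    · refine use2 M2.right (f := (1 + 3 * x, 3 * y + 3)) (a := (-1, -2)) (b := (-2, -1)) ?_ ?_
        (L := [(-1, -2), (0, -2), (0, -1), (-1, 0), (-2, 0), (-2, -1)]) (by decide) (by decide) ?_
      · rw [hf]; ext <;> simp only <;> omega
      · rw [hf]; ext <;> simp only <;> omega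
      · intro z hz hz'
        simp only [List.mem_cons, List.not_mem_nil, or_false] at hz
        rcases hz with rfl | rfl | rfl | rfl | rfl | rfl
        · exact absurd (by decide) hz'
        · rw [hf]; convert m1 using 2; ext <;> simp only <;> omega
        · rw [hf]; convert n14 using 2; ext <;> simp only <;> omega
        · rw [hf]; convert n13 using 2; ext <;> simp only <;> omega
        · rw [hf]; convert m3 using 2; ext <;> simp only <;> omega
        · exact absurd (by decide) hz'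
  -- vertices 0, 1, 2 are not visited
  have N3 : ((3 * x, 3 * y) : ℤ × ℤ) ∈ P →
      C3 P (3 * x - 1, 3 * y) (3 * x, 3 * y) (3 * x + 1, 3 * y - 1) := by
    intro h
    have hn : ∀ w, Adj w (3 * x, 3 * y) ∨ Adj (3 * x, 3 * y) w →
        w = (3 * x - 1, 3 * y) ∨ w = (3 * x + 1, 3 * y - 1) ∨ w = (3 * x, 3 * y + 1) := by
      intro w hw
      have := nbA (by omega) w hw
      obtain ⟨c, d⟩ := w
      simp only [Prod.mk.injEq] at this ⊢
      omega
    rcases nb _ _ _ _ h (by left; simp only; omega) (fun w hw => hn w (Or.inl hw)) (fun w hw => hn w (Or.inr hw)) with g | g | g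
    · exact g
    · exact absurd g.mem_right m2
    · exact absurd g.mem_right m2
  have N5 : ((3 * x + 2, 3 * y - 1) : ℤ × ℤ) ∈ P →
      C3 P (3 * x + 3, 3 * y - 2) (3 * x + 2, 3 * y - 1) (3 * x + 1, 3 * y - 1) := by
    intro h
    have hn : ∀ w, Adj w (3 * x + 2, 3 * y - 1) ∨ Adj (3 * x + 2, 3 * y - 1) w →
        w = (3 * x + 3, 3 * y - 2) ∨ w = (3 * x + 1, 3 * y - 1) ∨ w = (3 * x + 2, 3 * y) := by
      intro w hw
      have := nbA (by omega) w hw
      obtain ⟨c, d⟩ := w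
      simp only [Prod.mk.injEq] at this ⊢
      omega
    rcases nb _ _ _ _ h (by left; simp only; omega) (fun w hw => hn w (Or.inl hw)) (fun w hw => hn w (Or.inr hw)) with g | g | g
    · exact g
    · exact absurd g.mem_right m0
    · exact absurd g.mem_right m0
  have N4 : ((3 * x + 1, 3 * y - 1) : ℤ × ℤ) ∈ P →
      C3 P (3 * x, 3 * y) (3 * x + 1, 3 * y - 1) (3 * x + 2, 3 * y - 1) ∨
      C3 P (3 * x, 3 * y) (3 * x + 1, 3 * y - 1) (3 * x + 1, 3 * y - 2) ∨
      C3 P (3 * x + 2, 3 * y - 1) (3 * x + 1, 3 * y - 1) (3 * x + 1, 3 * y - 2) := by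
    intro h
    have hn : ∀ w, Adj w (3 * x + 1, 3 * y - 1) ∨ Adj (3 * x + 1, 3 * y - 1) w →
        w = (3 * x, 3 * y) ∨ w = (3 * x + 2, 3 * y - 1) ∨ w = (3 * x + 1, 3 * y - 2) := by
      intro w hw
      have := nbB (by omega) w hw
      obtain ⟨c, d⟩ := w
      simp only [Prod.mk.injEq] at this ⊢
      omega
    exact nb _ _ _ _ h (by left; simp only; omega) (fun w hw => hn w (Or.inl hw)) (fun w hw => hn w (Or.inr hw))
  have m4 : ((3 * x + 1, 3 * y - 1) : ℤ × ℤ) ∈ P := by
    obtain ⟨z, hz, hx, hy⟩ := hv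
    have hz' : hon z := by
      obtain ⟨a, b, i, h1, h2, h3⟩ := exists_at3 hz (fun h => (hh z h).1 hy) (fun h => (hl z h).1 hy)
      exact (adj_of_idx hC h1 h2).2.1
    obtain ⟨a, b⟩ := z
    simp only [hon] at hx hy hz'
    have hc : (a = 3 * x + 2 ∧ b = 3 * y) ∨ (a = 3 * x + 1 ∧ b = 3 * y + 1) ∨ (a = 3 * x ∧ b = 3 * y + 1) ∨
        (a = 3 * x ∧ b = 3 * y) ∨ (a = 3 * x + 1 ∧ b = 3 * y - 1) ∨ (a = 3 * x + 2 ∧ b = 3 * y - 1) := by
      omega
    rcases hc with ⟨rfl, rfl⟩ | ⟨rfl, rfl⟩ | ⟨rfl, rfl⟩ | ⟨rfl, rfl⟩ | ⟨rfl, rfl⟩ | ⟨rfl, rfl⟩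
    · exact absurd hz m0
    · exact absurd hz m1
    · exact absurd hz m2
    · exact (N3 hz).mem_right
    · exact hz
    · exact (N5 hz).mem_right
  rcases N4 m4 with g | g | g
  · -- piece 3, 4, 5
    refine use3 g (f := (1 + 3 * x, 3 * y + 3)) (a := (-1, -3)) (b := (0, -4)) (c := (1, -4)) ?_ ?_ ?_
        (L := [(-1, -3), (-1, -2), (0, -2), (0, -1), (1, -1), (2, -2), (2, -3), (1, -3), (1, -4)])
        (by decide) (by decide) ?_
    · rw [hf]; ext <;> simp only <;> omega
    · rw [hf]; ext <;> simp only <;> omega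
    · rw [hf]; ext <;> simp only <;> omega
    · intro z hz hz'
      simp only [List.mem_cons, List.not_mem_nil, or_false] at hz
      rcases hz with rfl | rfl | rfl | rfl | rfl | rfl | rfl | rfl | rfl
      · exact absurd (by decide) hz'
      · rw [hf]; convert m2 using 2; ext <;> simp only <;> omega
      · rw [hf]; convert m1 using 2; ext <;> simp only <;> omega
      · rw [hf]; convert n14 using 2; ext <;> simp only <;> omega
      · rw [hf]; convert n15 using 2; ext <;> simp only <;> omega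
      · rw [hf]; convert n02 using 2; ext <;> simp only <;> omega
      · rw [hf]; convert n03 using 2; ext <;> simp only <;> omega
      · rw [hf]; convert m0 using 2; ext <;> simp only <;> omega
      · exact absurd (by decide) hz'
  · -- piece 3, 4; vertex 5 is not visited
    have m5 : ((3 * x + 2, 3 * y - 1) : ℤ × ℤ) ∉ P := by
      intro h
      rcases g.unique hN (N5 h).right.symm with e | e <;> simp only [Prod.mk.injEq] at e <;> omega
    refine use2 g.left (f := (1 + 3 * x, 3 * y + 3)) (a := (-1, -3)) (b := (0, -4)) ?_ ?_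
        (L := [(-1, -3), (-1, -2), (0, -2), (0, -1), (1, -1), (2, -2), (2, -3), (1, -3), (1, -4), (0, -4)])
        (by decide) (by decide) ?_
    · rw [hf]; ext <;> simp only <;> omega
    · rw [hf]; ext <;> simp only <;> omega
    · intro z hz hz'
      simp only [List.mem_cons, List.not_mem_nil, or_false] at hz
      rcases hz with rfl | rfl | rfl | rfl | rfl | rfl | rfl | rfl | rfl | rfl
      · exact absurd (by decide) hz'
      · rw [hf]; convert m2 using 2; ext <;> simp only <;> omega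
      · rw [hf]; convert m1 using 2; ext <;> simp only <;> omega
      · rw [hf]; convert n14 using 2; ext <;> simp only <;> omega
      · rw [hf]; convert n15 using 2; ext <;> simp only <;> omega
      · rw [hf]; convert n02 using 2; ext <;> simp only <;> omega
      · rw [hf]; convert n03 using 2; ext <;> simp only <;> omega
      · rw [hf]; convert m0 using 2; ext <;> simp only <;> omega
      · rw [hf]; convert m5 using 2; ext <;> simp only <;> omega
      · exact absurd (by decide) hz'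
  · -- piece 4, 5; vertex 3 is not visited
    have m3 : ((3 * x, 3 * y) : ℤ × ℤ) ∉ P := by
      intro h
      rcases g.unique hN (N3 h).right.symm with e | e <;> simp only [Prod.mk.injEq] at e <;> omega
    refine use2 g.left.symm (f := (1 + 3 * x, 3 * y + 3)) (a := (0, -4)) (b := (1, -4)) ?_ ?_
        (L := [(0, -4), (-1, -3), (-1, -2), (0, -2), (0, -1), (1, -1), (2, -2), (2, -3), (1, -3), (1, -4)])
        (by decide) (by decide) ?_
    · rw [hf]; ext <;> simp only <;> omega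
    · rw [hf]; ext <;> simp only <;> omega
    · intro z hz hz'
      simp only [List.mem_cons, List.not_mem_nil, or_false] at hz
      rcases hz with rfl | rfl | rfl | rfl | rfl | rfl | rfl | rfl | rfl | rfl
      · exact absurd (by decide) hz'
      · rw [hf]; convert m3 using 2; ext <;> simp only <;> omega
      · rw [hf]; convert m2 using 2; ext <;> simp only <;> omega
      · rw [hf]; convert m1 using 2; ext <;> simp only <;> omega
      · rw [hf]; convert n14 using 2; ext <;> simp only <;> omega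
      · rw [hf]; convert n15 using 2; ext <;> simp only <;> omega
      · rw [hf]; convert n02 using 2; ext <;> simp only <;> omega
      · rw [hf]; convert n03 using 2; ext <;> simp only <;> omega
      · rw [hf]; convert m0 using 2; ext <;> simp only <;> omega
      · exact absurd (by decide) hz'

end Pool.Agent.RAT.G
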