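import Pool.Agent.RAT.G.Defs
import Pool.Agent.RAT.G.Tpl

/-!
Project RAT (MP_8c6f77_pr), geometry: the 48 moves, the surgery and its effect on the thin faces.
-/

namespace Pool.Agent.RAT.X

open Pool.Agent.Hhelper14.SAW
open Pool.Agent.RAT.G

/-! ### Symmetries -/

/-- The symmetry which exchanges rows and columns. -/
def sw (z : ℤ × ℤ) : ℤ × ℤ := (z.2 + 1, z.1 - 1)
/-- Its linear part. -/
def sl (z : ℤ × ℤ) : ℤ × ℤ := (z.2, z.1)

lemma sw_sw (z : ℤ × ℤ) : sw (sw z) = z := by ext <;> simp [sw]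
lemma sl_sl (z : ℤ × ℤ) : sl (sl z) = z := rfl
lemma sw_inj : Function.Injective sw := fun x y h => by
  have := congrArg sw h
  rwa [sw_sw, sw_sw] at this
lemma sl_inj : Function.Injective sl := fun x y h => by
  have := congrArg sl h
  rwa [sl_sl, sl_sl] at this

lemma sw_add (f z : ℤ × ℤ) : sw (f + z) = sw f + sl z := by
  ext <;> simp [sw, sl] <;> ring
lemma sg_add (f z : ℤ × ℤ) : sg (f + z) = sg f + sg z := by
  ext <;> simp [sg] <;> ring

lemma adj_sw {x y : ℤ × ℤ} (h : Adj x y) : Adj (sw x) (sw y) := by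
  obtain ⟨a, b⟩ := x
  obtain ⟨c, d⟩ := y
  simp only [Adj, hon, U, sw, Prod.mk_sub_mk] at *
  omega

lemma hchain_sw {P : List (ℤ × ℤ)} (h : HChain P) : HChain (P.map sw) := by
  refine (List.isChain_map sw).2 ?_
  exact List.IsChain.imp (fun _ _ hh => adj_sw hh) h

/-! ### Places -/

/-- The replacement `t` can be made at `f`. -/
def Pl (P : List (ℤ × ℤ)) (f : ℤ × ℤ) (t : Mv) : Prop :=
  (∃ p r, P = p ++ sh f t.1 ++ r) ∧ ∀ z ∈ t.2, z ∉ t.1 → f + z ∉ P

/-- Image of a move. -/
def mm (l : ℤ × ℤ → ℤ × ℤ) (t : Mv) : Mv := (t.1.map l, t.2.map l)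

lemma Pl.map {s l : ℤ × ℤ → ℤ × ℤ} (hs : ∀ z, s (s z) = z) (hsl : ∀ f z, s (f + z) = s f + l z)
    {P : List (ℤ × ℤ)} {f : ℤ × ℤ} {t : Mv} (h : Pl (P.map s) f t) :
    Pl P (s f) (mm l t) := by
  obtain ⟨⟨p, r, h1⟩, h2⟩ := h
  have hss : ∀ L : List (ℤ × ℤ), (L.map s).map s = L := by
    intro L
    rw [List.map_map]
    have : s ∘ s = id := funext hs
    rw [this, List.map_id]
  have hsh : ∀ q : List (ℤ × ℤ), (sh f q).map s = sh (s f) (q.map l) := by
    intro q
    unfold sh
    rw [List.map_map, List.map_map]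
    refine List.map_congr_left fun z _ => ?_
    exact hsl f z
  constructor
  · refine ⟨p.map s, r.map s, ?_⟩
    have := congrArg (List.map s) h1
    rw [hss, List.map_append, List.map_append, hsh] at this
    exact this
  · intro z hz hz' hP
    simp only [mm] at hz hz'
    obtain ⟨w, hw, rfl⟩ := List.mem_map.1 hz
    refine h2 w hw (fun hc => hz' (List.mem_map.2 ⟨w, hc, rfl⟩)) ?_
    rw [← hsl] at hP
    have := List.mem_map_of_mem (f := s) hP
    rwa [hs] at this

/-- All the moves. -/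
def mv : List Mv := tp ++ tp.map (mm sg) ++ tp.map (mm sl) ++ (tp.map (mm sg)).map (mm sl)

lemma mv_length : mv.length = 48 := by decide

instance (z : ℤ × ℤ) : Decidable (U z) := by unfold U; infer_instance

/-- Properties of a move. -/
def Ok (t : Mv) : Prop :=
  t.1 ≠ [] ∧ t.2 ≠ [] ∧ t.1.head? = t.2.head? ∧ t.1.getLast? = t.2.getLast? ∧ t.2.Nodup ∧
    List.IsChain (fun x y => U (x - y)) t.2 ∧ (∀ z ∈ t.2, (z.1 - z.2) % 3 ≠ 0) ∧
    (t.2.length = t.1.length + 2 ∨ t.2.length = t.1.length + 4 ∨ t.2.length = t.1.length + 6 ∨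
      t.2.length = t.1.length + 8)

instance (t : Mv) : Decidable (Ok t) := by unfold Ok; infer_instance

lemma ok_mv : ∀ t ∈ mv, Ok t := by decide

/-- The move makes the face at the origin thin. -/
def Okt (t : Mv) : Prop :=
  ∃ i ∈ Finset.range 12, ((t.2.drop i).take 2).length = 2 ∧ (∀ z ∈ t.2.take i, ¬ U z) ∧
    (∀ z ∈ (t.2.drop i).take 2, U z) ∧ ∀ z ∈ t.2.drop (i + 2), ¬ U z

instance (t : Mv) : Decidable (Okt t) := by unfold Okt; infer_instance

lemma okt_mv : ∀ t ∈ mv, Okt t := by decide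

/-- The offset of the centre of the face of a vertex. -/
def fo (z : ℤ × ℤ) : ℤ × ℤ := fc ((1, 0) + z) - (1, 0)

lemma fc_add {f : ℤ × ℤ} (hf : Ctr f) (z : ℤ × ℤ) : fc (f + z) = f + fo z := by
  obtain ⟨a, b⟩ := f
  obtain ⟨c, d⟩ := z
  simp only [Ctr] at hf
  unfold fo fc
  simp only [Prod.mk_add_mk]
  split_ifs <;> simp only [Prod.mk_sub_mk, Prod.mk_add_mk, Prod.mk.injEq] <;> omega

/-- Three faces are touched by a move. -/
lemma okc_mv : ∀ t ∈ mv, ((t.1 ++ t.2).map fo).toFinset.card ≤ 3 := by decide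

/-- The new walk. -/
lemma surg {P : List (ℤ × ℤ)} {n : ℕ} (hP : IsWalk n P) {f : ℤ × ℤ} (hf : (f.1 - f.2) % 3 = 1) {t : Mv} (ht : Ok t)
    {p r : List (ℤ × ℤ)} (hs : P = p ++ sh f t.1 ++ r) (hn : ∀ z ∈ t.2, z ∉ t.1 → f + z ∉ P) {m : ℕ}
    (hm : m + t.1.length = n + t.2.length) : IsWalk m (p ++ sh f t.2 ++ r) := by
  obtain ⟨h1, h2, h3, h4⟩ := hP
  obtain ⟨t1, t2, t3, t4, t5, t6, t7, -⟩ := ht
  have q1 : sh f t.1 ≠ [] := by simpa [sh] using t1
  have q2 : sh f t.2 ≠ [] := by simpa [sh] using t2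
  have q3 : (sh f t.1).head? = (sh f t.2).head? := by
    unfold sh; rw [List.head?_map, List.head?_map, t3]
  have q4 : (sh f t.1).getLast? = (sh f t.2).getLast? := by
    unfold sh; rw [List.getLast?_map, List.getLast?_map, t4]
  have inj : ∀ x y : ℤ × ℤ, f + x = f + y → x = y := fun x y h => add_left_cancel h
  refine ⟨?_, ?_, ?_, ?_⟩
  · have e1 : P.length = p.length + t.1.length + r.length := by
      rw [hs]; simp [sh]; ring
    simp only [List.length_append, sh, List.length_map]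
    omega
  · rw [hs] at h2
    rw [List.nodup_append, List.nodup_append] at h2 ⊢
    obtain ⟨⟨a1, a2, a3⟩, a4, a5⟩ := h2
    have key1 : ∀ a ∈ p, ∀ b ∈ sh f t.2, a ≠ b := by
      intro a ha b hb hab
      subst hab
      obtain ⟨z, hz, rfl⟩ := List.mem_map.1 hb
      by_cases hz1 : z ∈ t.1
      · exact a3 _ ha _ (List.mem_map.2 ⟨z, hz1, rfl⟩) rfl
      · refine hn z hz hz1 ?_
        rw [hs]; simp [ha]
    have key2 : ∀ a ∈ sh f t.2, ∀ b ∈ r, a ≠ b := by
      intro a ha b hb hab
      subst hab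
      obtain ⟨z, hz, rfl⟩ := List.mem_map.1 ha
      by_cases hz1 : z ∈ t.1
      · exact a5 _ (by
          rw [List.mem_append]; right
          exact List.mem_map.2 ⟨z, hz1, rfl⟩) _ hb rfl
      · refine hn z hz hz1 ?_
        rw [hs]; simp [hb]
    refine ⟨⟨a1, ?_, key1⟩, a4, ?_⟩
    · exact (List.nodup_map_iff_inj_on t5).2 (fun x _ y _ h => inj x y h)
    · intro a ha b hb
      rcases List.mem_append.1 ha with ha | ha
      · exact a5 a (List.mem_append.2 (Or.inl ha)) b hb
      · exact key2 a ha b hb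
  · have hc : List.IsChain Adj (sh f t.2) := by
      unfold sh
      refine (List.isChain_map _).2 ?_
      have h6 : List.IsChain (fun x y => U (x - y) ∧ ((x.1 - x.2) % 3 ≠ 0 ∧ (y.1 - y.2) % 3 ≠ 0)) t.2 := by
        rw [List.isChain_iff_getElem] at t6 ⊢
        intro i hi
        exact ⟨t6 i hi, t7 _ (List.getElem_mem _), t7 _ (List.getElem_mem _)⟩
      refine h6.imp ?_
      rintro ⟨a, b⟩ ⟨c, d⟩ ⟨h, h7, h8⟩
      refine ⟨?_, ?_, ?_⟩
      · simp only [hon, Prod.fst_add, Prod.snd_add] at *; omega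
      · simp only [hon, Prod.fst_add, Prod.snd_add] at *; omega
      · have e : f + (a, b) - (f + (c, d)) = (a, b) - (c, d) := by abel
        rw [e]; exact h
    have h3' : List.IsChain Adj (p ++ sh f t.1 ++ r) := by rw [← hs]; exact h3
    exact chain_swap q1 q2 q3 q4 h3' hc
  · rw [hs] at h4
    rw [List.getLast?_append, List.getLast?_append] at h4 ⊢
    rw [← q4]
    cases hr : r.getLast? with
    | some z => rw [hr] at h4; exact h4
    | none =>
      rw [hr] at h4
      simp only [Option.none_or] at h4 ⊢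
      cases hq : (sh f t.1).getLast? with
      | some z => rw [hq] at h4; exact h4
      | none => exact absurd (List.getLast?_eq_none_iff.1 hq) q1

/-- The face at `f` becomes thin. -/
lemma surg_thin {P : List (ℤ × ℤ)} {f : ℤ × ℤ} (hf : Ctr f) {t : Mv} (hk : Okt t) (hh : ∀ z ∈ t.2, (z.1 - z.2) % 3 ≠ 0)
    {p r : List (ℤ × ℤ)} (hs : P = p ++ sh f t.1 ++ r) (hn : ∀ z ∈ P, fc z ≠ f) :
    Piece 1 f (p ++ sh f t.2 ++ r) := by
  obtain ⟨i, -, k1, k2, k3, k4⟩ := hk
  have hfc : ∀ z ∈ t.2, (fc (f + z) = f ↔ U z) := by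
    intro z hz
    constructor
    · intro h
      have h7 := hh z hz
      have hon' : hon (f + z) := by
        obtain ⟨a, b⟩ := f
        obtain ⟨c, d⟩ := z
        simp only [Ctr, hon, Prod.mk_add_mk] at *
        omega
      have := (fc_spec hon').2
      rw [h] at this
      have e : f + z - f = z := by abel
      rwa [e] at this
    · intro h
      refine (fc_of hf ?_).2
      have e : f + z - f = z := by abel
      rw [e]; exact h
  refine ⟨p ++ sh f (t.2.take i), sh f ((t.2.drop i).take 2), sh f (t.2.drop (i + 2)) ++ r, ?_, ?_, ?_, ?_, ?_⟩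
  · have e : sh f t.2 = sh f (t.2.take i) ++ sh f ((t.2.drop i).take 2) ++ sh f (t.2.drop (i + 2)) := by
      unfold sh
      rw [← List.map_append, ← List.map_append]
      congr 1
      have e2 : t.2.drop (i + 2) = (t.2.drop i).drop 2 := by rw [List.drop_drop]
      rw [e2, List.append_assoc, List.take_append_drop, List.take_append_drop]
    rw [e]
    simp only [List.append_assoc]
  · unfold sh; rw [List.length_map, k1]
  · intro z hz
    obtain ⟨w, hw, rfl⟩ := List.mem_map.1 hz
    have hw2 : w ∈ t.2 := List.mem_of_mem_drop (List.mem_of_mem_take hw)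
    exact (hfc w hw2).2 (k3 w hw)
  · intro z hz
    rcases List.mem_append.1 hz with hz | hz
    · exact hn z (by rw [hs]; simp [hz])
    · obtain ⟨w, hw, rfl⟩ := List.mem_map.1 hz
      exact fun h => k2 w hw ((hfc w (List.mem_of_mem_take hw)).1 h)
  · intro z hz
    rcases List.mem_append.1 hz with hz | hz
    · obtain ⟨w, hw, rfl⟩ := List.mem_map.1 hz
      exact fun h => k4 w hw ((hfc w (List.mem_of_mem_drop hw)).1 h)
    · exact hn z (by rw [hs]; simp [hz])

/-- Position of a piece disjoint from `s`. -/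
lemma split_pos {α : Type*} {p s r p' q r' : List α} (hs : s ≠ []) (hq : q ≠ []) (hd : ∀ z ∈ q, z ∉ s)
    (h : p ++ s ++ r = p' ++ q ++ r') :
    (∃ a, p = p' ++ q ++ a ∧ r' = a ++ s ++ r) ∨ (∃ a, r = a ++ q ++ r' ∧ p' = p ++ s ++ a) := by
  rw [List.append_assoc, List.append_assoc] at h
  -- compare `s ++ r` and `q ++ r'`-type equalities
  have aux : ∀ (a s q r r' : List α), s ≠ [] → q ≠ [] → (∀ z ∈ q, z ∉ s) → s ++ r = a ++ (q ++ r') →
      ∃ b, a = s ++ b ∧ r = b ++ q ++ r' := by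
    intro a
    induction a with
    | nil =>
      intro s q r r' hs hq hd h
      exfalso
      match s, q, hs, hq with
      | x :: s, y :: q, _, _ =>
        simp only [List.nil_append, List.cons_append, List.cons.injEq] at h
        exact hd y (by simp) (by rw [h.1]; simp)
    | cons c a ih =>
      intro s q r r' hs hq hd h
      match s, hs with
      | x :: s, _ =>
        simp only [List.cons_append, List.cons.injEq] at h
        obtain ⟨rfl, h⟩ := h
        by_cases hs0 : s = []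
        · subst hs0
          refine ⟨a, by simp, ?_⟩
          rw [List.nil_append] at h
          rw [h, List.append_assoc]
        · obtain ⟨b, rfl, hb⟩ := ih s q r r' hs0 hq (fun z hz hz' => hd z hz (by simp [hz'])) h
          exact ⟨b, rfl, hb⟩
  rcases List.append_eq_append_iff.1 h with ⟨a, h1, h2⟩ | ⟨a, h1, h2⟩
  · -- p' = p ++ a, s ++ r = a ++ (q ++ r')
    obtain ⟨b, rfl, hb⟩ := aux a s q r r' hs hq hd h2
    exact Or.inr ⟨b, hb, by rw [h1, List.append_assoc]⟩
  · -- p = p' ++ a, q ++ r' = a ++ (s ++ r)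
    obtain ⟨b, rfl, hb⟩ := aux a q s r' r hq hs (fun z hz hz' => hd z hz' hz) h2
    exact Or.inl ⟨b, by rw [h1, List.append_assoc], hb⟩

/-- Faces which are not touched keep their state. -/
lemma piece_swap {k : ℕ} {c : ℤ × ℤ} {p s s' r : List (ℤ × ℤ)} (hs : s ≠ []) (h1 : ∀ z ∈ s, fc z ≠ c)
    (h2 : ∀ z ∈ s', fc z ≠ c) (h : Piece k c (p ++ s ++ r)) : Piece k c (p ++ s' ++ r) := by
  obtain ⟨p', q, r', e, hl, hq, hp, hr⟩ := h
  have hq0 : q ≠ [] := by rintro rfl; simp at hl
  rcases split_pos hs hq0 (fun z hz hz' => h1 z hz' (hq z hz)) e with ⟨a, rfl, rfl⟩ | ⟨a, rfl, rfl⟩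
  · refine ⟨p', q, a ++ s' ++ r, by simp only [List.append_assoc], hl, hq, hp, ?_⟩
    intro z hz
    simp only [List.mem_append] at hz
    rcases hz with (hz | hz) | hz
    · exact hr z (by simp [hz])
    · exact h2 z hz
    · exact hr z (by simp [hz])
  · refine ⟨p ++ s' ++ a, q, r', by simp only [List.append_assoc], hl, hq, ?_, hr⟩
    intro z hz
    simp only [List.mem_append] at hz
    rcases hz with (hz | hz) | hz
    · exact hp z (by simp [hz])
    · exact h2 z hz
    · exact hp z (by simp [hz])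

/-- The number of thin faces increases by at most three. -/
lemma surg_count {b : Bool} {f : ℤ × ℤ} (hf : Ctr f) {t : Mv} (ht : t.2 ≠ [])
    (hk : ((t.1 ++ t.2).map fo).toFinset.card ≤ 3) {p r : List (ℤ × ℤ)} :
    thin b (p ++ sh f t.2 ++ r) ≤ thin b (p ++ sh f t.1 ++ r) + 3 := by
  classical
  set T : Finset (ℤ × ℤ) := (((t.1 ++ t.2).map fo).toFinset).image (fun z => f + z) with hT
  have hT3 : T.card ≤ 3 := Finset.card_image_le.trans hk
  have q2 : sh f t.2 ≠ [] := by simpa [sh] using ht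
  have hmem : ∀ z ∈ t.1 ++ t.2, fc (f + z) ∈ T := by
    intro z hz
    rw [hT, Finset.mem_image]
    exact ⟨fo z, by rw [List.mem_toFinset]; exact List.mem_map_of_mem hz, (fc_add hf z).symm⟩
  have hsub : faces 1 b (p ++ sh f t.2 ++ r) ⊆ faces 1 b (p ++ sh f t.1 ++ r) ∪ T := by
    intro c hc
    rw [Finset.mem_union]
    by_cases hcT : c ∈ T
    · exact Or.inr hcT
    · left
      rw [mem_faces] at hc ⊢
      refine ⟨hc.1, piece_swap q2 ?_ ?_ hc.2⟩
      · intro z hz he
        obtain ⟨w, hw, rfl⟩ := List.mem_map.1 hz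
        exact hcT (he ▸ hmem w (by simp [hw]))
      · intro z hz he
        obtain ⟨w, hw, rfl⟩ := List.mem_map.1 hz
        exact hcT (he ▸ hmem w (by simp [hw]))
  unfold thin
  calc _ ≤ (faces 1 b (p ++ sh f t.1 ++ r) ∪ T).card := Finset.card_le_card hsub
    _ ≤ _ := (Finset.card_union_le _ _).trans (by omega)

/-- The new walk, the face and the move determine the old walk. -/
lemma surg_inj {f : ℤ × ℤ} {t : Mv} (ht : t.2 ≠ []) {p r p' r' : List (ℤ × ℤ)}
    (hN : (p ++ sh f t.2 ++ r).Nodup) (h : p ++ sh f t.2 ++ r = p' ++ sh f t.2 ++ r') :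
    p ++ sh f t.1 ++ r = p' ++ sh f t.1 ++ r' := by
  have key : p.length = p'.length := by
    match hq : t.2, ht with
    | z :: l, _ =>
      rw [hq] at h hN
      have e1 : (p ++ sh f (z :: l) ++ r)[p.length]? = some (f + z) := by
        simp [sh]
      have e2 : (p' ++ sh f (z :: l) ++ r')[p'.length]? = some (f + z) := by
        simp [sh]
      rw [← h] at e2
      exact idx_inj hN e1 e2
  rw [List.append_assoc, List.append_assoc] at h
  obtain ⟨h1, h2⟩ := List.append_inj h key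
  obtain ⟨h3, h4⟩ := List.append_inj h2 rfl
  rw [h1, h4]

end Pool.Agent.RAT.X
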