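import Pool.Agent.RAT.G.Tmpl

/-!
RAT, geometry, MODULE Mult: at most 72 walks `P` lead to a given pair (`P'`, thin face `c1`).

For given `s, m, o : Bool` and template `t` (9 of them) `P` is determined by `P'`: `P' = p ++ q' ++ r` (mapped by
`Sy s m`) with `q' = ori o (sh c t.2)` not empty and `P'` without repetitions determines `p` and `r`
(`List.append_inj` after `idxOf`: if `p ++ q' ++ r = p2 ++ q' ++ r2` is nodup and `q'` has the first element `x`, then
`p.length = idxOf x = p2.length`), so `P.map (Sy s m) = p ++ ori o (sh c t.1) ++ r` is determined, and `Sy s m` is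
injective. Here `c = Sy s m c1 - (0,3)`. So `P` goes injectively to `(s, m, o, t)`: 2 * 2 * 2 * 9 = 72
(`Finset.card_le_card_of_injOn` into `Finset.univ ×ˢ Finset.univ ×ˢ Finset.univ ×ˢ Tm.toFinset`, `decide` for the card
of `Tm.toFinset`, or index the templates by `Fin 9`).
-/

namespace Pool.Agent.RAT

open Pool.Agent.Hhelper14.SAW

private lemma rpl_unique {c : ℤ × ℤ} {t : List (ℤ × ℤ) × List (ℤ × ℤ)} (ht : t ∈ Tm) {o : Bool}
    {P P2 P' : List (ℤ × ℤ)} (hn : P'.Nodup) (h1 : Rpl c t o P P') (h2 : Rpl c t o P2 P') : P = P2 := by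
  obtain ⟨p, r, rfl, e⟩ := h1
  obtain ⟨p2, r2, rfl, e2⟩ := h2
  have hne : ori o (sh c t.2) ≠ [] := by
    have h := (tm_ne t ht).2
    unfold ori sh
    split_ifs <;> simpa using h
  obtain ⟨x, q, hq⟩ := List.exists_cons_of_ne_nil hne
  rw [hq] at e e2
  rw [e, List.append_assoc, List.cons_append] at hn
  have hx : x ∉ p ∧ x ∉ q ++ r := by
    have h3 := List.nodup_append.1 hn
    refine ⟨fun h => h3.2.2 x h x (by simp) rfl, (List.nodup_cons.1 h3.2.1).1⟩
  have h4 : p2 ++ x :: (q ++ r2) = p ++ x :: (q ++ r) := by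
    rw [← List.cons_append, ← List.append_assoc, ← e2, e, List.append_assoc, List.cons_append]
  have h5 : p ++ x :: (q ++ r) = p2 ++ x :: (q ++ r2) := h4.symm
  have hn2 := hn
  rw [h5] at hn2
  have hx2 : x ∉ p2 ∧ x ∉ q ++ r2 := by
    have h3 := List.nodup_append.1 hn2
    refine ⟨fun h => h3.2.2 x h x (by simp) rfl, (List.nodup_cons.1 h3.2.1).1⟩
  obtain ⟨a1, -, a3⟩ := (List.append_cons_inj_of_notMem hx.1 hx.2).1 h5
  rw [a1, List.append_cancel_left a3]

theorem mult {P' : List (ℤ × ℤ)} (hn : P'.Nodup) (c1 : ℤ × ℤ) (A : Finset (List (ℤ × ℤ)))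
    (hA : ∀ P ∈ A, ∃ s m o : Bool, ∃ t ∈ Tm,
      Rpl (Sy s m c1 - (0, 3)) t o (P.map (Sy s m)) (P'.map (Sy s m))) : A.card ≤ 72 := by
  classical
  choose! s m o t ht hR using hA
  have hcard : (Finset.univ ×ˢ (Finset.univ ×ˢ (Finset.univ ×ˢ Tm.toFinset)) :
      Finset (Bool × Bool × Bool × (List (ℤ × ℤ) × List (ℤ × ℤ)))).card ≤ 72 := by
    rw [Finset.card_product, Finset.card_product, Finset.card_product, Finset.card_univ, Fintype.card_bool]
    have h9 : Tm.toFinset.card ≤ 9 := List.toFinset_card_le Tm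
    omega
  refine (Finset.card_le_card_of_injOn (fun P => (s P, m P, o P, t P)) ?_ ?_).trans hcard
  · intro P hP
    simp only [Finset.coe_product, Finset.coe_univ, Set.mem_prod, Set.mem_univ, true_and, Finset.mem_coe,
      List.mem_toFinset]
    exact ht P hP
  · intro P hP P2 hP2 h
    simp only [Prod.mk.injEq] at h
    obtain ⟨e1, e2, e3, e4⟩ := h
    have h1 := hR P hP
    have h2 := hR P2 hP2
    rw [← e1, ← e2, ← e3, ← e4] at h2
    have h3 := rpl_unique (ht P hP) (nodup_Sy.2 hn) h1 h2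
    exact List.map_injective_iff.2 (fun _ _ hh => Sy_inj hh) h3

end Pool.Agent.RAT
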