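import Pool.Agent.RAT.G.Many

/-!
Project RAT (MP_8c6f77_pr), geometry: the recursion for the walks with few thin faces.
-/

namespace Pool.Agent.RAT.X

open Pool.Agent.Hhelper14.SAW
open Pool.Agent.RAT.G

/-- The new walk of a place. -/
lemma place_new {b : Bool} {n : ℕ} {P : List (ℤ × ℤ)} (hP : P ∈ WF b n) {f : ℤ × ℤ} {t : Mv} (ht : t ∈ mv)
    (hg : GP b P f t) : ∃ p r, P = p ++ sh f t.1 ++ r ∧
      (p ++ sh f t.2 ++ r) ∈ WF b (n + (t.2.length - t.1.length)) ∧
      f ∈ faces 1 b (p ++ sh f t.2 ++ r) ∧ thin b (p ++ sh f t.2 ++ r) ≤ thin b P + 3 := by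
  obtain ⟨hw, hD⟩ := mem_WF.1 hP
  obtain ⟨hc, hin, hfc, ⟨⟨p, r, hs⟩, hn⟩, hdom⟩ := hg
  have hok := ok_mv t ht
  have hlen : t.1.length ≤ t.2.length := by
    obtain ⟨-, -, -, -, -, -, -, h⟩ := hok
    omega
  refine ⟨p, r, hs, ?_, ?_, ?_⟩
  · rw [mem_WF]
    refine ⟨surg hw (f := f) ?_ hok hs hn (by omega), ?_⟩
    · obtain ⟨c1, c2⟩ := hc; omega
    · intro z hz
      simp only [List.mem_append] at hz
      rcases hz with (hz | hz) | hz
      · exact hD z (by rw [hs]; simp [hz])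
      · obtain ⟨w, hw', rfl⟩ := List.mem_map.1 hz
        exact hdom w hw'
      · exact hD z (by rw [hs]; simp [hz])
  · rw [mem_faces]
    exact ⟨hin, surg_thin hc (okt_mv t ht) hok.2.2.2.2.2.2.1 hs hfc⟩
  · have := surg_count (b := b) (f := f) hc hok.2.1 (okc_mv t ht) (p := p) (r := r)
    rw [← hs] at this
    exact this

open Classical in
/-- Walks with at most `j` thin faces. -/
noncomputable def fewT (b : Bool) (n j : ℕ) : ℕ := ((WF b n).filter fun P => thin b P ≤ j).card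

lemma fewT_mono (b : Bool) (n : ℕ) {i j : ℕ} (h : i ≤ j) : fewT b n i ≤ fewT b n j := by
  classical
  unfold fewT
  refine Finset.card_le_card ?_
  intro P hP
  rw [Finset.mem_filter] at hP ⊢
  exact ⟨hP.1, hP.2.trans h⟩

/-- Number of pairs (walk, thin face). -/
lemma pairs_card (b : Bool) (m j : ℕ) :
    (((WF b m).filter fun P => thin b P ≤ j).sigma fun P => faces 1 b P).card ≤ j * fewT b m j := by
  classical
  rw [Finset.card_sigma]
  calc ∑ P ∈ (WF b m).filter (fun P => thin b P ≤ j), (faces 1 b P).card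
      ≤ ∑ P ∈ (WF b m).filter (fun P => thin b P ≤ j), j := by
        refine Finset.sum_le_sum fun P hP => ?_
        rw [Finset.mem_filter] at hP
        exact hP.2
    _ = j * fewT b m j := by
        rw [Finset.sum_const, smul_eq_mul, mul_comm]
        rfl

lemma le_sum4 {F : ℕ → ℕ} {n d : ℕ} (h : d = 2 ∨ d = 4 ∨ d = 6 ∨ d = 8) :
    F (n + d) ≤ F (n + 2) + F (n + 4) + F (n + 6) + F (n + 8) := by
  rcases h with rfl | rfl | rfl | rfl <;> omega

/-- The recursion. -/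
theorem rec_aux (b : Bool) (n : ℕ) (hn : 5184 ≤ n) (j : ℕ) :
    Real.sqrt n / 24 * (fewT b n j : ℝ) ≤
      48 * ((j : ℝ) + 3) * ((fewT b (n + 2) (j + 3) : ℝ) + fewT b (n + 4) (j + 3) +
        fewT b (n + 6) (j + 3) + fewT b (n + 8) (j + 3)) := by
  classical
  set F := (WF b n).filter fun P => thin b P ≤ j with hF
  have hch : ∀ P ∈ F, ∃ S : Finset (ℤ × ℤ), Real.sqrt n / 24 ≤ S.card ∧ ∀ f ∈ S, ∃ t ∈ mv, GP b P f t := by
    intro P hP
    exact many_places b hn (Finset.mem_filter.1 hP).1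
  choose! S hS1 hS2 using hch
  -- the data of a place
  have hch2 : ∀ x ∈ F.sigma S, ∃ y : Mv × List (ℤ × ℤ), y.1 ∈ mv ∧ ∃ p r, x.1 = p ++ sh x.2 y.1.1 ++ r ∧
      y.2 = p ++ sh x.2 y.1.2 ++ r ∧ y.2 ∈ WF b (n + (y.1.2.length - y.1.1.length)) ∧ x.2 ∈ faces 1 b y.2 ∧
      thin b y.2 ≤ j + 3 := by
    rintro ⟨P, f⟩ hx
    rw [Finset.mem_sigma] at hx
    obtain ⟨hP, hf⟩ := hx
    obtain ⟨t, ht, hg⟩ := hS2 P hP f hf
    rw [hF, Finset.mem_filter] at hP
    obtain ⟨p, r, h1, h2, h3, h4⟩ := place_new hP.1 ht hg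
    exact ⟨(t, p ++ sh f t.2 ++ r), ht, p, r, h1, rfl, h2, h3, h4.trans (Nat.add_le_add_right hP.2 3)⟩
  choose! Y hY1 hY2 using hch2
  set T : Finset Mv := mv.toFinset with hT
  have hTc : T.card ≤ 48 := by
    rw [hT]
    exact (List.toFinset_card_le _).trans (by rw [mv_length])
  -- the target
  set B : Mv → Finset ((_ : List (ℤ × ℤ)) × (ℤ × ℤ)) := fun t =>
    ((WF b (n + (t.2.length - t.1.length))).filter fun P => thin b P ≤ j + 3).sigma fun P => faces 1 b P with hB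
  have hcard : (F.sigma S).card ≤ (T.sigma B).card := by
    refine Finset.card_le_card_of_injOn (fun x => ⟨(Y x).1, ⟨(Y x).2, x.2⟩⟩) ?_ ?_
    · intro x hx
      rw [Finset.mem_coe] at hx
      obtain ⟨p, r, h1, h2, h3, h4, h5⟩ := hY2 x hx
      rw [Finset.mem_coe, Finset.mem_sigma, hT, List.mem_toFinset, hB]
      refine ⟨hY1 x hx, ?_⟩
      rw [Finset.mem_sigma, Finset.mem_filter]
      exact ⟨⟨h3, h5⟩, h4⟩
    · intro x hx x' hx' he
      rw [Finset.mem_coe] at hx hx'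
      simp only [Sigma.mk.injEq, heq_eq_eq] at he
      obtain ⟨e1, e2, e3⟩ := he
      obtain ⟨p, r, h1, h2, h3, h4, h5⟩ := hY2 x hx
      obtain ⟨p', r', g1, g2, g3, g4, g5⟩ := hY2 x' hx'
      have hok := ok_mv _ (hY1 x hx)
      obtain ⟨P, f⟩ := x
      obtain ⟨P', f'⟩ := x'
      simp only at *
      subst e3
      rw [e1] at h1 h2 hok h3
      have hnd : (Y ⟨P', f⟩).2.Nodup := (mem_WF.1 g3).1.2.1
      rw [e2] at h2
      have := surg_inj (f := f) (t := (Y ⟨P', f⟩).1) hok.2.1 (p := p) (r := r) (p' := p') (r' := r')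
        (by rw [← h2]; exact hnd) (h2.symm.trans g2)
      rw [← h1, ← g1] at this
      rw [this]
  have hlow : Real.sqrt n / 24 * (fewT b n j : ℝ) ≤ ((F.sigma S).card : ℝ) := by
    rw [Finset.card_sigma]
    push_cast
    have : Real.sqrt n / 24 * (fewT b n j : ℝ) = ∑ P ∈ F, Real.sqrt n / 24 := by
      rw [Finset.sum_const, nsmul_eq_mul, mul_comm]
      congr 2
    rw [this]
    exact Finset.sum_le_sum fun P hP => hS1 P hP
  have hup : ((T.sigma B).card : ℝ) ≤ 48 * ((j : ℝ) + 3) * ((fewT b (n + 2) (j + 3) : ℝ) + fewT b (n + 4) (j + 3) +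
        fewT b (n + 6) (j + 3) + fewT b (n + 8) (j + 3)) := by
    have h1 : (T.sigma B).card ≤ 48 * ((j + 3) * (fewT b (n + 2) (j + 3) + fewT b (n + 4) (j + 3) +
        fewT b (n + 6) (j + 3) + fewT b (n + 8) (j + 3))) := by
      rw [Finset.card_sigma]
      calc ∑ t ∈ T, (B t).card ≤ ∑ t ∈ T, ((j + 3) * (fewT b (n + 2) (j + 3) + fewT b (n + 4) (j + 3) +
            fewT b (n + 6) (j + 3) + fewT b (n + 8) (j + 3))) := by
            refine Finset.sum_le_sum fun t ht => ?_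
            rw [hT, List.mem_toFinset] at ht
            refine (pairs_card b _ (j + 3)).trans (Nat.mul_le_mul_left _ ?_)
            obtain ⟨-, -, -, -, -, -, -, h⟩ := ok_mv t ht
            exact le_sum4 (F := fun m => fewT b m (j + 3)) (by omega)
        _ ≤ _ := by
            rw [Finset.sum_const, smul_eq_mul]
            exact Nat.mul_le_mul_right _ hTc
    calc ((T.sigma B).card : ℝ) ≤ ((48 * ((j + 3) * (fewT b (n + 2) (j + 3) + fewT b (n + 4) (j + 3) +
        fewT b (n + 6) (j + 3) + fewT b (n + 8) (j + 3))) : ℕ) : ℝ) := by exact_mod_cast h1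
      _ = _ := by push_cast; ring
  calc _ ≤ ((F.sigma S).card : ℝ) := hlow
    _ ≤ ((T.sigma B).card : ℝ) := by exact_mod_cast hcard
    _ ≤ _ := hup

/-- The form of the interface. -/
theorem rec_aux' (b : Bool) (n : ℕ) (hn : 5184 ≤ n) (j : ℕ) :
    Real.sqrt n / 24 * (fewT b n j : ℝ) ≤
      72 * ((j : ℝ) + 4) * ((fewT b (n + 2) (j + 4) : ℝ) + fewT b (n + 4) (j + 4) +
        fewT b (n + 6) (j + 4) + fewT b (n + 8) (j + 4)) := by
  refine (rec_aux b n hn j).trans ?_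
  have hm : ∀ m, (fewT b m (j + 3) : ℝ) ≤ fewT b m (j + 4) := fun m => by
    exact_mod_cast fewT_mono b m (by omega)
  have h0 : ∀ m, (0 : ℝ) ≤ fewT b m (j + 3) := fun m => Nat.cast_nonneg _
  refine mul_le_mul ?_ ?_ ?_ ?_
  · have : (0 : ℝ) ≤ j := Nat.cast_nonneg _
    nlinarith
  · linarith [hm (n + 2), hm (n + 4), hm (n + 6), hm (n + 8)]
  · linarith [h0 (n + 2), h0 (n + 4), h0 (n + 6), h0 (n + 8)]
  · positivity

end Pool.Agent.RAT.X
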