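import Pool.Agent.RAT.G.Mov

/-!
Project RAT (MP_8c6f77_pr), geometry: many places for the moves (rows and columns).
-/

namespace Pool.Agent.RAT.X

open Pool.Agent.Hhelper14.SAW
open Pool.Agent.RAT.G

/-- Column of a vertex. -/
def co (z : ℤ × ℤ) : ℤ := z.1 / 3
/-- Row of a vertex. -/
def ro (z : ℤ × ℤ) : ℤ := (z.2 + 1) / 3

lemma co_sw (z : ℤ × ℤ) : co (sw z) = ro z := rfl
lemma ro_sw (z : ℤ × ℤ) : ro (sw z) = co z := by
  unfold ro co sw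
  simp only
  congr 1
  ring
lemma ro_sg (z : ℤ × ℤ) : ro (sg z) = - ro z := by
  unfold ro sg
  simp only
  omega
lemma co_sg {z : ℤ × ℤ} (h : hon z) : co (sg z) = co z + ro z := by
  obtain ⟨a, b⟩ := z
  unfold ro co sg
  simp only [hon] at *
  have h1 : a % 3 = 0 ∨ a % 3 = 1 ∨ a % 3 = 2 := by omega
  have h2 : b % 3 = 0 ∨ b % 3 = 1 ∨ b % 3 = 2 := by omega
  rcases h1 with h1 | h1 | h1 <;> rcases h2 with h2 | h2 | h2 <;> omega

lemma fc_eq {z : ℤ × ℤ} (h : hon z) : fc z = (3 * co z + 1, 3 * ro z) := by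
  obtain ⟨a, b⟩ := z
  unfold fc ro co
  simp only [hon] at *
  split_ifs <;> simp only [Prod.mk.injEq] <;> omega

lemma ro_adj {x y : ℤ × ℤ} (h : Adj x y) : ro x ≤ ro y + 1 ∧ ro y ≤ ro x + 1 := by
  obtain ⟨a, b⟩ := x
  obtain ⟨c, d⟩ := y
  simp only [Adj, hon, U, Prod.mk_sub_mk] at h
  unfold ro
  simp only
  omega

/-! ### Domains -/

lemma dom1 {x y : ℤ} {t : Mv} (ht : t ∈ tp) (h : ∀ z ∈ t.1, 0 ≤ F0 ((1 + 3 * x, 3 * y + 3) + z)) :
    2 ≤ F0 (1 + 3 * x, 3 * y + 3) ∧ ∀ z ∈ t.2, 0 ≤ F0 ((1 + 3 * x, 3 * y + 3) + z) := by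
  simp only [tp, tp0, List.map_cons, List.map_nil, List.cons_append, List.nil_append, List.mem_cons,
    List.not_mem_nil, or_false, List.reverse_cons, List.reverse_nil] at ht
  rcases ht with rfl | rfl | rfl | rfl | rfl | rfl | rfl | rfl | rfl | rfl | rfl | rfl <;>
  · simp only [F0, List.mem_cons, List.not_mem_nil, or_false, forall_eq_or_imp, forall_eq, Prod.mk_add_mk] at h ⊢
    omega

lemma dom2 {x y : ℤ} {t : Mv} (ht : t ∈ tp) (h : ∀ z ∈ t.1, 0 ≤ F0 (sw ((1 + 3 * x, 3 * y + 3) + z))) :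
    2 ≤ F0 (sw (1 + 3 * x, 3 * y + 3)) ∧ ∀ z ∈ t.2, 0 ≤ F0 (sw ((1 + 3 * x, 3 * y + 3) + z)) := by
  simp only [tp, tp0, List.map_cons, List.map_nil, List.cons_append, List.nil_append, List.mem_cons,
    List.not_mem_nil, or_false, List.reverse_cons, List.reverse_nil] at ht
  rcases ht with rfl | rfl | rfl | rfl | rfl | rfl | rfl | rfl | rfl | rfl | rfl | rfl <;>
  · simp only [F0, sw, List.mem_cons, List.not_mem_nil, or_false, forall_eq_or_imp, forall_eq,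
      Prod.mk_add_mk] at h ⊢
    omega

lemma dom3 {x y : ℤ} {t : Mv} (ht : t ∈ tp) (h : ∀ z ∈ t.1, 0 ≤ F0 (sg ((1 + 3 * x, 3 * y + 3) + z))) :
    2 ≤ F0 (sg (1 + 3 * x, 3 * y + 3)) ∧ ∀ z ∈ t.2, 0 ≤ F0 (sg ((1 + 3 * x, 3 * y + 3) + z)) := by
  have e : ∀ z, F0 (sg z) = F0 z := by
    intro z; simp only [F0, sg]; ring
  simp only [e] at h ⊢
  exact dom1 ht h

lemma dom4 {x y : ℤ} (hxy : y + 1 ≤ x) {t : Mv} (ht : t ∈ tp)
    (h : ∀ z ∈ t.1, 0 ≤ F0 (sw (sg ((1 + 3 * x, 3 * y + 3) + z)))) :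
    2 ≤ F0 (sw (sg (1 + 3 * x, 3 * y + 3))) ∧ ∀ z ∈ t.2, 0 ≤ F0 (sw (sg ((1 + 3 * x, 3 * y + 3) + z))) := by
  simp only [tp, tp0, List.map_cons, List.map_nil, List.cons_append, List.nil_append, List.mem_cons,
    List.not_mem_nil, or_false, List.reverse_cons, List.reverse_nil] at ht
  rcases ht with rfl | rfl | rfl | rfl | rfl | rfl | rfl | rfl | rfl | rfl | rfl | rfl <;>
  · simp only [F0, sw, sg, List.mem_cons, List.not_mem_nil, or_false, forall_eq_or_imp, forall_eq,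
      Prod.mk_add_mk] at h ⊢
    omega

/-! ### Places in a pair of rows -/

lemma topI {Q : List (ℤ × ℤ)} (hN : Q.Nodup) (hC : HChain Q) (hH : ∀ z ∈ Q, hon z) {x y : ℤ}
    (hv : ∃ z ∈ Q, co z = x ∧ ro z = y) (h0 : ∀ z ∈ Q, ro z = y → co z ≤ x)
    (h1 : ∀ z ∈ Q, ro z = y + 1 → co z < x)
    (hh : ∀ z, Q.head? = some z → ro z ≠ y ∧ ro z ≠ y + 1)
    (hl : ∀ z, Q.getLast? = some z → ro z ≠ y ∧ ro z ≠ y + 1) :
    ∃ t ∈ tp, Pl Q (1 + 3 * x, 3 * y + 3) t ∧ ∀ z ∈ Q, fc z ≠ (1 + 3 * x, 3 * y + 3) := by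
  obtain ⟨t, ht, h2, h3⟩ := loc (x := x) (y := y) hN hC hv
    (fun z hz hc => by
      have := h0 z hz hc.2
      have h4 : co z = x + 1 := hc.1
      omega)
    (fun z hz hc => by
      have := h1 z hz hc.2
      have h4 : co z = x := hc.1
      omega) hh hl
  refine ⟨t, ht, ⟨h2, h3⟩, ?_⟩
  intro z hz he
  rw [fc_eq (hH z hz)] at he
  simp only [Prod.mk.injEq] at he
  have := h1 z hz (by omega)
  omega

lemma hon_sw {z : ℤ × ℤ} (h : hon z) : hon (sw z) := by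
  obtain ⟨a, b⟩ := z
  simp only [hon, sw] at *
  omega

lemma topII {Q : List (ℤ × ℤ)} (hN : Q.Nodup) (hC : HChain Q) (hH : ∀ z ∈ Q, hon z) {x y : ℤ}
    (hv : ∃ z ∈ Q, co z = x ∧ ro z = y + 1) (h0 : ∀ z ∈ Q, ro z = y + 1 → co z ≤ x)
    (h1 : ∀ z ∈ Q, ro z = y → co z ≤ x)
    (hh : ∀ z, Q.head? = some z → ro z ≠ y ∧ ro z ≠ y + 1)
    (hl : ∀ z, Q.getLast? = some z → ro z ≠ y ∧ ro z ≠ y + 1) :
    ∃ t ∈ tp, Pl (Q.map sg) (1 + 3 * (x + y + 1), 3 * (-y - 1) + 3) t ∧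
      ∀ z ∈ Q.map sg, fc z ≠ (1 + 3 * (x + y + 1), 3 * (-y - 1) + 3) := by
  refine topI (Q := Q.map sg) (x := x + y + 1) (y := -y - 1) (hN.map sg_inj) (hchain_sg hC) ?_ ?_ ?_ ?_ ?_ ?_
  · intro z hz
    obtain ⟨w, hw, rfl⟩ := List.mem_map.1 hz
    exact hon_sg (hH w hw)
  · obtain ⟨z, hz, h2, h3⟩ := hv
    refine ⟨sg z, List.mem_map_of_mem hz, ?_, ?_⟩
    · rw [co_sg (hH z hz)]; omega
    · rw [ro_sg]; omega
  · intro z hz h2
    obtain ⟨w, hw, rfl⟩ := List.mem_map.1 hz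
    rw [ro_sg] at h2
    rw [co_sg (hH w hw)]
    have := h0 w hw (by omega)
    omega
  · intro z hz h2
    obtain ⟨w, hw, rfl⟩ := List.mem_map.1 hz
    rw [ro_sg] at h2
    rw [co_sg (hH w hw)]
    have := h1 w hw (by omega)
    omega
  · intro z hz
    rw [List.head?_map] at hz
    obtain ⟨w, hw, rfl⟩ := Option.map_eq_some_iff.1 hz
    have := hh w hw
    rw [ro_sg]; omega
  · intro z hz
    rw [List.getLast?_map] at hz
    obtain ⟨w, hw, rfl⟩ := Option.map_eq_some_iff.1 hz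
    have := hl w hw
    rw [ro_sg]; omega

/-- A good place. -/
def GP (b : Bool) (P : List (ℤ × ℤ)) (f : ℤ × ℤ) (t : Mv) : Prop :=
  Ctr f ∧ InF b f ∧ (∀ z ∈ P, fc z ≠ f) ∧ Pl P f t ∧ ∀ z ∈ t.2, Dm b (f + z)

lemma mkGP {b : Bool} {P : List (ℤ × ℤ)} {f : ℤ × ℤ} {t : Mv} {s l : ℤ × ℤ → ℤ × ℤ} (hPl : Pl P (s f) (mm l t))
    (hsl : ∀ f z, s (f + z) = s f + l z) (hD : ∀ z ∈ P, Dm b z)
    (hdom : b = true → (∀ z ∈ t.1, 0 ≤ F0 (s (f + z))) → 2 ≤ F0 (s f) ∧ ∀ z ∈ t.2, 0 ≤ F0 (s (f + z)))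
    (hc : Ctr (s f)) (hfc : ∀ z ∈ P, fc z ≠ s f) : GP b P (s f) (mm l t) := by
  have key : b = true → ∀ z ∈ t.1, 0 ≤ F0 (s (f + z)) := by
    intro hb z hz
    refine hD _ ?_ hb
    obtain ⟨⟨p, r, hp⟩, -⟩ := hPl
    rw [hp, hsl]
    have : s f + l z ∈ sh (s f) (mm l t).1 := by
      unfold sh mm
      exact List.mem_map.2 ⟨l z, List.mem_map_of_mem hz, rfl⟩
    simp [this]
  refine ⟨hc, fun hb => (hdom hb (key hb)).1, hfc, hPl, ?_⟩
  intro z hz hb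
  obtain ⟨w, hw, rfl⟩ := List.mem_map.1 hz
  rw [← hsl]
  exact (hdom hb (key hb)).2 w hw

lemma ctr_base (x y : ℤ) : Ctr (1 + 3 * x, 3 * y + 3) := by
  constructor <;> simp only <;> omega
lemma ctr_sg {f : ℤ × ℤ} (h : Ctr f) : Ctr (sg f) := by
  obtain ⟨a, b⟩ := f
  simp only [Ctr, sg] at *
  omega
lemma ctr_sw {f : ℤ × ℤ} (h : Ctr f) : Ctr (sw f) := by
  obtain ⟨a, b⟩ := f
  simp only [Ctr, sw] at *
  omega
lemma fc_sg {z : ℤ × ℤ} (h : hon z) : fc (sg z) = sg (fc z) := by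
  rw [fc_eq h, fc_eq (hon_sg h), co_sg h, ro_sg]
  ext <;> simp only [sg] <;> ring
lemma fc_sw {z : ℤ × ℤ} (h : hon z) : fc (sw z) = sw (fc z) := by
  rw [fc_eq h, fc_eq (hon_sw h), co_sw, ro_sw]
  ext <;> simp only [sw]
  ring

lemma mm_id (t : Mv) : mm id t = t := by
  unfold mm; simp

variable {b : Bool} {P : List (ℤ × ℤ)}

lemma rowI (hN : P.Nodup) (hC : HChain P) (hH : ∀ z ∈ P, hon z) (hD : ∀ z ∈ P, Dm b z) {x y : ℤ}
    (hv : ∃ z ∈ P, co z = x ∧ ro z = y) (h0 : ∀ z ∈ P, ro z = y → co z ≤ x)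
    (h1 : ∀ z ∈ P, ro z = y + 1 → co z < x)
    (hh : ∀ z, P.head? = some z → ro z ≠ y ∧ ro z ≠ y + 1)
    (hl : ∀ z, P.getLast? = some z → ro z ≠ y ∧ ro z ≠ y + 1) :
    ∃ t ∈ mv, GP b P (1 + 3 * x, 3 * y + 3) t := by
  obtain ⟨t, ht, h2, h3⟩ := topI hN hC hH hv h0 h1 hh hl
  refine ⟨mm id t, ?_, ?_⟩
  · rw [mm_id]; unfold mv; simp [ht]
  · refine mkGP (s := id) (l := id) (by rw [mm_id]; exact h2) (fun _ _ => rfl) hD ?_ (ctr_base x y) h3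
    intro _ h
    exact dom1 ht h

lemma rowII (hN : P.Nodup) (hC : HChain P) (hH : ∀ z ∈ P, hon z) (hD : ∀ z ∈ P, Dm b z) {x y : ℤ}
    (hv : ∃ z ∈ P, co z = x ∧ ro z = y + 1) (h0 : ∀ z ∈ P, ro z = y + 1 → co z ≤ x)
    (h1 : ∀ z ∈ P, ro z = y → co z ≤ x)
    (hh : ∀ z, P.head? = some z → ro z ≠ y ∧ ro z ≠ y + 1)
    (hl : ∀ z, P.getLast? = some z → ro z ≠ y ∧ ro z ≠ y + 1) :
    ∃ t ∈ mv, GP b P (sg (1 + 3 * (x + y + 1), 3 * (-y - 1) + 3)) t := by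
  obtain ⟨t, ht, h2, h3⟩ := topII hN hC hH hv h0 h1 hh hl
  refine ⟨mm sg t, ?_, ?_⟩
  · unfold mv
    simp only [List.mem_append, List.mem_map]
    exact Or.inl (Or.inl (Or.inr ⟨t, ht, rfl⟩))
  · refine mkGP (s := sg) (l := sg) (Pl.map sg_sg sg_add h2) sg_add hD ?_ (ctr_sg (ctr_base _ _)) ?_
    · intro _ h
      exact dom3 ht h
    · intro z hz he
      refine h3 (sg z) (List.mem_map_of_mem hz) ?_
      rw [fc_sg (hH z hz), he, sg_sg]

lemma colI (hN : P.Nodup) (hC : HChain P) (hH : ∀ z ∈ P, hon z) (hD : ∀ z ∈ P, Dm b z) {x y : ℤ}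
    (hv : ∃ z ∈ P, ro z = x ∧ co z = y) (h0 : ∀ z ∈ P, co z = y → ro z ≤ x)
    (h1 : ∀ z ∈ P, co z = y + 1 → ro z < x)
    (hh : ∀ z, P.head? = some z → co z ≠ y ∧ co z ≠ y + 1)
    (hl : ∀ z, P.getLast? = some z → co z ≠ y ∧ co z ≠ y + 1) :
    ∃ t ∈ mv, GP b P (sw (1 + 3 * x, 3 * y + 3)) t := by
  obtain ⟨t, ht, h2, h3⟩ := topI (Q := P.map sw) (x := x) (y := y) (hN.map sw_inj) (hchain_sw hC)
    (by
      intro z hz
      obtain ⟨w, hw, rfl⟩ := List.mem_map.1 hz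
      exact hon_sw (hH w hw))
    (by
      obtain ⟨z, hz, h2, h3⟩ := hv
      exact ⟨sw z, List.mem_map_of_mem hz, h2, by rw [ro_sw]; exact h3⟩)
    (by
      intro z hz h2
      obtain ⟨w, hw, rfl⟩ := List.mem_map.1 hz
      rw [ro_sw] at h2
      rw [co_sw]
      exact h0 w hw h2)
    (by
      intro z hz h2
      obtain ⟨w, hw, rfl⟩ := List.mem_map.1 hz
      rw [ro_sw] at h2
      rw [co_sw]
      exact h1 w hw h2)
    (by
      intro z hz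
      rw [List.head?_map] at hz
      obtain ⟨w, hw, rfl⟩ := Option.map_eq_some_iff.1 hz
      rw [ro_sw]; exact hh w hw)
    (by
      intro z hz
      rw [List.getLast?_map] at hz
      obtain ⟨w, hw, rfl⟩ := Option.map_eq_some_iff.1 hz
      rw [ro_sw]; exact hl w hw)
  refine ⟨mm sl t, ?_, ?_⟩
  · unfold mv
    simp only [List.mem_append, List.mem_map]
    exact Or.inl (Or.inr ⟨t, ht, rfl⟩)
  · refine mkGP (s := sw) (l := sl) (Pl.map sw_sw sw_add h2) sw_add hD ?_ (ctr_sw (ctr_base _ _)) ?_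
    · intro _ h
      exact dom2 ht h
    · intro z hz he
      refine h3 (sw z) (List.mem_map_of_mem hz) ?_
      rw [fc_sw (hH z hz), he, sw_sw]

lemma colII (hN : P.Nodup) (hC : HChain P) (hH : ∀ z ∈ P, hon z) (hD : ∀ z ∈ P, Dm b z) {x y : ℤ}
    (hxy : b = true → -y ≤ x + y + 1)
    (hv : ∃ z ∈ P, ro z = x ∧ co z = y + 1) (h0 : ∀ z ∈ P, co z = y + 1 → ro z ≤ x)
    (h1 : ∀ z ∈ P, co z = y → ro z ≤ x)
    (hh : ∀ z, P.head? = some z → co z ≠ y ∧ co z ≠ y + 1)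
    (hl : ∀ z, P.getLast? = some z → co z ≠ y ∧ co z ≠ y + 1) :
    ∃ t ∈ mv, GP b P (sw (sg (1 + 3 * (x + y + 1), 3 * (-y - 1) + 3))) t := by
  obtain ⟨t, ht, h2, h3⟩ := topII (Q := P.map sw) (x := x) (y := y) (hN.map sw_inj) (hchain_sw hC)
    (by
      intro z hz
      obtain ⟨w, hw, rfl⟩ := List.mem_map.1 hz
      exact hon_sw (hH w hw))
    (by
      obtain ⟨z, hz, h2, h3⟩ := hv
      exact ⟨sw z, List.mem_map_of_mem hz, h2, by rw [ro_sw]; exact h3⟩)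
    (by
      intro z hz h2
      obtain ⟨w, hw, rfl⟩ := List.mem_map.1 hz
      rw [ro_sw] at h2
      rw [co_sw]
      exact h0 w hw h2)
    (by
      intro z hz h2
      obtain ⟨w, hw, rfl⟩ := List.mem_map.1 hz
      rw [ro_sw] at h2
      rw [co_sw]
      exact h1 w hw h2)
    (by
      intro z hz
      rw [List.head?_map] at hz
      obtain ⟨w, hw, rfl⟩ := Option.map_eq_some_iff.1 hz
      rw [ro_sw]; exact hh w hw)
    (by
      intro z hz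
      rw [List.getLast?_map] at hz
      obtain ⟨w, hw, rfl⟩ := Option.map_eq_some_iff.1 hz
      rw [ro_sw]; exact hl w hw)
  have hmm : mm (fun z => sl (sg z)) t = mm sl (mm sg t) := by
    unfold mm
    simp only [List.map_map]
    rfl
  refine ⟨mm (fun z => sl (sg z)) t, ?_, ?_⟩
  · rw [hmm]
    unfold mv
    simp only [List.mem_append, List.mem_map]
    exact Or.inr ⟨mm sg t, ⟨t, ht, rfl⟩, rfl⟩
  · refine mkGP (s := fun z => sw (sg z)) (l := fun z => sl (sg z)) ?_ ?_ hD ?_ (ctr_sw (ctr_sg (ctr_base _ _))) ?_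
    · rw [hmm]
      exact Pl.map sw_sw sw_add (Pl.map sg_sg sg_add h2)
    · intro f z
      show sw (sg (f + z)) = sw (sg f) + sl (sg z)
      rw [sg_add, sw_add]
    · intro hb h
      exact dom4 (by have := hxy hb; omega) ht h
    · intro z hz he
      refine h3 (sg (sw z)) (List.mem_map_of_mem (List.mem_map_of_mem hz)) ?_
      rw [fc_sg (hon_sw (hH z hz)), fc_sw (hH z hz), he, sw_sw, sg_sg]

end Pool.Agent.RAT.X
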