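import Pool.Agent.RAT.G.Defs

/-!
RAT, geometry, MODULE RowsA: rows and columns of faces visited by a walk.

`rwc s (fc z)` with `rwc s c = (c.1 - 1) / 3` for `s = true` (column), `c.2 / 3` for `s = false` (row).
(1) `rws_interval`: neighbouring vertices are in the same face or in faces whose centres differ by one of `(3,0), (0,3), (-3,3)` or their
negatives (write `x = c + u`, `y = x + v`, `fc` by `split_ifs`, omega), so rows and columns differ by at most 1; a chain visits every row
between two visited ones (induction on the list between the two vertices, or: if row `k` is not visited then all vertices of the chain are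
in rows `< k` or all in rows `> k`).
(2) `rws_mul`: a face has six vertices and a centre `c` is determined by its row and column; `z -> (row, column, z - fc z)` is injective on
vertices, and `z - fc z` is one of six vectors.
(3) `bad_le`: for a visited face with `F0 (fc z) < 5` in the half plane: `F0 (fc z) % 3 = 2` and `F0 (fc z) >= F0 z - 2 >= -2`, so
`F0 (fc z)` is `-1` or `2`; with `fc z = (1 + 3x, 3y)`, `F0 = 2 + 6x + 3y`: `y = -2x - 1` or `y = -2x`. So the column `x` is determined by
the row `y` (`x = -(y+1)/2` for odd `y`, `x = -y/2` for even `y`): an injection from the bad columns to the visited rows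
(`Finset.card_le_card_of_injOn` with a choice of the vertex).
-/

namespace Pool.Agent.RAT

open Pool.Agent.Hhelper14.SAW

/-- Row (`s = false`) or column (`s = true`) of a face. -/
def rwc (s : Bool) (c : ℤ × ℤ) : ℤ := if s then (c.1 - 1) / 3 else c.2 / 3

/-- The visited rows or columns. -/
def rws (s : Bool) (P : List (ℤ × ℤ)) : Finset ℤ := (P.map fun z => rwc s (fc z)).toFinset

theorem rws_interval {s : Bool} {P : List (ℤ × ℤ)} (h : HChain P) {x k y : ℤ} (hx : x ∈ rws s P) (hy : y ∈ rws s P)
    (h1 : x ≤ k) (h2 : k ≤ y) : k ∈ rws s P := by
  sorry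

theorem rws_mul {P : List (ℤ × ℤ)} (h : ∀ z ∈ P, hon z) (hn : P.Nodup) :
    P.length ≤ 6 * ((rws false P).card * (rws true P).card) := by
  sorry

open Classical in
theorem bad_le {P : List (ℤ × ℤ)} (h : ∀ z ∈ P, hon z) (hp : ∀ z ∈ P, 0 ≤ F0 z) :
    ((rws true P).filter fun x => ∃ z ∈ P, rwc true (fc z) = x ∧ F0 (fc z) < 5).card ≤ (rws false P).card := by
  sorry

end Pool.Agent.RAT
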