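import Pool.Agent.RAT.G.RowsA

/-!
RAT, geometry, MODULE RowsB: a long walk has many good pairs of rows `(y, y+1)`, `y` even, in one of the two directions.

For a direction `s` the set `I = rws s P` is an interval (`rws_interval`), with `k` elements (`k >= 1`). The even `y` with `y` and `y + 1` in
`I` number at least `(k - 2) / 2`. Remove those with `rwc s` of the first or of the last vertex in `{y, y+1}` (at most 2), and, if `b` and
`s` are true, those with `y + 1` in the bad set of `bad_le` (at most `(rws false P).card`). With `w = sqrt n >= 72`: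
CASE A, `(rws false P).card >= w / 4`: `s = false`, no bad rows: at least `w/8 - 1 - 2 >= w/24`.
CASE B, `(rws false P).card < w / 4`: `s = true`; `n + 1 <= 6 * rows * columns` gives `columns >= (2/3) w`; at least
`w/3 - 1 - 2 - w/4 = w/12 - 3 >= w/24`.
-/

namespace Pool.Agent.RAT

open Pool.Agent.Hhelper14.SAW

lemma rows_pairs {I : Finset ℤ} (hI : ∀ x ∈ I, ∀ y ∈ I, ∀ k, x ≤ k → k ≤ y → k ∈ I) :
    I.card ≤ 2 * (I.filter fun y => y % 2 = 0 ∧ y + 1 ∈ I).card + 2 := by
  rcases I.eq_empty_or_nonempty with rfl | hne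
  · simp
  set u := I.min' hne with hu
  set v := I.max' hne with hv
  set E := I.filter fun y => y % 2 = 0 ∧ y + 1 ∈ I with hE
  have hsub : (I \ {u, v}) ⊆ E ∪ E.image (· + 1) := by
    intro x hx
    rw [Finset.mem_sdiff, Finset.mem_insert, Finset.mem_singleton, not_or] at hx
    obtain ⟨hxI, hxu, hxv⟩ := hx
    have h1 : u < x := lt_of_le_of_ne (Finset.min'_le I x hxI) (Ne.symm hxu)
    have h2 : x < v := lt_of_le_of_ne (Finset.le_max' I x hxI) hxv
    have huI : u ∈ I := Finset.min'_mem I hne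
    have hvI : v ∈ I := Finset.max'_mem I hne
    rw [Finset.mem_union]
    rcases Int.emod_two_eq_zero_or_one x with he | he
    · left
      rw [hE, Finset.mem_filter]
      exact ⟨hxI, he, hI x hxI v hvI _ (by omega) (by omega)⟩
    · right
      rw [Finset.mem_image]
      refine ⟨x - 1, ?_, by omega⟩
      rw [hE, Finset.mem_filter]
      exact ⟨hI u huI x hxI _ (by omega) (by omega), by omega, by
        have : x - 1 + 1 = x := by omega
        rw [this]; exact hxI⟩
  have h1 := Finset.card_le_card hsub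
  have h2 := Finset.card_union_le E (E.image (· + 1))
  have h3 : (E.image (· + 1)).card ≤ E.card := Finset.card_image_le
  have h4 := Finset.le_card_sdiff {u, v} I
  have h5 : ({u, v} : Finset ℤ).card ≤ 2 := Finset.card_le_two
  omega

lemma rows_aux {P : List (ℤ × ℤ)} (hc : HChain P) (s : Bool) (x y : ℤ × ℤ) (hx : P.head? = some x)
    (hy : P.getLast? = some y) (B : Finset ℤ) :
    ∃ M : Finset ℤ, (rws s P).card ≤ 2 * (M.card + 2 + B.card) + 2 ∧ ∀ y ∈ M, y % 2 = 0 ∧
      y ∈ rws s P ∧ y + 1 ∈ rws s P ∧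
      (∀ z, P.head? = some z → rwc s (fc z) ≠ y ∧ rwc s (fc z) ≠ y + 1) ∧
      (∀ z, P.getLast? = some z → rwc s (fc z) ≠ y ∧ rwc s (fc z) ≠ y + 1) ∧ y + 1 ∉ B := by
  set E := (rws s P).filter fun y => y % 2 = 0 ∧ y + 1 ∈ rws s P with hE
  set F : Finset ℤ := {2 * (rwc s (fc x) / 2), 2 * (rwc s (fc y) / 2)} ∪ B.image (· - 1) with hF
  have h0 : (rws s P).card ≤ 2 * E.card + 2 := rows_pairs (I := rws s P) fun x hx y hy k h1 h2 => rws_interval hc hx hy h1 h2
  have h1 : F.card ≤ 2 + B.card := by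
    refine (Finset.card_union_le _ _).trans ?_
    exact add_le_add Finset.card_le_two Finset.card_image_le
  have h2 := Finset.le_card_sdiff F E
  refine ⟨E \ F, by omega, ?_⟩
  intro a ha
  rw [Finset.mem_sdiff, hE, Finset.mem_filter, hF, Finset.mem_union, Finset.mem_insert, Finset.mem_singleton,
    Finset.mem_image] at ha
  obtain ⟨⟨a1, a2, a3⟩, a4⟩ := ha
  push Not at a4
  obtain ⟨⟨a4, a5⟩, a6⟩ := a4
  refine ⟨a2, a1, a3, ?_, ?_, ?_⟩
  · intro z hz
    rw [hx, Option.some.injEq] at hz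
    subst hz
    constructor <;> omega
  · intro z hz
    rw [hy, Option.some.injEq] at hz
    subst hz
    constructor <;> omega
  · intro h
    exact a6 _ h (by omega)

theorem rows {b : Bool} {n : ℕ} {P : List (ℤ × ℤ)} (hP : P ∈ WF b n) (hn : 5184 ≤ n) :
    ∃ s : Bool, ∃ M : Finset ℤ, Real.sqrt n / 24 ≤ (M.card : ℝ) ∧ ∀ y ∈ M, y % 2 = 0 ∧
      (∃ z ∈ P, rwc s (fc z) = y) ∧ (∃ z ∈ P, rwc s (fc z) = y + 1) ∧
      (∀ z, P.head? = some z → rwc s (fc z) ≠ y ∧ rwc s (fc z) ≠ y + 1) ∧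
      (∀ z, P.getLast? = some z → rwc s (fc z) ≠ y ∧ rwc s (fc z) ≠ y + 1) ∧
      (b = true → s = true → ∀ z ∈ P, rwc true (fc z) = y + 1 → 5 ≤ F0 (fc z)) := by
  classical
  obtain ⟨⟨p1, p2, p3, p4⟩, p5⟩ := mem_WF.1 hP
  have hon' : ∀ z ∈ P, hon z := hon_of_walk ⟨p1, p2, p3, p4⟩
  obtain ⟨x, hx⟩ : ∃ x, P.head? = some x := by
    cases P with
    | nil => simp at p1
    | cons x P => exact ⟨x, rfl⟩
  have hmem : ∀ (s : Bool) (y : ℤ), y ∈ rws s P → ∃ z ∈ P, rwc s (fc z) = y := by
    intro s y hy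
    rw [rws, List.mem_toFinset, List.mem_map] at hy
    exact hy
  have hw : (72 : ℝ) ≤ Real.sqrt n := by
    rw [show (72 : ℝ) = Real.sqrt 5184 by
      rw [show (5184 : ℝ) = 72 ^ 2 by norm_num]; exact (Real.sqrt_sq (by norm_num)).symm]
    exact Real.sqrt_le_sqrt (by exact_mod_cast hn)
  have hw2 : Real.sqrt n * Real.sqrt n = n := Real.mul_self_sqrt (Nat.cast_nonneg n)
  by_cases hA : Real.sqrt n / 4 ≤ ((rws false P).card : ℝ)
  · obtain ⟨M, h1, h2⟩ := rows_aux p3 false x o hx p4 ∅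
    refine ⟨false, M, ?_, ?_⟩
    · have h1' : ((rws false P).card : ℝ) ≤ 2 * (M.card + 2 + 0) + 2 := by
        rw [Finset.card_empty] at h1
        exact_mod_cast h1
      linarith
    · intro y hy
      obtain ⟨a1, a2, a3, a4, a5, -⟩ := h2 y hy
      exact ⟨a1, hmem _ _ a2, hmem _ _ a3, a4, a5, fun _ h => absurd h (by decide)⟩
  · push Not at hA
    have hB : ∃ B : Finset ℤ, B.card ≤ (rws false P).card ∧
        (b = true → ∀ z ∈ P, F0 (fc z) < 5 → rwc true (fc z) ∈ B) := by
      cases b with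
      | false => exact ⟨∅, by simp, fun h => absurd h (by decide)⟩
      | true =>
        refine ⟨_, bad_le hon' fun z hz => p5 z hz rfl, fun _ z hz h => ?_⟩
        rw [Finset.mem_filter]
        refine ⟨?_, z, hz, rfl, h⟩
        rw [rws, List.mem_toFinset, List.mem_map]
        exact ⟨z, hz, rfl⟩
    obtain ⟨B, hB1, hB2⟩ := hB
    obtain ⟨M, h1, h2⟩ := rows_aux p3 true x o hx p4 B
    refine ⟨true, M, ?_, ?_⟩
    · have h1' : ((rws true P).card : ℝ) ≤ 2 * (M.card + 2 + B.card) + 2 := by exact_mod_cast h1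
      have hB' : (B.card : ℝ) ≤ (rws false P).card := by exact_mod_cast hB1
      have hm := rws_mul hon' p2
      rw [p1] at hm
      have hm' : (n : ℝ) + 1 ≤ 6 * ((rws false P).card * (rws true P).card) := by exact_mod_cast hm
      have hc0 : (0 : ℝ) ≤ (rws true P).card := Nat.cast_nonneg _
      have h3 : ((rws false P).card : ℝ) * (rws true P).card ≤ Real.sqrt n / 4 * (rws true P).card :=
        mul_le_mul_of_nonneg_right hA.le hc0
      have h4 : Real.sqrt n * Real.sqrt n ≤ Real.sqrt n * (3 / 2 * (rws true P).card) := by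
        rw [hw2]; linarith
      have h5 := le_of_mul_le_mul_left h4 (by linarith)
      linarith
    · intro y hy
      obtain ⟨a1, a2, a3, a4, a5, a6⟩ := h2 y hy
      refine ⟨a1, hmem _ _ a2, hmem _ _ a3, a4, a5, fun hb _ z hz hz' => ?_⟩
      by_contra hlt
      push Not at hlt
      exact a6 (hz' ▸ hB2 hb z hz hlt)

end Pool.Agent.RAT
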