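import Pool.Agent.RAT.G.Defs

/-!
RAT, geometry: the two reflections of the lattice. `S1` = reflection in the real axis, `S2` = the reflection which
swaps the coordinates of the faces (it does not fix `o`, but all surgeries are local).
-/

namespace Pool.Agent.RAT

open Pool.Agent.Hhelper14.SAW

/-- Reflection in the real axis; on the centres `(1 + 3x, 3y)`: `(x, y) -> (x + y, -y)`. -/
def S1 (z : ℤ × ℤ) : ℤ × ℤ := (z.1 + z.2, -z.2)

/-- Reflection; on the centres `(1 + 3x, 3y)`: `(x, y) -> (y, x)`. -/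
def S2 (z : ℤ × ℤ) : ℤ × ℤ := (z.2 + 1, z.1 - 1)

/-- First `S2` (if `s`), then `S1` (if `m`). -/
def Sy (s m : Bool) (z : ℤ × ℤ) : ℤ × ℤ :=
  if m then S1 (if s then S2 z else z) else (if s then S2 z else z)

/-- The inverse of `Sy s m`. -/
def Si (s m : Bool) (z : ℤ × ℤ) : ℤ × ℤ :=
  if s then S2 (if m then S1 z else z) else (if m then S1 z else z)

@[simp] lemma Si_Sy (s m : Bool) (z : ℤ × ℤ) : Si s m (Sy s m z) = z := by
  obtain ⟨a, b⟩ := z
  cases s <;> cases m <;> simp [Si, Sy, S1, S2]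

@[simp] lemma Sy_Si (s m : Bool) (z : ℤ × ℤ) : Sy s m (Si s m z) = z := by
  obtain ⟨a, b⟩ := z
  cases s <;> cases m <;> simp [Si, Sy, S1, S2]

lemma Sy_inj {s m : Bool} {x y : ℤ × ℤ} (h : Sy s m x = Sy s m y) : x = y := by
  rw [← Si_Sy s m x, h, Si_Sy]

lemma Si_inj {s m : Bool} {x y : ℤ × ℤ} (h : Si s m x = Si s m y) : x = y := by
  rw [← Sy_Si s m x, h, Sy_Si]

lemma hon_Sy {s m : Bool} {z : ℤ × ℤ} : hon (Sy s m z) ↔ hon z := by
  obtain ⟨a, b⟩ := z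
  cases s <;> cases m <;> simp only [Sy, S1, S2, hon, Bool.false_eq_true, if_true, if_false] <;> omega

lemma hon_Si {s m : Bool} {z : ℤ × ℤ} : hon (Si s m z) ↔ hon z := by
  rw [← hon_Sy (s := s) (m := m), Sy_Si]

lemma U_Sy {s m : Bool} {x y : ℤ × ℤ} : U (Sy s m x - Sy s m y) ↔ U (x - y) := by
  obtain ⟨a, b⟩ := x
  obtain ⟨c, d⟩ := y
  cases s <;> cases m <;> simp only [Sy, S1, S2, U, Bool.false_eq_true, if_true, if_false, Prod.mk_sub_mk] <;> omega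

lemma Adj_Sy {s m : Bool} {x y : ℤ × ℤ} : Adj (Sy s m x) (Sy s m y) ↔ Adj x y := by
  unfold Adj
  rw [hon_Sy, hon_Sy, U_Sy]

lemma Ctr_Sy {s m : Bool} {z : ℤ × ℤ} : Ctr (Sy s m z) ↔ Ctr z := by
  obtain ⟨a, b⟩ := z
  cases s <;> cases m <;> simp only [Sy, S1, S2, Ctr, Bool.false_eq_true, if_true, if_false] <;> omega

lemma Ctr_Si {s m : Bool} {z : ℤ × ℤ} : Ctr (Si s m z) ↔ Ctr z := by
  rw [← Ctr_Sy (s := s) (m := m), Sy_Si]

lemma fc_Sy {s m : Bool} {z : ℤ × ℤ} (h : hon z) : fc (Sy s m z) = Sy s m (fc z) := by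
  obtain ⟨h1, h2⟩ := fc_spec h
  exact (fc_of (Ctr_Sy.2 h1) (U_Sy.2 h2)).2

lemma fc_Si {s m : Bool} {z : ℤ × ℤ} (h : hon z) : fc (Si s m z) = Si s m (fc z) := by
  apply Sy_inj (s := s) (m := m)
  rw [← fc_Sy (hon_Si.2 h), Sy_Si, Sy_Si]

lemma chain_Sy {s m : Bool} {P : List (ℤ × ℤ)} : HChain (P.map (Sy s m)) ↔ HChain P := by
  unfold HChain
  rw [List.isChain_map]
  constructor
  · exact fun h => h.imp fun _ _ hh => Adj_Sy.1 hh
  · exact fun h => h.imp fun _ _ hh => Adj_Sy.2 hh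

lemma nodup_Sy {s m : Bool} {P : List (ℤ × ℤ)} : (P.map (Sy s m)).Nodup ↔ P.Nodup :=
  List.nodup_map_iff (fun _ _ h => Sy_inj h)

lemma map_Si_Sy {s m : Bool} {P : List (ℤ × ℤ)} : (P.map (Sy s m)).map (Si s m) = P := by
  rw [List.map_map]
  conv_rhs => rw [← List.map_id P]
  refine List.map_congr_left fun x _ => ?_
  simp

lemma map_Sy_Si {s m : Bool} {P : List (ℤ × ℤ)} : (P.map (Si s m)).map (Sy s m) = P := by
  rw [List.map_map]
  conv_rhs => rw [← List.map_id P]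
  refine List.map_congr_left fun x _ => ?_
  simp

lemma piece_Sy {s m : Bool} {k : ℕ} {c : ℤ × ℤ} {P : List (ℤ × ℤ)} (h : ∀ z ∈ P, hon z) (hp : Piece k c P) :
    Piece k (Sy s m c) (P.map (Sy s m)) := by
  obtain ⟨p, q, r, rfl, h1, h2, h3, h4⟩ := hp
  refine ⟨p.map (Sy s m), q.map (Sy s m), r.map (Sy s m), by simp, by simp [h1], ?_, ?_, ?_⟩
  · intro z hz
    obtain ⟨x, hx, rfl⟩ := List.mem_map.1 hz
    rw [fc_Sy (h x (by simp [hx])), h2 x hx]
  · intro z hz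
    obtain ⟨x, hx, rfl⟩ := List.mem_map.1 hz
    rw [fc_Sy (h x (by simp [hx]))]
    exact fun hh => h3 x hx (Sy_inj hh)
  · intro z hz
    obtain ⟨x, hx, rfl⟩ := List.mem_map.1 hz
    rw [fc_Sy (h x (by simp [hx]))]
    exact fun hh => h4 x hx (Sy_inj hh)

lemma piece_Si {s m : Bool} {k : ℕ} {c : ℤ × ℤ} {P : List (ℤ × ℤ)} (h : ∀ z ∈ P, hon z) (hp : Piece k c P) :
    Piece k (Si s m c) (P.map (Si s m)) := by
  obtain ⟨p, q, r, rfl, h1, h2, h3, h4⟩ := hp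
  refine ⟨p.map (Si s m), q.map (Si s m), r.map (Si s m), by simp, by simp [h1], ?_, ?_, ?_⟩
  · intro z hz
    obtain ⟨x, hx, rfl⟩ := List.mem_map.1 hz
    rw [fc_Si (h x (by simp [hx])), h2 x hx]
  · intro z hz
    obtain ⟨x, hx, rfl⟩ := List.mem_map.1 hz
    rw [fc_Si (h x (by simp [hx]))]
    exact fun hh => h3 x hx (Si_inj hh)
  · intro z hz
    obtain ⟨x, hx, rfl⟩ := List.mem_map.1 hz
    rw [fc_Si (h x (by simp [hx]))]
    exact fun hh => h4 x hx (Si_inj hh)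

end Pool.Agent.RAT
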