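import Pool.Agent.RAT.G.Sym

/-!
RAT, geometry: the nine surgeries (templates). Offsets are relative to the centre `c` of the extreme face of a row;
each surgery makes the face with centre `c + (0,3)` thin.
-/

namespace Pool.Agent.RAT

open Pool.Agent.Hhelper14.SAW

/-- The nine templates `(q, q')`: the piece `c + q` of the walk is replaced by `c + q'`. -/
def Tm : List (List (ℤ × ℤ) × List (ℤ × ℤ)) :=
  [([(1,0),(0,1)], [(1,0),(2,0),(2,1),(1,2),(0,2),(0,1)]),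
   ([(-1,1),(-1,0)], [(-1,1),(0,1),(0,2),(1,2),(2,1),(2,0),(1,0),(1,-1),(0,-1),(-1,0)]),
   ([(-1,0),(0,-1)], [(-1,0),(-1,1),(0,1),(0,2),(1,2),(2,1),(2,0),(1,0),(1,-1),(0,-1)]),
   ([(0,-1),(1,-1)], [(0,-1),(-1,0),(-1,1),(0,1),(0,2),(1,2),(2,1),(2,0),(1,0),(1,-1)]),
   ([(-1,1),(-1,0),(0,-1)], [(-1,1),(0,1),(0,2),(1,2),(2,1),(2,0),(1,0),(1,-1),(0,-1)]),
   ([(-1,0),(0,-1),(1,-1)], [(-1,0),(-1,1),(0,1),(0,2),(1,2),(2,1),(2,0),(1,0),(1,-1)]),
   ([(-1,1),(-1,0),(0,-1),(1,-1)], [(-1,1),(0,1),(0,2),(1,2),(2,1),(2,0),(1,0),(1,-1)]),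
   ([(-1,1),(-2,2)], [(-1,1),(0,1),(0,2),(-1,3),(-2,3),(-2,2)]),
   ([(-1,1),(-2,2),(-2,3)], [(-1,1),(0,1),(0,2),(-1,3),(-2,3)])]

/-- All the offsets which can occur as new vertices. -/
def Nw : List (ℤ × ℤ) :=
  [(1,0),(0,1),(-1,1),(-1,0),(0,-1),(1,-1),(2,0),(2,1),(1,2),(0,2),(-1,3),(-2,3),(-2,2)]

/-- Translation. -/
def sh (c : ℤ × ℤ) (q : List (ℤ × ℤ)) : List (ℤ × ℤ) := q.map fun o => c + o

/-- Orientation. -/
def ori (o : Bool) (q : List (ℤ × ℤ)) : List (ℤ × ℤ) := if o then q.reverse else q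

/-- `P'` arises from `P` by the template `t` at the extreme face `c`, with orientation `o`. -/
def Rpl (c : ℤ × ℤ) (t : List (ℤ × ℤ) × List (ℤ × ℤ)) (o : Bool) (P P' : List (ℤ × ℤ)) : Prop :=
  ∃ p r, P = p ++ ori o (sh c t.1) ++ r ∧ P' = p ++ ori o (sh c t.2) ++ r

/-- Adjacency of offsets. -/
def OAdj (x y : ℤ × ℤ) : Prop := (x.1 - x.2) % 3 ≠ 0 ∧ (y.1 - y.2) % 3 ≠ 0 ∧ U (x - y)

instance (x y : ℤ × ℤ) : Decidable (OAdj x y) := by unfold OAdj; infer_instance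

lemma adj_sh {c x y : ℤ × ℤ} (hc : Ctr c) (h : OAdj x y) : Adj (c + x) (c + y) := by
  obtain ⟨h1, h2, h3⟩ := h
  refine ⟨?_, ?_, by rwa [add_sub_add_left_eq_sub]⟩
  · simp only [Ctr] at hc
    simp only [hon, Prod.fst_add, Prod.snd_add]; omega
  · simp only [Ctr] at hc
    simp only [hon, Prod.fst_add, Prod.snd_add]; omega

lemma tm_chain1 : ∀ t ∈ Tm, t.1.IsChain OAdj := by decide
lemma tm_chain2 : ∀ t ∈ Tm, t.2.IsChain OAdj := by decide
lemma tm_nodup : ∀ t ∈ Tm, t.2.Nodup := by decide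
lemma tm_nodup1 : ∀ t ∈ Tm, t.1.Nodup := by decide
lemma tm_ne : ∀ t ∈ Tm, t.1 ≠ [] ∧ t.2 ≠ [] := by decide
lemma tm_head : ∀ t ∈ Tm, t.2.head? = t.1.head? ∧ t.2.getLast? = t.1.getLast? := by decide
lemma tm_len : ∀ t ∈ Tm, t.2.length = t.1.length + 2 ∨ t.2.length = t.1.length + 4 ∨
    t.2.length = t.1.length + 6 ∨ t.2.length = t.1.length + 8 := by decide
lemma tm_Nw : ∀ t ∈ Tm, ∀ o ∈ t.2, o ∈ Nw := by decide
lemma tm_Nw1 : ∀ t ∈ Tm, ∀ o ∈ t.1, o ∈ Nw := by decide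

/-- The faces of the offsets. -/
lemma nw_face {c : ℤ × ℤ} (hc : Ctr c) : ∀ o ∈ Nw, fc (c + o) = c ∨ fc (c + o) = c + (3, 0) ∨
    fc (c + o) = c + (0, 3) ∨ fc (c + o) = c + (-3, 3) := by
  obtain ⟨a, b⟩ := c
  simp only [Ctr] at hc
  have key : ∀ o d : ℤ × ℤ, d.1 % 3 = 0 → d.2 % 3 = 0 → U (o - d) → fc ((a, b) + o) = (a, b) + d := by
    intro o d h1 h2 h3
    refine (fc_of ?_ ?_).2
    · simp only [Ctr, Prod.fst_add, Prod.snd_add]; omega
    · rwa [add_sub_add_left_eq_sub]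
  intro o ho
  simp only [Nw, List.mem_cons, List.not_mem_nil, or_false] at ho
  rcases ho with rfl | rfl | rfl | rfl | rfl | rfl | rfl | rfl | rfl | rfl | rfl | rfl | rfl
  · exact Or.inl (by simpa using key (1,0) (0,0) (by decide) (by decide) (by decide))
  · exact Or.inl (by simpa using key (0,1) (0,0) (by decide) (by decide) (by decide))
  · exact Or.inl (by simpa using key (-1,1) (0,0) (by decide) (by decide) (by decide))
  · exact Or.inl (by simpa using key (-1,0) (0,0) (by decide) (by decide) (by decide))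
  · exact Or.inl (by simpa using key (0,-1) (0,0) (by decide) (by decide) (by decide))
  · exact Or.inl (by simpa using key (1,-1) (0,0) (by decide) (by decide) (by decide))
  · exact Or.inr (Or.inl (key (2,0) (3,0) (by decide) (by decide) (by decide)))
  · exact Or.inr (Or.inl (key (2,1) (3,0) (by decide) (by decide) (by decide)))
  · exact Or.inr (Or.inr (Or.inl (key (1,2) (0,3) (by decide) (by decide) (by decide))))
  · exact Or.inr (Or.inr (Or.inl (key (0,2) (0,3) (by decide) (by decide) (by decide))))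
  · exact Or.inr (Or.inr (Or.inl (key (-1,3) (0,3) (by decide) (by decide) (by decide))))
  · exact Or.inr (Or.inr (Or.inr (key (-2,3) (-3,3) (by decide) (by decide) (by decide))))
  · exact Or.inr (Or.inr (Or.inr (key (-2,2) (-3,3) (by decide) (by decide) (by decide))))

/-- The vertices of the template in the face `(0,3)`: exactly two consecutive ones. -/
lemma tm_thin : ∀ t ∈ Tm, ∃ i < 10, (t.2.drop i).length ≥ 2 ∧
    (∀ o ∈ t.2.take i, ¬ U (o - (0, 3))) ∧ (∀ o ∈ (t.2.drop i).take 2, U (o - (0, 3))) ∧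
    ∀ o ∈ (t.2.drop i).drop 2, ¬ U (o - (0, 3)) := by decide

end Pool.Agent.RAT
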